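import Mathlib

set_option autoImplicit false

/-!
# Products over ordered pairs of indices and partial fraction sums
-/

namespace Pool.Agent.H19.HP

open Finset

variable {F : Type*} [Field F]

/-- The product of `f a b` over all pairs of indices `a < b`. -/
def PP {n : ℕ} (f : Fin n → Fin n → F) : F :=
  ∏ a, ∏ b, if a < b then f a b else 1

lemma PP_eq_Ioi {n : ℕ} (f : Fin n → Fin n → F) :
    PP f = ∏ a, ∏ b ∈ Ioi a, f a b := by
  unfold PP
  refine prod_congr rfl fun a _ => ?_
  rw [← prod_filter]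
  refine prod_congr ?_ fun _ _ => rfl
  ext b; simp

lemma PP_mul {n : ℕ} (f g : Fin n → Fin n → F) :
    PP (fun a b => f a b * g a b) = PP f * PP g := by
  unfold PP
  rw [← prod_mul_distrib]
  refine prod_congr rfl fun a _ => ?_
  rw [← prod_mul_distrib]
  refine prod_congr rfl fun b _ => ?_
  split_ifs <;> simp

lemma PP_congr {n : ℕ} {f g : Fin n → Fin n → F} (h : ∀ a b, a < b → f a b = g a b) :
    PP f = PP g := by
  unfold PP
  refine prod_congr rfl fun a _ => prod_congr rfl fun b _ => ?_
  split_ifs with hab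
  · exact h a b hab
  · rfl

lemma PP_ne_zero {n : ℕ} {f : Fin n → Fin n → F} (h : ∀ a b, a < b → f a b ≠ 0) :
    PP f ≠ 0 := by
  unfold PP
  refine prod_ne_zero_iff.2 fun a _ => prod_ne_zero_iff.2 fun b _ => ?_
  split_ifs with hab
  · exact h a b hab
  · exact one_ne_zero

lemma PP_zero {f : Fin 0 → Fin 0 → F} : PP f = 1 := by
  simp [PP]

/-- Permuting the indices of an antisymmetric function. -/
lemma PP_perm {n : ℕ} {f : Fin n → Fin n → F} (hf : ∀ i j, f i j = -f j i)
    (σ : Equiv.Perm (Fin n)) :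
    PP (fun a b => f (σ a) (σ b)) = (Equiv.Perm.sign σ : ℤ) * PP f := by
  rw [PP_eq_Ioi, PP_eq_Ioi, Equiv.Perm.prod_Ioi_comp_eq_sign_mul_prod σ hf]

/-- `∏ (-1)` over the indices that `succAbove i` keeps below `i`. -/
lemma prod_sign_succAbove {n : ℕ} (i : Fin (n + 1)) :
    (∏ b : Fin n, if i.succAbove b < i then (-1 : F) else 1) = (-1) ^ (i : ℕ) := by
  rw [← prod_filter, prod_const]
  congr 1
  have h : (univ.filter fun b : Fin n => i.succAbove b < i) =
      univ.filter fun b : Fin n => (b : ℕ) < (i : ℕ) := by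
    ext b
    simp only [mem_filter, mem_univ, true_and]
    rw [Fin.succAbove_lt_iff_castSucc_lt]
    rfl
  rw [h]
  rw [Fin.card_filter_val_lt]
  omega

/-- Splitting off the index `i`. -/
lemma PP_succAbove {n : ℕ} {f : Fin (n + 1) → Fin (n + 1) → F} (hf : ∀ i j, f i j = -f j i)
    (i : Fin (n + 1)) :
    PP f = (-1) ^ (i : ℕ) * (∏ b : Fin n, f i (i.succAbove b)) *
      PP (fun a b => f (i.succAbove a) (i.succAbove b)) := by
  unfold PP
  rw [Fin.prod_univ_succAbove _ i]
  have h1 : (∏ b, if i < b then f i b else 1) =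
      ∏ b : Fin n, if i < i.succAbove b then f i (i.succAbove b) else 1 := by
    rw [Fin.prod_univ_succAbove _ i]
    simp
  have h2 : (∏ a : Fin n, ∏ b, if i.succAbove a < b then f (i.succAbove a) b else 1) =
      (∏ a : Fin n, if i.succAbove a < i then f (i.succAbove a) i else 1) *
      ∏ a : Fin n, ∏ b : Fin n, if a < b then f (i.succAbove a) (i.succAbove b) else 1 := by
    rw [← prod_mul_distrib]
    refine prod_congr rfl fun a _ => ?_
    rw [Fin.prod_univ_succAbove _ i]
    congr 1
    refine prod_congr rfl fun b _ => ?_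
    simp
  rw [h1, h2, ← mul_assoc]
  refine congrArg₂ (· * ·) ?_ rfl
  rw [← prod_sign_succAbove (F := F) i, ← prod_mul_distrib, ← prod_mul_distrib]
  refine prod_congr rfl fun b _ => ?_
  have hne : i.succAbove b ≠ i := Fin.succAbove_ne i b
  rcases lt_or_gt_of_ne hne with h | h
  · rw [if_neg (not_lt.2 h.le), if_pos h, if_pos h, hf (i.succAbove b) i]
    ring
  · rw [if_pos h, if_neg (not_lt.2 h.le), if_neg (not_lt.2 h.le)]
    ring

/-- Splitting off the index `i`, symmetric case. -/
lemma PP_succAbove_symm {n : ℕ} {f : Fin (n + 1) → Fin (n + 1) → F} (hf : ∀ i j, f i j = f j i)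
    (i : Fin (n + 1)) :
    PP f = (∏ b : Fin n, f i (i.succAbove b)) *
      PP (fun a b => f (i.succAbove a) (i.succAbove b)) := by
  unfold PP
  rw [Fin.prod_univ_succAbove _ i]
  have h1 : (∏ b, if i < b then f i b else 1) =
      ∏ b : Fin n, if i < i.succAbove b then f i (i.succAbove b) else 1 := by
    rw [Fin.prod_univ_succAbove _ i]
    simp
  have h2 : (∏ a : Fin n, ∏ b, if i.succAbove a < b then f (i.succAbove a) b else 1) =
      (∏ a : Fin n, if i.succAbove a < i then f (i.succAbove a) i else 1) *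
      ∏ a : Fin n, ∏ b : Fin n, if a < b then f (i.succAbove a) (i.succAbove b) else 1 := by
    rw [← prod_mul_distrib]
    refine prod_congr rfl fun a _ => ?_
    rw [Fin.prod_univ_succAbove _ i]
    congr 1
    refine prod_congr rfl fun b _ => ?_
    simp
  rw [h1, h2, ← mul_assoc]
  refine congrArg₂ (· * ·) ?_ rfl
  rw [← prod_mul_distrib]
  refine prod_congr rfl fun b _ => ?_
  have hne : i.succAbove b ≠ i := Fin.succAbove_ne i b
  rcases lt_or_gt_of_ne hne with h | h
  · rw [if_neg (not_lt.2 h.le), if_pos h, hf (i.succAbove b) i]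
    ring
  · rw [if_pos h, if_neg (not_lt.2 h.le)]
    ring

end Pool.Agent.H19.HP
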