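import Mathlib
import Pool.Agent.H19.HP.PP

set_option autoImplicit false

/-!
# Partial fraction sums `∑ v_i^r ∏ (v_i + v_j)/(v_i - v_j)`
-/

namespace Pool.Agent.H19.HP

open Finset Polynomial

variable {F : Type*} [Field F] {ι : Type*} [DecidableEq ι]

/-- `∏_{j ≠ i} (v_i + v_j)/(v_i - v_j)`. -/
def Cf (s : Finset ι) (v : ι → F) (i : ι) : F := ∏ j ∈ s.erase i, (v i + v j) / (v i - v j)

/-- `∑ v_i^r ∏_{j ≠ i} (v_i + v_j)/(v_i - v_j)`. -/
def TT (r : ℕ) (s : Finset ι) (v : ι → F) : F := ∑ i ∈ s, v i ^ r * Cf s v i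

lemma TT_step (r : ℕ) {s : Finset ι} {v : ι → F} {a : ι} (ha : a ∉ s)
    (hv : Set.InjOn v (insert a s : Finset ι)) :
    TT (r + 1) (insert a s) v - v a * TT r (insert a s) v
      = TT (r + 1) s v + v a * TT r s v := by
  unfold TT
  rw [mul_sum, mul_sum, ← sum_sub_distrib, ← sum_add_distrib, sum_insert ha]
  have h0 : v a ^ (r + 1) * Cf (insert a s) v a - v a * (v a ^ r * Cf (insert a s) v a) = 0 := by
    ring
  rw [h0, zero_add]
  refine sum_congr rfl fun i hi => ?_
  have hia : i ≠ a := fun h => ha (h ▸ hi)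
  have hne : v i - v a ≠ 0 := by
    intro h
    exact hia (hv (by simp [hi]) (by simp) (sub_eq_zero.1 h))
  have hC : Cf (insert a s) v i = (v i + v a) / (v i - v a) * Cf s v i := by
    unfold Cf
    rw [erase_insert_of_ne hia.symm, prod_insert (by simp [ha])]
  rw [hC]
  field_simp
  ring

lemma TT_one (h2 : (2 : F) ≠ 0) {s : Finset ι} {v : ι → F} (hv : Set.InjOn v s) :
    TT 1 s v = ∑ i ∈ s, v i := by
  rcases s.eq_empty_or_nonempty with rfl | hs
  · simp [TT]
  have hpos : 0 < #s := card_pos.2 hs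
  set g : F[X] := ∏ j ∈ s, (X - C (-v j)) with hg
  set h : F[X] := ∏ j ∈ s, (X - C (v j)) with hh
  have hgm : g.Monic := monic_prod_of_monic _ _ fun j _ => monic_X_sub_C _
  have hhm : h.Monic := monic_prod_of_monic _ _ fun j _ => monic_X_sub_C _
  have hgd : g.natDegree = #s := by
    rw [hg, natDegree_prod_of_monic _ _ fun j _ => monic_X_sub_C _]; simp
  have hhd : h.natDegree = #s := by
    rw [hh, natDegree_prod_of_monic _ _ fun j _ => monic_X_sub_C _]; simp
  have hdeg : (g - h).degree < #s := by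
    have h1 : (g - h).degree < g.degree := by
      refine degree_sub_lt ?_ hgm.ne_zero ?_
      · rw [degree_eq_natDegree hgm.ne_zero, degree_eq_natDegree hhm.ne_zero, hgd, hhd]
      · rw [hgm.leadingCoeff, hhm.leadingCoeff]
    rwa [degree_eq_natDegree hgm.ne_zero, hgd] at h1
  have key := Lagrange.coeff_eq_sum hv hdeg
  have hc : (g - h).coeff (#s - 1) = 2 * ∑ i ∈ s, v i := by
    rw [coeff_sub, hg, hh, prod_X_sub_C_coeff_card_pred _ _ hpos,
      prod_X_sub_C_coeff_card_pred _ _ hpos]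
    rw [sum_neg_distrib]; ring
  rw [hc] at key
  have hval : ∀ i ∈ s, eval (v i) (g - h) / ∏ j ∈ s.erase i, (v i - v j)
      = 2 * (v i ^ 1 * Cf s v i) := by
    intro i hi
    have e1 : eval (v i) h = 0 := by
      rw [hh, eval_prod]
      exact prod_eq_zero hi (by simp)
    have e2 : eval (v i) g = 2 * v i * ∏ j ∈ s.erase i, (v i + v j) := by
      rw [hg, eval_prod, ← mul_prod_erase s _ hi]
      simp only [eval_sub, eval_X, eval_C, sub_neg_eq_add]
      ring
    rw [eval_sub, e1, e2, sub_zero, Cf, prod_div_distrib]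
    ring
  rw [sum_congr rfl hval, ← mul_sum] at key
  exact (mul_left_cancel₀ h2 key).symm

lemma TT_two (h2 : (2 : F) ≠ 0) {s : Finset ι} {v : ι → F} (hv : Set.InjOn v s) :
    TT 2 s v = (∑ i ∈ s, v i) ^ 2 := by
  induction s using Finset.induction_on with
  | empty => simp [TT]
  | insert a s ha ih =>
    have hvs : Set.InjOn v s := hv.mono (by simp)
    have h1 := TT_step 1 ha hv
    rw [TT_one h2 hv, TT_one h2 hvs, ih hvs, sum_insert ha] at h1
    rw [sum_insert ha]
    linear_combination h1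

lemma TT_three (h2 : (2 : F) ≠ 0) {s : Finset ι} {v : ι → F} (hv : Set.InjOn v s) :
    3 * TT 3 s v = 2 * (∑ i ∈ s, v i) ^ 3 + ∑ i ∈ s, v i ^ 3 := by
  induction s using Finset.induction_on with
  | empty => simp [TT]
  | insert a s ha ih =>
    have hvs : Set.InjOn v s := hv.mono (by simp)
    have h1 := TT_step 2 ha hv
    have h3 := ih hvs
    rw [TT_two h2 hv, TT_two h2 hvs, sum_insert ha] at h1
    rw [sum_insert ha, sum_insert ha]
    linear_combination 3 * h1 + h3

end Pool.Agent.H19.HP
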