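import Mathlib
import Pool.Agent.H19.HP.PF

set_option autoImplicit false

/-!
# The signed products `lam` and their recursion
-/

namespace Pool.Agent.H19.HP

open Finset

variable {F : Type*} [Field F]

/-- The sign `1` or `-1`. -/
def sg (b : Bool) : F := if b then 1 else -1

@[simp] lemma sg_true : sg (F := F) true = 1 := rfl
@[simp] lemma sg_false : sg (F := F) false = -1 := rfl

/-- The pair function. -/
def pf {n : ℕ} (ε : Fin n → Bool) (x : Fin n → F) (a b : Fin n) : F :=
  (sg (ε b) * x b - sg (ε a) * x a) / (x b + x a)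

lemma pf_anti {n : ℕ} (ε : Fin n → Bool) (x : Fin n → F) (a b : Fin n) :
    pf ε x a b = - pf ε x b a := by
  unfold pf
  rw [← neg_div, neg_sub, add_comm]

/-- The signed product. -/
def lam {n : ℕ} (ε : Fin n → Bool) (x : Fin n → F) : F :=
  (∏ i, sg (ε i)) * PP (pf ε x)

/-- The sum of the selected entries. -/
def ss {n : ℕ} (ε : Fin n → Bool) (x : Fin n → F) : F := ∑ i, if ε i then x i else 0

/-- The product `∏_{a<b} (x_b - x_a)/(x_b + x_a)`. -/
def Phi {n : ℕ} (x : Fin n → F) : F := lam (fun _ => true) x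

lemma lam_erase {n : ℕ} (ε : Fin (n + 1) → Bool) (x : Fin (n + 1) → F)
    (hx : Function.Injective x) (hs : ∀ a b, a ≠ b → x a + x b ≠ 0) (i : Fin (n + 1))
    (hi : ε i = true) :
    (-1) ^ (i : ℕ) * lam (ε ∘ i.succAbove) (x ∘ i.succAbove)
      = (-1) ^ n * Cf (univ.filter fun j => ε j = true) x i * lam ε x := by
  classical
  have h1 : lam ε x = (-1) ^ (i : ℕ) * (∏ b : Fin n, pf ε x i (i.succAbove b)) *
      lam (ε ∘ i.succAbove) (x ∘ i.succAbove) := by
    unfold lam
    rw [PP_succAbove (pf_anti ε x) i, Fin.prod_univ_succAbove _ i, hi, sg_true]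
    have : (PP fun a b => pf ε x (i.succAbove a) (i.succAbove b))
        = PP (pf (ε ∘ i.succAbove) (x ∘ i.succAbove)) := rfl
    rw [this]
    simp only [Function.comp]
    ring
  set t : Fin (n + 1) → F := fun j => if j = i then 1 else
    if ε j = true then (x i + x j) / (x i - x j) else 1 with ht
  have h2 : Cf (univ.filter fun j => ε j = true) x i = ∏ b : Fin n, t (i.succAbove b) := by
    have e1 : ∏ j, t j = ∏ b : Fin n, t (i.succAbove b) := by
      rw [Fin.prod_univ_succAbove _ i]
      simp [ht]
    rw [← e1, Cf]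
    have e2 : (univ.filter fun j => ε j = true).erase i
        = univ.filter fun j => j ≠ i ∧ ε j = true := by
      ext j; simp
    rw [e2, prod_filter]
    refine prod_congr rfl fun j _ => ?_
    by_cases hj : j = i
    · simp [ht, hj]
    · by_cases hj2 : ε j = true
      · simp [ht, hj, hj2]
      · simp [ht, hj, hj2]
  have h3 : (∏ b : Fin n, pf ε x i (i.succAbove b)) * ∏ b : Fin n, t (i.succAbove b)
      = (-1) ^ n := by
    rw [← prod_mul_distrib]
    have : ∀ b ∈ (univ : Finset (Fin n)), pf ε x i (i.succAbove b) * t (i.succAbove b) = -1 := by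
      intro b _
      have hne : i.succAbove b ≠ i := Fin.succAbove_ne i b
      have hs1 : x (i.succAbove b) + x i ≠ 0 := hs _ _ hne
      have hs2 : x i - x (i.succAbove b) ≠ 0 := fun h => hne (hx (sub_eq_zero.1 h)).symm
      by_cases hb : ε (i.succAbove b) = true
      · simp only [ht, pf, hi, hb, sg_true, one_mul, if_neg hne, if_true]
        field_simp
        ring
      · have hb' : ε (i.succAbove b) = false := by simpa using hb
        simp only [ht, pf, hi, hb', sg_true, sg_false, one_mul, if_neg hne]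
        simp only [Bool.false_eq_true, if_false, mul_one]
        field_simp
        ring
    rw [prod_congr rfl this, prod_const, card_univ, Fintype.card_fin]
  rw [h1, h2]
  have h4 : (-1 : F) ^ n * (∏ b : Fin n, t (i.succAbove b)) *
      ((-1) ^ (i : ℕ) * (∏ b : Fin n, pf ε x i (i.succAbove b)) *
        lam (ε ∘ i.succAbove) (x ∘ i.succAbove))
      = (-1) ^ n * ((∏ b : Fin n, pf ε x i (i.succAbove b)) * ∏ b : Fin n, t (i.succAbove b)) *
        ((-1) ^ (i : ℕ) * lam (ε ∘ i.succAbove) (x ∘ i.succAbove)) := by ring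
  rw [h4, h3]
  have h5 : (-1 : F) ^ n * (-1) ^ n = 1 := by
    rw [← mul_pow]; simp
  rw [h5, one_mul]

/-- The recursion for `lam`. -/
lemma ss_mul_lam (h2 : (2 : F) ≠ 0) {n : ℕ} (ε : Fin (n + 1) → Bool) (x : Fin (n + 1) → F)
    (hx : Function.Injective x) (hs : ∀ a b, a ≠ b → x a + x b ≠ 0) :
    ss ε x * lam ε x = (-1) ^ n * ∑ i, if ε i = true then
      (-1) ^ (i : ℕ) * x i * lam (ε ∘ i.succAbove) (x ∘ i.succAbove) else 0 := by
  classical
  have h1 : ∀ i, (if ε i = true then
      (-1) ^ (i : ℕ) * x i * lam (ε ∘ i.succAbove) (x ∘ i.succAbove) else 0)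
      = if ε i = true then (-1) ^ n * lam ε x * (x i ^ 1 *
        Cf (univ.filter fun j => ε j = true) x i) else 0 := by
    intro i
    split_ifs with hi
    · have := lam_erase ε x hx hs i hi
      linear_combination x i * this
    · rfl
  rw [sum_congr rfl fun i _ => h1 i, ← sum_filter, ← mul_sum]
  have h3 := TT_one h2 (s := univ.filter fun j => ε j = true) (v := x) (hx.injOn)
  unfold TT at h3
  rw [h3]
  have h5 : (-1 : F) ^ n * (-1) ^ n = 1 := by
    rw [← mul_pow]; simp
  have h6 : ss ε x = ∑ i ∈ univ.filter (fun j => ε j = true), x i := by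
    rw [ss, sum_filter]
  rw [h6]
  linear_combination (-(lam ε x * ∑ i ∈ univ.filter (fun j => ε j = true), x i)) * h5

/-- The sums of the erased products of `Phi` against powers. -/
lemma Phi_erase_sum {n : ℕ} (y : Fin (n + 1) → F)
    (hy : Function.Injective y) (hs : ∀ a b, a ≠ b → y a + y b ≠ 0) (r : ℕ) :
    ∑ i : Fin (n + 1), (-1) ^ (i : ℕ) * y i ^ r * Phi (y ∘ i.succAbove)
      = (-1) ^ n * TT r univ y * Phi y := by
  classical
  unfold TT
  rw [mul_sum, sum_mul]
  refine sum_congr rfl fun i _ => ?_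
  have := lam_erase (fun _ => true) y hy hs i rfl
  have e : (univ.filter fun j : Fin (n + 1) => (fun _ => true) j = true) = univ := by simp
  rw [e] at this
  unfold Phi
  have e2 : ((fun _ => true) ∘ i.succAbove : Fin n → Bool) = fun _ => true := rfl
  rw [e2] at this
  linear_combination y i ^ r * this

end Pool.Agent.H19.HP
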