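import Mathlib
import Pool.Agent.H19.HP.Lam

set_option autoImplicit false

/-!
# The sum of all `lam` vanishes
-/

namespace Pool.Agent.H19.HP

open Finset

variable {F : Type*} [Field F]

lemma sum_eps_prod {n : ℕ} (g : Fin n → Bool → F) :
    ∑ ε : Fin n → Bool, ∏ i, g i (ε i) = ∏ i, (g i true + g i false) := by
  have h := (Finset.prod_univ_sum (t := fun _ : Fin n => (univ : Finset Bool)) (f := g))
  rw [Fintype.piFinset_univ] at h
  rw [← h]
  refine prod_congr rfl fun i _ => ?_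
  simp

lemma sum_lam_num {n : ℕ} (x : Fin (n + 1) → F) :
    ∑ ε : Fin (n + 1) → Bool, (∏ i, sg (F := F) (ε i)) *
      PP (fun a b => sg (ε b) * x b - sg (ε a) * x a) = 0 := by
  have h1 : ∀ ε : Fin (n + 1) → Bool, (∏ i, sg (F := F) (ε i)) *
      PP (fun a b => sg (ε b) * x b - sg (ε a) * x a)
      = ∑ σ : Equiv.Perm (Fin (n + 1)), (Equiv.Perm.sign σ : ℤ) *
        ∏ i, (sg (ε i) * (sg (ε i) * x i) ^ (σ i : ℕ)) := by
    intro ε
    rw [PP_eq_Ioi, ← Matrix.det_vandermonde (fun i => sg (ε i) * x i), ← Matrix.det_transpose,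
      Matrix.det_apply', mul_sum]
    refine sum_congr rfl fun σ _ => ?_
    rw [prod_mul_distrib]
    simp only [Matrix.transpose_apply, Matrix.vandermonde_apply]
    ring
  rw [sum_congr rfl fun ε _ => h1 ε, sum_comm]
  refine sum_eq_zero fun σ _ => ?_
  rw [← mul_sum]
  have h2 := sum_eps_prod (F := F) (n := n + 1)
    (fun i b => sg b * (sg b * x i) ^ (σ i : ℕ))
  rw [h2]
  have h3 : ∏ i, (sg true * (sg true * x i) ^ (σ i : ℕ) + sg (F := F) false *
      (sg false * x i) ^ (σ i : ℕ)) = 0 := by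
    refine prod_eq_zero (mem_univ (σ.symm 0)) ?_
    simp
  rw [h3, mul_zero]

lemma sum_lam {n : ℕ} (x : Fin (n + 1) → F) :
    ∑ ε : Fin (n + 1) → Bool, lam ε x = 0 := by
  have h1 : ∀ ε : Fin (n + 1) → Bool, lam ε x =
      ((∏ i, sg (F := F) (ε i)) * PP (fun a b => sg (ε b) * x b - sg (ε a) * x a)) *
        PP (fun a b => (x b + x a)⁻¹) := by
    intro ε
    rw [lam, mul_assoc, ← PP_mul]
    refine congrArg _ (PP_congr fun a b _ => ?_)
    rw [pf, div_eq_mul_inv]
  rw [sum_congr rfl fun ε _ => h1 ε, ← sum_mul, sum_lam_num, zero_mul]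

end Pool.Agent.H19.HP
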