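import Mathlib
import Pool.Agent.H19.HP.LamSum

set_option autoImplicit false

/-!
# The recursion for `Phi` at arbitrary arguments
-/

namespace Pool.Agent.H19.HP

open Finset

variable {F : Type*} [Field F]

lemma Phi_eq {n : ℕ} (y : Fin n → F) :
    Phi y = PP (fun a b => y b - y a) * PP (fun a b => (y b + y a)⁻¹) := by
  rw [Phi, lam, ← PP_mul]
  simp only [sg_true, prod_const_one, one_mul]
  refine PP_congr fun a b _ => ?_
  rw [pf, div_eq_mul_inv]
  simp

lemma Phi_perm {n : ℕ} (y : Fin n → F) (σ : Equiv.Perm (Fin n)) :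
    Phi (y ∘ σ) = (Equiv.Perm.sign σ : ℤ) * Phi y := by
  have h := PP_perm (pf_anti (fun _ => true) y) σ
  unfold Phi lam
  simp only [sg_true, prod_const_one, one_mul]
  rw [← h]
  rfl

lemma Phi_zero_of_eq {n : ℕ} (y : Fin n → F) {a b : Fin n} (hab : a ≠ b) (h : y a = y b) :
    Phi y = 0 := by
  have key : ∀ a b : Fin n, a < b → y a = y b → Phi y = 0 := by
    intro a b hab h
    unfold Phi lam
    refine mul_eq_zero_of_right _ ?_
    unfold PP
    refine prod_eq_zero (mem_univ a) (prod_eq_zero (mem_univ b) ?_)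
    rw [if_pos hab, pf]
    simp [h]
  rcases lt_or_gt_of_ne hab with h1 | h1
  · exact key a b h1 h
  · exact key b a h1 h.symm

lemma Phi_erase_sum_nonInj {n : ℕ} (y : Fin (n + 1) → F)
    (hs : ∀ a b, a ≠ b → y a + y b ≠ 0) {a b : Fin (n + 1)} (hab : a ≠ b)
    (h : y a = y b) (r : ℕ) :
    ∑ i : Fin (n + 1), (-1) ^ (i : ℕ) * y i ^ r * Phi (y ∘ i.succAbove) = 0 := by
  classical
  set D : F := PP (fun a b => y b + y a) with hD
  have hD0 : D ≠ 0 := PP_ne_zero fun a b hab => hs _ _ hab.ne'
  set φ : Fin (n + 1) → F := fun i => y i ^ r * ∏ l : Fin n, (y (i.succAbove l) + y i) with hφ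
  have h1 : ∀ i : Fin (n + 1), Phi (y ∘ i.succAbove) * D
      = (∏ l : Fin n, (y (i.succAbove l) + y i)) *
        (Matrix.vandermonde (y ∘ i.succAbove)).det := by
    intro i
    have e1 : D = (∏ l : Fin n, (y (i.succAbove l) + y i)) *
        PP (fun a b => y (i.succAbove b) + y (i.succAbove a)) :=
      PP_succAbove_symm (fun a b => add_comm _ _) i
    have e2 : PP (fun a b : Fin n => (y (i.succAbove b) + y (i.succAbove a))⁻¹) *
        PP (fun a b => y (i.succAbove b) + y (i.succAbove a)) = 1 := by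
      rw [← PP_mul]
      have : ∀ a b : Fin n, a < b → (y (i.succAbove b) + y (i.succAbove a))⁻¹ *
          (y (i.succAbove b) + y (i.succAbove a)) = (1 : F) := fun a b hab =>
        inv_mul_cancel₀ (hs _ _ (fun h => hab.ne' (Fin.succAbove_right_injective h)))
      rw [PP_congr this]
      simp [PP]
    rw [Phi_eq, e1, Matrix.det_vandermonde, ← PP_eq_Ioi (fun a b => (y ∘ i.succAbove) b -
      (y ∘ i.succAbove) a)]
    simp only [Function.comp]
    linear_combination (PP (fun a b => y (i.succAbove b) - y (i.succAbove a)) *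
      ∏ l : Fin n, (y (i.succAbove l) + y i)) * e2
  have h2 : (∑ i : Fin (n + 1), (-1) ^ (i : ℕ) * y i ^ r * Phi (y ∘ i.succAbove)) * D
      = ∑ i : Fin (n + 1), (-1) ^ (i : ℕ) * φ i * (Matrix.vandermonde (y ∘ i.succAbove)).det := by
    rw [sum_mul]
    refine sum_congr rfl fun i _ => ?_
    rw [mul_assoc, h1 i]
    simp only [hφ]
    ring
  have hφab : φ a = φ b := by
    have hya : y a + y a ≠ 0 := by
      have := hs a b hab
      rwa [← h] at this
    have e1 : ∀ i, (∏ l, (y l + y i)) = (y i + y i) * ∏ l : Fin n, (y (i.succAbove l) + y i) :=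
      fun i => Fin.prod_univ_succAbove _ i
    have e2 := e1 a
    have e3 := e1 b
    rw [← h] at e3
    rw [e2] at e3
    have e4 := mul_left_cancel₀ hya e3
    calc φ a = y a ^ r * ∏ l : Fin n, (y (a.succAbove l) + y a) := rfl
      _ = y a ^ r * ∏ l : Fin n, (y (b.succAbove l) + y a) := by rw [e4]
      _ = φ b := by simp only [hφ, h]
  set M : Matrix (Fin (n + 1)) (Fin (n + 1)) F :=
    Matrix.of fun i j => Fin.lastCases (motive := fun _ => F) (φ i) (fun j' : Fin n => y i ^ (j' : ℕ)) j with hM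
  have h3 : M.det = 0 := by
    refine Matrix.det_zero_of_row_eq hab ?_
    ext j
    refine Fin.lastCases ?_ (fun j' => ?_) j
    · simp [hM, hφab]
    · simp [hM, h]
  have h4 := Matrix.det_succ_column M (Fin.last n)
  rw [h3] at h4
  have h5 : ∀ i : Fin (n + 1), (M.submatrix i.succAbove (Fin.last n).succAbove).det
      = (Matrix.vandermonde (y ∘ i.succAbove)).det := by
    intro i
    congr 1
    ext k l
    simp [hM, Matrix.vandermonde_apply]
  have h6 : ∀ i : Fin (n + 1), M i (Fin.last n) = φ i := by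
    intro i; simp [hM]
  simp only [h5, h6, Fin.val_last] at h4
  have h7 : (∑ i : Fin (n + 1), (-1) ^ (i : ℕ) * y i ^ r * Phi (y ∘ i.succAbove)) * D = 0 := by
    rw [h2]
    have h8 : (-1 : F) ^ n * ∑ i : Fin (n + 1), (-1) ^ (i : ℕ) * φ i *
        (Matrix.vandermonde (y ∘ i.succAbove)).det = 0 := by
      rw [h4, mul_sum]
      refine sum_congr rfl fun i _ => ?_
      rw [pow_add]
      ring
    have h9 : (-1 : F) ^ n ≠ 0 := pow_ne_zero _ (by simp)
    exact (mul_eq_zero.1 h8).resolve_left h9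
  exact (mul_eq_zero.1 h7).resolve_right hD0

/-- The recursion for `Phi`, valid for all arguments with nonzero pair sums. -/
lemma Phi_rec (h2 : (2 : F) ≠ 0) {n : ℕ} (y : Fin (n + 1) → F)
    (hs : ∀ a b, a ≠ b → y a + y b ≠ 0) :
    (∑ i, y i) * Phi y = (-1) ^ n *
      ∑ i : Fin (n + 1), (-1) ^ (i : ℕ) * y i * Phi (y ∘ i.succAbove) := by
  classical
  by_cases hy : Function.Injective y
  · have h := Phi_erase_sum y hy hs 1
    simp only [pow_one] at h
    rw [h, TT_one h2 hy.injOn]
    have h5 : (-1 : F) ^ n * (-1) ^ n = 1 := by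
      rw [← mul_pow]; simp
    linear_combination (-((∑ i, y i) * Phi y)) * h5
  · rw [Function.Injective] at hy
    push Not at hy
    obtain ⟨a, b, hab, hne⟩ := hy
    have h := Phi_erase_sum_nonInj y hs hne hab 1
    simp only [pow_one] at h
    rw [h, Phi_zero_of_eq y hne hab]
    simp

end Pool.Agent.H19.HP
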