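import Mathlib
import Pool.Agent.H19.HP.NonInj

set_option autoImplicit false

/-!
# The expansion of signed sums of powers
-/

namespace Pool.Agent.H19.HP

open Finset

variable {F : Type*} [Field F]

/-- `x^{b-1}/b!`, and zero for `b = 0`. -/
def gg (x : F) (b : ℕ) : F := if b = 0 then 0 else x ^ (b - 1) * ((b.factorial : F))⁻¹

/-- Abbreviation for the set of tuples with given sum. -/
abbrev AT (n N : ℕ) : Finset (Fin n → ℕ) := Finset.Nat.antidiagonalTuple n N

/-- The coefficient sum. -/
def Rr (n N : ℕ) (x : Fin n → F) : F :=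
  ∑ β ∈ AT n N, Phi (fun i => (β i : F)) * ∏ i, gg (x i) (β i)

lemma sum_AT {n N : ℕ} (i : Fin (n + 1)) (G : (Fin (n + 1) → ℕ) → F) :
    ∑ β ∈ AT (n + 1) N, G β =
      ∑ q ∈ antidiagonal N, ∑ β' ∈ AT n q.2, G (i.insertNth (α := fun _ => ℕ) q.1 β') := by
  rw [Finset.sum_sigma']
  refine Finset.sum_bij' (fun β _ => ⟨(β i, ∑ l, β (i.succAbove l)), fun l => β (i.succAbove l)⟩)
    (fun s _ => i.insertNth (α := fun _ => ℕ) s.1.1 s.2) ?_ ?_ ?_ ?_ ?_
  · intro β hβ
    rw [Finset.Nat.mem_antidiagonalTuple, Fin.sum_univ_succAbove _ i] at hβ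
    simp only [mem_sigma, Finset.HasAntidiagonal.mem_antidiagonal, Finset.Nat.mem_antidiagonalTuple]
    exact ⟨hβ, trivial⟩
  · intro s hs
    simp only [mem_sigma, Finset.HasAntidiagonal.mem_antidiagonal, Finset.Nat.mem_antidiagonalTuple] at hs
    rw [Finset.Nat.mem_antidiagonalTuple, Fin.sum_univ_succAbove _ i]
    simp only [Fin.insertNth_apply_same, Fin.insertNth_apply_succAbove]
    rw [hs.2, hs.1]
  · intro β _
    have := Fin.insertNth_self_removeNth i β
    exact this
  · intro s hs
    simp only [mem_sigma, Finset.HasAntidiagonal.mem_antidiagonal, Finset.Nat.mem_antidiagonalTuple] at hs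
    obtain ⟨⟨b, m⟩, β'⟩ := s
    simp only at hs
    simp only [Fin.insertNth_apply_same, Fin.insertNth_apply_succAbove]
    obtain ⟨h1, h2⟩ := hs
    subst h2
    rfl
  · intro β _
    have := Fin.insertNth_self_removeNth i β
    exact congrArg G this.symm

lemma sum_eps {n : ℕ} (i : Fin (n + 1)) (G : (Fin (n + 1) → Bool) → F) :
    ∑ ε : Fin (n + 1) → Bool, (if ε i = true then G ε else 0) =
      ∑ ε' : Fin n → Bool, G (i.insertNth (α := fun _ => Bool) true ε') := by
  rw [← (Fin.insertNthEquiv (fun _ => Bool) i).sum_comp, Fintype.sum_prod_type]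
  simp [Fin.insertNthEquiv]

lemma ss_insert {n : ℕ} (i : Fin (n + 1)) (x : Fin (n + 1) → F) (ε' : Fin n → Bool) :
    ss (i.insertNth (α := fun _ => Bool) true ε') x = x i + ss ε' (x ∘ i.succAbove) := by
  unfold ss
  rw [Fin.sum_univ_succAbove _ i]
  simp

lemma natCast_sum_AT {n N : ℕ} {β : Fin n → ℕ} (hβ : β ∈ AT n N) :
    ∑ i, (β i : F) = (N : F) := by
  rw [Finset.Nat.mem_antidiagonalTuple] at hβ
  rw [← hβ]; push_cast; rfl

/-- The recursion for `Rr`. -/
lemma Rr_rec (h2 : (2 : F) ≠ 0) {n M : ℕ} (hN : ∀ m : ℕ, 0 < m → m ≤ M + 1 → (m : F) ≠ 0)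
    (x : Fin (n + 1) → F) :
    ((M + 1 : ℕ) : F) * Rr (n + 1) (M + 1) x = (-1) ^ n * ∑ i : Fin (n + 1), (-1) ^ (i : ℕ) *
      ∑ q ∈ antidiagonal M, x i ^ q.1 * ((q.1.factorial : F))⁻¹ * Rr n q.2 (x ∘ i.succAbove) := by
  have h1 : ∀ β ∈ AT (n + 1) (M + 1), ((M + 1 : ℕ) : F) * (Phi (fun i => (β i : F)) *
      ∏ i, gg (x i) (β i)) = (-1) ^ n * ∑ i : Fin (n + 1), (-1) ^ (i : ℕ) *
      ((β i : F) * gg (x i) (β i) * (Phi (fun l => (β (i.succAbove l) : F)) *
        ∏ l : Fin n, gg (x (i.succAbove l)) (β (i.succAbove l)))) := by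
    intro β hβ
    by_cases h0 : ∃ i, β i = 0
    · obtain ⟨i₀, hi₀⟩ := h0
      have e1 : ∏ i, gg (x i) (β i) = 0 := prod_eq_zero (mem_univ i₀) (by simp [gg, hi₀])
      have e2 : ∀ i : Fin (n + 1), gg (x i) (β i) *
          ∏ l : Fin n, gg (x (i.succAbove l)) (β (i.succAbove l)) = 0 := by
        intro i
        rw [← Fin.prod_univ_succAbove (fun i => gg (x i) (β i)) i, e1]
      rw [e1, mul_zero, mul_zero]
      symm
      refine mul_eq_zero_of_right _ (sum_eq_zero fun i _ => ?_)
      linear_combination ((-1) ^ (i : ℕ) * (β i : F) * Phi (fun l => (β (i.succAbove l) : F))) * e2 i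
    · push Not at h0
      have hs : ∀ a b : Fin (n + 1), a ≠ b → ((β a : F)) + (β b : F) ≠ 0 := by
        intro a b hab
        have e1 : β a + β b ≤ M + 1 := by
          rw [Finset.Nat.mem_antidiagonalTuple] at hβ
          rw [← hβ]
          have : ({a, b} : Finset (Fin (n + 1))).sum β ≤ ∑ i, β i :=
            sum_le_sum_of_subset (subset_univ _)
          rwa [sum_pair hab] at this
        have e2 : 0 < β a + β b := by
          have := Nat.pos_of_ne_zero (h0 a)
          omega
        have := hN _ e2 e1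
        push_cast at this
        exact this
      have h3 := Phi_rec h2 (fun i => (β i : F)) hs
      rw [natCast_sum_AT hβ] at h3
      rw [← mul_assoc, h3, mul_assoc, sum_mul]
      refine congrArg _ (sum_congr rfl fun i _ => ?_)
      rw [Fin.prod_univ_succAbove (fun i => gg (x i) (β i)) i]
      simp only [Function.comp_def]
      ring
  rw [Rr, mul_sum, sum_congr rfl h1, ← mul_sum, sum_comm]
  refine congrArg _ (sum_congr rfl fun i _ => ?_)
  rw [← mul_sum]
  refine congrArg _ ?_
  rw [sum_AT i]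
  simp only [Fin.insertNth_apply_same, Fin.insertNth_apply_succAbove]
  rw [Finset.Nat.antidiagonal_succ, sum_cons, sum_map]
  have e0 : ∑ β' ∈ AT n (M + 1), (((0 : ℕ) : F) * gg (x i) 0 * (Phi (fun l => (β' l : F)) *
      ∏ l : Fin n, gg (x (i.succAbove l)) (β' l))) = 0 := by
    refine sum_eq_zero fun β' _ => ?_
    simp
  rw [e0, zero_add]
  refine sum_congr rfl fun q hq => ?_
  rw [Finset.HasAntidiagonal.mem_antidiagonal] at hq
  rw [Rr, mul_sum]
  refine sum_congr rfl fun β' _ => ?_
  have e1 : (((q.1 + 1 : ℕ) : F)) * gg (x i) (q.1 + 1) = x i ^ q.1 * ((q.1.factorial : F))⁻¹ := by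
    have h4 : ((q.1 + 1 : ℕ) : F) ≠ 0 := hN _ (by omega) (by omega)
    rw [gg, if_neg (by omega), Nat.factorial_succ]
    push_cast at h4 ⊢
    rw [mul_inv]
    field_simp
  simp only [Function.Embedding.prodMap, Function.Embedding.coeFn_mk, Prod.map,
    Function.Embedding.refl_apply, Function.comp_apply]
  rw [← e1]

/-- The signed sums of powers have the explicit expansion `Rr`. -/
theorem star (h2 : (2 : F) ≠ 0) : ∀ (n N : ℕ) (x : Fin n → F),
    (∀ m : ℕ, 0 < m → m ≤ N → (m : F) ≠ 0) → Function.Injective x →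
    (∀ a b, a ≠ b → x a + x b ≠ 0) → (∀ i, x i ≠ 0) →
    (N.factorial : F) * (∏ i, x i) * Rr n N x = ∑ ε : Fin n → Bool, lam ε x * ss ε x ^ N := by
  intro n
  induction n with
  | zero =>
    intro N x _ _ _ _
    rcases N with _ | N
    · simp [Rr, Phi, lam, PP]
    · simp [Rr, ss]
  | succ n ih =>
    intro N x hN hx hs h0
    rcases N with _ | M
    · have e1 : Rr (n + 1) 0 x = 0 := by
        rw [Rr, AT, Finset.Nat.antidiagonalTuple_zero_right, sum_singleton]
        refine mul_eq_zero_of_right _ (prod_eq_zero (mem_univ 0) ?_)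
        simp [gg]
      rw [e1, mul_zero]
      simp only [pow_zero, mul_one]
      rw [sum_lam]
    · have e1 : ∑ ε : Fin (n + 1) → Bool, lam ε x * ss ε x ^ (M + 1) =
          (-1) ^ n * ∑ i : Fin (n + 1), (-1) ^ (i : ℕ) * x i *
            ∑ ε' : Fin n → Bool, lam ε' (x ∘ i.succAbove) *
              (x i + ss ε' (x ∘ i.succAbove)) ^ M := by
        have e2 : ∀ ε : Fin (n + 1) → Bool, lam ε x * ss ε x ^ (M + 1) =
            (-1) ^ n * ∑ i : Fin (n + 1), (-1) ^ (i : ℕ) * x i * (if ε i = true then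
              lam (ε ∘ i.succAbove) (x ∘ i.succAbove) * ss ε x ^ M else 0) := by
          intro ε
          have e3 := ss_mul_lam h2 ε x hx hs
          have e4 : lam ε x * ss ε x ^ (M + 1) = (ss ε x * lam ε x) * ss ε x ^ M := by ring
          rw [e4, e3, mul_assoc, sum_mul]
          refine congrArg _ (sum_congr rfl fun i _ => ?_)
          split_ifs <;> ring
        rw [sum_congr rfl fun ε _ => e2 ε, ← mul_sum, sum_comm]
        refine congrArg _ (sum_congr rfl fun i _ => ?_)
        rw [← mul_sum, sum_eps i (fun ε => lam (ε ∘ i.succAbove) (x ∘ i.succAbove) * ss ε x ^ M)]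
        refine congrArg _ (sum_congr rfl fun ε' _ => ?_)
        rw [ss_insert, Fin.insertNth_comp_succAbove]
      rw [e1]
      have e5 := Rr_rec h2 (n := n) (M := M) hN x
      have e6 : ((M + 1).factorial : F) * (∏ i, x i) * Rr (n + 1) (M + 1) x =
          (M.factorial : F) * (∏ i, x i) * (((M + 1 : ℕ) : F) * Rr (n + 1) (M + 1) x) := by
        rw [Nat.factorial_succ]; push_cast; ring
      rw [e6, e5]
      have e7 : (M.factorial : F) * (∏ i, x i) * ((-1) ^ n * ∑ i : Fin (n + 1), (-1) ^ (i : ℕ) *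
          ∑ q ∈ antidiagonal M, x i ^ q.1 * ((q.1.factorial : F))⁻¹ *
            Rr n q.2 (x ∘ i.succAbove)) =
          (-1) ^ n * ∑ i : Fin (n + 1), (M.factorial : F) * (∏ i, x i) * ((-1) ^ (i : ℕ) *
          ∑ q ∈ antidiagonal M, x i ^ q.1 * ((q.1.factorial : F))⁻¹ *
            Rr n q.2 (x ∘ i.succAbove)) := by
        rw [← mul_sum]; ring
      rw [e7]
      refine congrArg _ (sum_congr rfl fun i _ => ?_)
      have e8 : ∑ ε' : Fin n → Bool, lam ε' (x ∘ i.succAbove) *
          (x i + ss ε' (x ∘ i.succAbove)) ^ M =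
          ∑ q ∈ antidiagonal M, (M.choose q.1 : F) * x i ^ q.1 *
            ∑ ε' : Fin n → Bool, lam ε' (x ∘ i.succAbove) * ss ε' (x ∘ i.succAbove) ^ q.2 := by
        have e9 : ∀ ε' : Fin n → Bool, lam ε' (x ∘ i.succAbove) *
            (x i + ss ε' (x ∘ i.succAbove)) ^ M = ∑ q ∈ antidiagonal M,
            (M.choose q.1 : F) * x i ^ q.1 * (lam ε' (x ∘ i.succAbove) *
              ss ε' (x ∘ i.succAbove) ^ q.2) := by
          intro ε'
          rw [(Commute.all _ _).add_pow', mul_sum]
          refine sum_congr rfl fun q _ => ?_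
          rw [nsmul_eq_mul]; ring
        rw [sum_congr rfl fun ε' _ => e9 ε', sum_comm]
        refine sum_congr rfl fun q _ => ?_
        rw [mul_sum]
      rw [e8, mul_sum, mul_sum, mul_sum]
      refine sum_congr rfl fun q hq => ?_
      rw [Finset.HasAntidiagonal.mem_antidiagonal] at hq
      have e10 := ih q.2 (x ∘ i.succAbove) (fun m hm hm2 => hN m hm (by omega))
        (hx.comp Fin.succAbove_right_injective)
        (fun a b hab => hs _ _ (fun h => hab (Fin.succAbove_right_injective h)))
        (fun l => h0 _)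
      rw [← e10, Fin.prod_univ_succAbove x i]
      have e11 : (M.factorial : F) = (M.choose q.1 : F) * (q.1.factorial : F) *
          (q.2.factorial : F) := by
        rw [← hq, ← Nat.cast_mul, ← Nat.cast_mul]
        congr 1
        rw [← Nat.choose_mul_factorial_mul_factorial (Nat.le_add_right q.1 q.2)]
        congr 2
        omega
      have e12 : (q.1.factorial : F) ≠ 0 := by
        have : ∀ k : ℕ, k ≤ M → ((k.factorial : ℕ) : F) ≠ 0 := by
          intro k
          induction k with
          | zero => intro _; simp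
          | succ k ihk =>
            intro hk
            rw [Nat.factorial_succ]
            push_cast
            have := hN (k + 1) (by omega) (by omega)
            push_cast at this
            exact mul_ne_zero this (ihk (by omega))
        exact this _ (by omega)
      rw [e11]
      simp only [Function.comp_apply]
      field_simp

end Pool.Agent.H19.HP
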