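import Mathlib
import Pool.Agent.H8.Ham
import Pool.Agent.H19.HP.Star

set_option autoImplicit false

/-!
# The weighted identities satisfied by weak zero-[1,t]-sum-free sets modulo a prime
-/

namespace Pool.Agent.H19.HP

open Finset Pool.Agent.H8.Ham

lemma Rr_perm {F : Type*} [Field F] {n N : ℕ} (x : Fin n → F) (σ : Equiv.Perm (Fin n)) :
    Rr n N (x ∘ σ) = (Equiv.Perm.sign σ : ℤ) * Rr n N x := by
  unfold Rr
  rw [mul_sum]
  refine Finset.sum_bij' (fun β _ => β ∘ σ.symm) (fun β _ => β ∘ σ) ?_ ?_ ?_ ?_ ?_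
  · intro β hβ
    rw [Finset.Nat.mem_antidiagonalTuple] at hβ ⊢
    rw [← hβ]
    exact Equiv.sum_comp σ.symm β
  · intro β hβ
    rw [Finset.Nat.mem_antidiagonalTuple] at hβ ⊢
    rw [← hβ]
    exact Equiv.sum_comp σ β
  · intro β _
    ext i; simp
  · intro β _
    ext i; simp
  · intro β _
    have h1 : Phi (fun i => (β i : F)) = (Equiv.Perm.sign σ : ℤ) *
        Phi (fun i => ((β ∘ σ.symm) i : F)) := by
      have := Phi_perm (fun i => ((β ∘ σ.symm) i : F)) σ
      rw [← this]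
      congr 1
      ext i
      simp
    have h2 : ∏ i, gg ((x ∘ σ) i) (β i) = ∏ i, gg (x i) ((β ∘ σ.symm) i) := by
      rw [← Equiv.prod_comp σ (fun i => gg (x i) ((β ∘ σ.symm) i))]
      simp
    rw [h1, h2, mul_assoc]

variable {p : ℕ} [hp : Fact p.Prime]

/-- The function `E₀`. -/
noncomputable def E0 (p n : ℕ) [Fact p.Prime] (x0 : ZMod p) (x : Fin n → ZMod p) : ZMod p :=
  ∑ q ∈ antidiagonal (p - 1), x0 ^ q.1 * ((q.1.factorial : ZMod p))⁻¹ * Rr n q.2 x

lemma natCast_ne_zero_of_lt {m : ℕ} (h0 : 0 < m) (h1 : m < p) : (m : ZMod p) ≠ 0 := by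
  intro h
  rw [ZMod.natCast_eq_zero_iff] at h
  exact absurd (Nat.le_of_dvd h0 h) (not_le.2 h1)

lemma factorial_ne_zero {m : ℕ} (h1 : m < p) : (m.factorial : ZMod p) ≠ 0 := by
  intro h
  rw [ZMod.natCast_eq_zero_iff, hp.out.dvd_factorial] at h
  omega

lemma two_ne_zero' (h2 : 2 < p) : (2 : ZMod p) ≠ 0 := by
  have := natCast_ne_zero_of_lt (p := p) (m := 2) (by norm_num) h2
  exact_mod_cast this

/-- Sum of a selection. -/
lemma sel_sum {n t : ℕ} {A : Finset (ZMod p)} (hA : WeakZeroSumFree p t A) (hn : n + 1 ≤ t)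
    (x0 : ZMod p) (x : Fin n → ZMod p) (h0 : x0 ∈ A) (hx : ∀ i, x i ∈ A)
    (hinj : Function.Injective x) (hne : ∀ i, x i ≠ x0) (ε : Fin n → Bool) :
    x0 + ss ε x ≠ 0 := by
  classical
  set I : Finset (Fin n) := univ.filter fun i => ε i = true with hI
  set B : Finset (ZMod p) := insert x0 (I.image x) with hB
  have h1 : x0 ∉ I.image x := by
    intro h
    obtain ⟨i, _, hi⟩ := mem_image.1 h
    exact hne i hi
  have h2 : ∑ z ∈ B, z = x0 + ss ε x := by
    rw [hB, sum_insert h1, sum_image (fun a _ b _ h => hinj h), ss, sum_filter]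
  rw [← h2]
  refine hA B ?_ ?_ ?_
  · intro z hz
    rcases mem_insert.1 hz with rfl | hz
    · exact h0
    · obtain ⟨i, _, rfl⟩ := mem_image.1 hz
      exact hx i
  · rw [hB, card_insert_of_notMem h1]; omega
  · rw [hB, card_insert_of_notMem h1, card_image_of_injective _ hinj]
    have : I.card ≤ n := by
      calc I.card ≤ (univ : Finset (Fin n)).card := card_le_card (filter_subset _ _)
        _ = n := by simp
    omega

/-- `E₀` vanishes at injective tuples of elements of a weak zero-sum-free set. -/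
lemma E0_eq_zero {n t : ℕ} {A : Finset (ZMod p)} (h2p : 2 < p) (hA : WeakZeroSumFree p t A)
    (hn : n + 2 ≤ t)
    (x0 : ZMod p) (x : Fin (n + 1) → ZMod p) (h0 : x0 ∈ A) (hx : ∀ i, x i ∈ A)
    (hinj : Function.Injective x) (hne : ∀ i, x i ≠ x0) :
    E0 p (n + 1) x0 x = 0 := by
  have hp1 : 1 ≤ p := hp.out.one_lt.le
  have hs : ∀ a b, a ≠ b → x a + x b ≠ 0 := by
    intro a b hab
    have h := hA {x a, x b} (by
      intro z hz
      rcases mem_insert.1 hz with rfl | hz
      · exact hx a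
      · rw [mem_singleton.1 hz]; exact hx b)
      (by rw [card_pair (fun h => hab (hinj h))]; norm_num)
      (by rw [card_pair (fun h => hab (hinj h))]; omega)
    rwa [sum_pair (fun h => hab (hinj h))] at h
  have hx0 : ∀ i, x i ≠ 0 := by
    intro i
    have h := hA {x i} (by simpa using hx i) (by simp) (by simp; omega)
    simpa using h
  have key : ((p - 1).factorial : ZMod p) * (∏ i, x i) * E0 p (n + 1) x0 x
      = ∑ ε : Fin (n + 1) → Bool, lam ε x * (x0 + ss ε x) ^ (p - 1) := by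
    rw [E0, mul_sum]
    have e1 : ∀ ε : Fin (n + 1) → Bool, lam ε x * (x0 + ss ε x) ^ (p - 1)
        = ∑ q ∈ antidiagonal (p - 1), ((p - 1).choose q.1 : ZMod p) * x0 ^ q.1 *
          (lam ε x * ss ε x ^ q.2) := by
      intro ε
      rw [(Commute.all _ _).add_pow', mul_sum]
      refine sum_congr rfl fun q _ => ?_
      rw [nsmul_eq_mul]; ring
    rw [sum_congr rfl fun ε _ => e1 ε, sum_comm]
    refine sum_congr rfl fun q hq => ?_
    rw [Finset.HasAntidiagonal.mem_antidiagonal] at hq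
    rw [← mul_sum]
    rw [← star (two_ne_zero' h2p) (n + 1) q.2 x
      (fun m hm hm2 => natCast_ne_zero_of_lt hm (by omega)) hinj hs hx0]
    have e11 : ((p - 1).factorial : ZMod p) = ((p - 1).choose q.1 : ZMod p) *
        (q.1.factorial : ZMod p) * (q.2.factorial : ZMod p) := by
      rw [← hq, ← Nat.cast_mul, ← Nat.cast_mul]
      congr 1
      rw [← Nat.choose_mul_factorial_mul_factorial (Nat.le_add_right q.1 q.2)]
      congr 2
      omega
    have e12 : (q.1.factorial : ZMod p) ≠ 0 := factorial_ne_zero (by omega)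
    rw [e11]
    field_simp
  have e2 : ∀ ε : Fin (n + 1) → Bool, lam ε x * (x0 + ss ε x) ^ (p - 1) = lam ε x := by
    intro ε
    rw [ZMod.pow_card_sub_one_eq_one (sel_sum hA (by omega) x0 x h0 hx hinj hne ε), mul_one]
  rw [sum_congr rfl fun ε _ => e2 ε, sum_lam] at key
  have e3 : ((p - 1).factorial : ZMod p) ≠ 0 := factorial_ne_zero (by omega)
  have e4 : (∏ i, x i) ≠ 0 := prod_ne_zero_iff.2 fun i _ => hx0 i
  exact (mul_eq_zero.1 key).resolve_left (mul_ne_zero e3 e4)

/-- The weight `1/f'(a)`. -/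
noncomputable def Wt (A : Finset (ZMod p)) (a : ZMod p) : ZMod p := (∏ b ∈ A.erase a, (a - b))⁻¹

/-- The weighted power sums. -/
noncomputable def HH (A : Finset (ZMod p)) (m : ℕ) : ZMod p := ∑ a ∈ A, Wt A a * a ^ m

/-- One term of the identity. -/
noncomputable def term (A : Finset (ZMod p)) {n : ℕ} (w : Fin (n + 2) → ℕ) (j : Fin (n + 2))
    (q : ℕ × ℕ) (β : Fin (n + 1) → ℕ) : ZMod p :=
  ((q.1.factorial : ZMod p))⁻¹ * HH A (q.1 + 2 + w j) * (Phi (fun i => (β i : ZMod p)) *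
    ∏ l, if β l = 0 then 0 else ((β l).factorial : ZMod p)⁻¹ * HH A (β l - 1 + w (j.succAbove l)))

lemma term_eq (A : Finset (ZMod p)) {n : ℕ} (w : Fin (n + 2) → ℕ) (j : Fin (n + 2))
    (q : ℕ × ℕ) (β : Fin (n + 1) → ℕ) :
    term A w j q β = ∑ x0 ∈ A, ∑ x ∈ Fintype.piFinset (fun _ : Fin (n + 1) => A),
      Wt A x0 * (∏ l, Wt A (x l)) * x0 ^ 2 * (x0 ^ q.1 * ((q.1.factorial : ZMod p))⁻¹ *
        (Phi (fun i => (β i : ZMod p)) * ∏ i, gg (x i) (β i))) *
        (x0 ^ w j * ∏ l, x l ^ w (j.succAbove l)) := by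
  have h1 : ∏ l, (if β l = 0 then 0 else ((β l).factorial : ZMod p)⁻¹ *
      HH A (β l - 1 + w (j.succAbove l))) =
      ∑ x ∈ Fintype.piFinset (fun _ : Fin (n + 1) => A),
        ∏ l, (Wt A (x l) * gg (x l) (β l) * x l ^ w (j.succAbove l)) := by
    rw [← Finset.prod_univ_sum (t := fun _ : Fin (n + 1) => A)
      (f := fun l a => Wt A a * gg a (β l) * a ^ w (j.succAbove l))]
    refine prod_congr rfl fun l _ => ?_
    by_cases h : β l = 0
    · simp [gg, h]
    · rw [if_neg h, HH, mul_sum]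
      refine sum_congr rfl fun a _ => ?_
      rw [gg, if_neg h, pow_add]
      ring
  rw [term, h1, HH, mul_sum, sum_mul]
  refine sum_congr rfl fun x0 _ => ?_
  rw [mul_sum, mul_sum]
  refine sum_congr rfl fun x _ => ?_
  rw [prod_mul_distrib, prod_mul_distrib, pow_add, pow_add]
  ring

lemma sum_piFinset_perm {n : ℕ} (A : Finset (ZMod p)) (σ : Equiv.Perm (Fin n))
    (G : (Fin n → ZMod p) → ZMod p) :
    ∑ x ∈ Fintype.piFinset (fun _ : Fin n => A), G (x ∘ σ) =
      ∑ x ∈ Fintype.piFinset (fun _ : Fin n => A), G x := by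
  refine Finset.sum_bij' (fun x _ => x ∘ σ) (fun x _ => x ∘ σ.symm) ?_ ?_ ?_ ?_ ?_
  · intro x hx
    rw [Fintype.mem_piFinset] at hx ⊢
    exact fun i => hx _
  · intro x hx
    rw [Fintype.mem_piFinset] at hx ⊢
    exact fun i => hx _
  · intro x _
    ext i; simp
  · intro x _
    ext i; simp
  · intro x _; rfl

/-- The main identity. -/
theorem main_identity {n t : ℕ} {A : Finset (ZMod p)} (h2p : 2 < p)
    (hA : WeakZeroSumFree p t A) (hn : n + 2 ≤ t) (hnp : n + 1 < p) (w : Fin (n + 2) → ℕ) :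
    ∑ j : Fin (n + 2), (-1) ^ (j : ℕ) * ∑ q ∈ antidiagonal (p - 1), ∑ β ∈ AT (n + 1) q.2,
      term A w j q β = 0 := by
  classical
  -- the antisymmetric part
  set U : ZMod p → (Fin (n + 1) → ZMod p) → ZMod p := fun x0 x =>
    Wt A x0 * (∏ l, Wt A (x l)) * x0 ^ 2 * E0 p (n + 1) x0 x with hU
  have hUperm : ∀ x0 x (σ : Equiv.Perm (Fin (n + 1))),
      U x0 (x ∘ σ) = (Equiv.Perm.sign σ : ℤ) * U x0 x := by
    intro x0 x σ
    simp only [hU, E0]
    have e1 : ∏ l, Wt A ((x ∘ σ) l) = ∏ l, Wt A (x l) := Equiv.prod_comp σ (fun l => Wt A (x l))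
    rw [e1]
    simp only [Rr_perm]
    rw [mul_sum, mul_sum, mul_sum]
    refine sum_congr rfl fun q _ => ?_
    ring
  set τ : ZMod p → (Fin (n + 1) → ZMod p) → ZMod p := fun x0 x =>
    ∑ j : Fin (n + 2), (-1) ^ (j : ℕ) * (x0 ^ w j * ∏ l, x l ^ w (j.succAbove l)) with hτ
  have h1 : ∑ j : Fin (n + 2), (-1) ^ (j : ℕ) * ∑ q ∈ antidiagonal (p - 1),
      ∑ β ∈ AT (n + 1) q.2, term A w j q β =
      ∑ x0 ∈ A, ∑ x ∈ Fintype.piFinset (fun _ : Fin (n + 1) => A), U x0 x * τ x0 x := by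
    have e1 : ∀ x0 x, U x0 x * τ x0 x = ∑ j : Fin (n + 2), (-1) ^ (j : ℕ) *
        ∑ q ∈ antidiagonal (p - 1), ∑ β ∈ AT (n + 1) q.2,
        (Wt A x0 * (∏ l, Wt A (x l)) * x0 ^ 2 * (x0 ^ q.1 * ((q.1.factorial : ZMod p))⁻¹ *
        (Phi (fun i => (β i : ZMod p)) * ∏ i, gg (x i) (β i))) *
        (x0 ^ w j * ∏ l, x l ^ w (j.succAbove l))) := by
      intro x0 x
      simp only [hU, hτ, E0, Rr]
      rw [mul_sum]
      refine sum_congr rfl fun j _ => ?_
      rw [mul_sum, sum_mul, mul_sum]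
      refine sum_congr rfl fun q _ => ?_
      rw [mul_sum, mul_sum, sum_mul, mul_sum]
      refine sum_congr rfl fun β _ => ?_
      ring
    simp only [e1]
    rw [sum_congr rfl fun x0 _ => sum_comm, sum_comm]
    refine sum_congr rfl fun j _ => ?_
    simp only [← mul_sum]
    refine congrArg _ ?_
    rw [sum_congr rfl fun x0 _ => sum_comm, sum_comm]
    refine sum_congr rfl fun q _ => ?_
    rw [sum_congr rfl fun x0 _ => sum_comm, sum_comm]
    refine sum_congr rfl fun β _ => ?_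
    rw [term_eq]
  rw [h1]
  -- multiply by the number of permutations
  have h2 : ∀ x0 ∈ A, ((n + 1).factorial : ZMod p) *
      ∑ x ∈ Fintype.piFinset (fun _ : Fin (n + 1) => A), U x0 x * τ x0 x = 0 := by
    intro x0 hx0
    have e1 : ((n + 1).factorial : ZMod p) *
        ∑ x ∈ Fintype.piFinset (fun _ : Fin (n + 1) => A), U x0 x * τ x0 x =
        ∑ σ : Equiv.Perm (Fin (n + 1)), ∑ x ∈ Fintype.piFinset (fun _ : Fin (n + 1) => A),
          U x0 (x ∘ σ) * τ x0 (x ∘ σ) := by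
      rw [sum_congr rfl fun σ _ => sum_piFinset_perm A σ (fun x => U x0 x * τ x0 x)]
      rw [sum_const, card_univ, Fintype.card_perm, Fintype.card_fin, nsmul_eq_mul]
    rw [e1, sum_comm]
    refine sum_eq_zero fun x hx => ?_
    rw [Fintype.mem_piFinset] at hx
    have e2 : ∑ σ : Equiv.Perm (Fin (n + 1)), U x0 (x ∘ σ) * τ x0 (x ∘ σ) =
        U x0 x * ∑ σ : Equiv.Perm (Fin (n + 1)), (Equiv.Perm.sign σ : ℤ) * τ x0 (x ∘ σ) := by
      rw [mul_sum]
      refine sum_congr rfl fun σ _ => ?_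
      rw [hUperm]; ring
    rw [e2]
    set M : Matrix (Fin (n + 2)) (Fin (n + 2)) (ZMod p) :=
      Matrix.of fun k l => (Fin.cons x0 x : Fin (n + 2) → ZMod p) k ^ w l with hM
    have e3 : ∑ σ : Equiv.Perm (Fin (n + 1)), (Equiv.Perm.sign σ : ℤ) * τ x0 (x ∘ σ) = M.det := by
      rw [Matrix.det_succ_row_zero]
      simp only [hτ, mul_sum]
      rw [sum_comm]
      refine sum_congr rfl fun j _ => ?_
      rw [Matrix.det_apply', mul_sum]
      refine sum_congr rfl fun σ _ => ?_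
      simp only [hM, Matrix.submatrix_apply, Matrix.of_apply, Fin.cons_zero, Fin.cons_succ,
        Function.comp_apply]
      ring
    rw [e3]
    by_cases hinj : Function.Injective (Fin.cons x0 x : Fin (n + 2) → ZMod p)
    · rw [Fin.cons_injective_iff] at hinj
      have e4 : E0 p (n + 1) x0 x = 0 := by
        refine E0_eq_zero h2p hA hn x0 x hx0 hx hinj.2 fun i hi => hinj.1 ⟨i, hi⟩
      simp only [hU, e4]
      ring
    · rw [Function.Injective] at hinj
      push Not at hinj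
      obtain ⟨a, b, hab, hne⟩ := hinj
      have e5 : M.det = 0 := by
        refine Matrix.det_zero_of_row_eq hne ?_
        ext l
        simp only [hM, Matrix.of_apply, hab]
      rw [e5, mul_zero]
  have h3 : ((n + 1).factorial : ZMod p) ≠ 0 := factorial_ne_zero hnp
  refine sum_eq_zero fun x0 hx0 => ?_
  exact (mul_eq_zero.1 (h2 x0 hx0)).resolve_left h3

end Pool.Agent.H19.HP
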