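import Mathlib
import Pool.Agent.H19.HP.Ident

set_option autoImplicit false

/-!
# The identities in symmetric form
-/

namespace Pool.Agent.H19.HP

open Finset Pool.Agent.H8.Ham

variable {p : ℕ} [hp : Fact p.Prime]

/-- The coefficients of the symmetric identities. -/
noncomputable def Kf (p : ℕ) [Fact p.Prime] {n : ℕ} (γ : Fin (n + 1) → ℕ) : ZMod p :=
  ∑ j : Fin (n + 1), (-1) ^ (j : ℕ) * ((if 3 ≤ γ j then (((γ j - 3).factorial : ZMod p))⁻¹ else 0) *
    (Phi (fun i => (γ (j.succAbove i) : ZMod p)) *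
    ∏ l, if γ (j.succAbove l) = 0 then 0 else ((γ (j.succAbove l)).factorial : ZMod p)⁻¹))

lemma sum_antidiagonal_three (M : ℕ) (G : ℕ → ℕ → ZMod p) :
    ∑ q ∈ antidiagonal (M + 3), (if 3 ≤ q.1 then G (q.1 - 3) q.2 else 0) =
      ∑ q ∈ antidiagonal M, G q.1 q.2 := by
  rw [Finset.Nat.antidiagonal_succ, sum_cons, sum_map, Finset.Nat.antidiagonal_succ, sum_cons,
    sum_map, Finset.Nat.antidiagonal_succ, sum_cons, sum_map]
  simp

theorem identity_two {n t : ℕ} {A : Finset (ZMod p)} (h2p : 2 < p)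
    (hA : WeakZeroSumFree p t A) (hn : n + 2 ≤ t) (hnp : n + 1 < p) (w : Fin (n + 2) → ℕ) :
    ∑ γ ∈ AT (n + 2) (p + 2), Kf p γ * ∏ l, HH A (γ l + w l - 1) = 0 := by
  rw [← main_identity h2p hA hn hnp w]
  unfold Kf
  simp only [sum_mul]
  rw [sum_comm]
  refine sum_congr rfl fun j _ => ?_
  rw [sum_AT j]
  have hp2 : p + 2 = (p - 1) + 3 := by omega
  rw [hp2, mul_sum]
  rw [← sum_antidiagonal_three (p := p) (p - 1) (fun a b => (-1) ^ (j : ℕ) *
    ∑ β ∈ AT (n + 1) b, term A w j (a, b) β)]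
  refine sum_congr rfl fun q _ => ?_
  split_ifs with h3
  · rw [mul_sum]
    refine sum_congr rfl fun β _ => ?_
    rw [Fin.prod_univ_succAbove _ j]
    simp only [Fin.insertNth_apply_same, Fin.insertNth_apply_succAbove, if_pos h3, term]
    have e1 : q.1 + w j - 1 = q.1 - 3 + 2 + w j := by omega
    rw [e1]
    have e2 : ∏ l, (if β l = 0 then (0 : ZMod p) else ((β l).factorial : ZMod p)⁻¹ *
        HH A (β l - 1 + w (j.succAbove l))) =
        (∏ l, if β l = 0 then (0 : ZMod p) else ((β l).factorial : ZMod p)⁻¹) *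
        ∏ l, HH A (β l + w (j.succAbove l) - 1) := by
      rw [← prod_mul_distrib]
      refine prod_congr rfl fun l _ => ?_
      split_ifs with h
      · simp
      · have : β l - 1 + w (j.succAbove l) = β l + w (j.succAbove l) - 1 := by omega
        rw [this]
    rw [e2]
    ring
  · refine sum_eq_zero fun β _ => ?_
    simp [h3]

lemma HH_zero {A : Finset (ZMod p)} {m : ℕ} (hm : m + 1 < A.card) : HH A m = 0 := by
  have h := Lagrange.coeff_eq_sum (s := A) (v := id) (F := ZMod p) Function.injective_id.injOn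
    (P := Polynomial.X ^ m) (by
      rw [Polynomial.degree_X_pow]
      exact_mod_cast (by omega : m < A.card))
  rw [Polynomial.coeff_X_pow, if_neg (by omega)] at h
  rw [HH, h]
  refine sum_congr rfl fun a _ => ?_
  simp [Wt, div_eq_mul_inv, mul_comm]

lemma HH_one {A : Finset (ZMod p)} {m : ℕ} (hm : m + 1 = A.card) : HH A m = 1 := by
  have h := Lagrange.coeff_eq_sum (s := A) (v := id) (F := ZMod p) Function.injective_id.injOn
    (P := Polynomial.X ^ m) (by
      rw [Polynomial.degree_X_pow]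
      exact_mod_cast (by omega : m < A.card))
  rw [Polynomial.coeff_X_pow, if_pos (by omega)] at h
  rw [HH, h]
  refine sum_congr rfl fun a _ => ?_
  simp [Wt, div_eq_mul_inv, mul_comm]

lemma Kf_eq {n : ℕ} (γ : Fin (n + 1) → ℕ) (h2p : 2 < p) (h1 : ∀ l, γ l ≠ 0) (hlt : ∀ l, γ l < p)
    (hs : ∀ a b, a ≠ b → ((γ a : ZMod p)) + (γ b : ZMod p) ≠ 0)
    (hsum : ∑ l, γ l = p + 2) :
    3 * Kf p γ * ∏ l, ((γ l).factorial : ZMod p) =
      (-1) ^ n * Phi (fun i => (γ i : ZMod p)) * (∑ l, (γ l : ZMod p) ^ 3 - 8) := by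
  classical
  have e0 : ∀ l, ((γ l).factorial : ZMod p) ≠ 0 := fun l => factorial_ne_zero (hlt l)
  set y : Fin (n + 1) → ZMod p := fun i => (γ i : ZMod p) with hy
  have e1 : Kf p γ * ∏ l, ((γ l).factorial : ZMod p) =
      ∑ j : Fin (n + 1), (-1) ^ (j : ℕ) * (y j * (y j - 1) * (y j - 2)) *
        Phi (y ∘ j.succAbove) := by
    unfold Kf
    rw [sum_mul]
    refine sum_congr rfl fun j _ => ?_
    rw [Fin.prod_univ_succAbove _ j]
    have e2 : (∏ l, if γ (j.succAbove l) = 0 then (0 : ZMod p) else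
        ((γ (j.succAbove l)).factorial : ZMod p)⁻¹) *
        ∏ l, ((γ (j.succAbove l)).factorial : ZMod p) = 1 := by
      rw [← prod_mul_distrib]
      refine prod_eq_one fun l _ => ?_
      rw [if_neg (h1 _), inv_mul_cancel₀ (e0 _)]
    have e3 : (if 3 ≤ γ j then (((γ j - 3).factorial : ZMod p))⁻¹ else 0) *
        ((γ j).factorial : ZMod p) = y j * (y j - 1) * (y j - 2) := by
      split_ifs with h3
      · obtain ⟨k, hk⟩ := Nat.exists_eq_add_of_le h3
        have e4 : γ j - 3 = k := by omega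
        have e5 : γ j = k + 3 := by omega
        have e6 : (k.factorial : ZMod p) ≠ 0 := factorial_ne_zero (by have := hlt j; omega)
        simp only [hy]
        rw [e4, e5, Nat.factorial_succ, Nat.factorial_succ, Nat.factorial_succ]
        push_cast
        field_simp
        ring
      · have h4 : γ j = 1 ∨ γ j = 2 := by
          have := h1 j; omega
        simp only [hy]
        rcases h4 with h4 | h4 <;> rw [h4] <;> push_cast <;> ring
    have e7 : Phi (fun i => (γ (j.succAbove i) : ZMod p)) = Phi (y ∘ j.succAbove) := rfl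
    rw [e7]
    calc (-1) ^ (j : ℕ) * ((if 3 ≤ γ j then (((γ j - 3).factorial : ZMod p))⁻¹ else 0) *
        (Phi (y ∘ j.succAbove) * ∏ l, if γ (j.succAbove l) = 0 then (0 : ZMod p) else
        ((γ (j.succAbove l)).factorial : ZMod p)⁻¹)) * (((γ j).factorial : ZMod p) *
        ∏ l, ((γ (j.succAbove l)).factorial : ZMod p)) =
        (-1) ^ (j : ℕ) * ((if 3 ≤ γ j then (((γ j - 3).factorial : ZMod p))⁻¹ else 0) *
        ((γ j).factorial : ZMod p)) * Phi (y ∘ j.succAbove) *
        ((∏ l, if γ (j.succAbove l) = 0 then (0 : ZMod p) else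
        ((γ (j.succAbove l)).factorial : ZMod p)⁻¹) *
        ∏ l, ((γ (j.succAbove l)).factorial : ZMod p)) := by ring
      _ = _ := by rw [e2, e3]; ring
  have e8 : ∑ j : Fin (n + 1), (-1) ^ (j : ℕ) * (y j * (y j - 1) * (y j - 2)) *
        Phi (y ∘ j.succAbove) =
      (∑ j : Fin (n + 1), (-1) ^ (j : ℕ) * y j ^ 3 * Phi (y ∘ j.succAbove)) -
      3 * (∑ j : Fin (n + 1), (-1) ^ (j : ℕ) * y j ^ 2 * Phi (y ∘ j.succAbove)) +
      2 * (∑ j : Fin (n + 1), (-1) ^ (j : ℕ) * y j ^ 1 * Phi (y ∘ j.succAbove)) := by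
    rw [mul_sum, mul_sum, ← sum_sub_distrib, ← sum_add_distrib]
    refine sum_congr rfl fun j _ => ?_
    ring
  rw [mul_assoc, e1, e8]
  by_cases hinj : Function.Injective y
  · have h20 := two_ne_zero' (p := p) h2p
    rw [Phi_erase_sum y hinj hs 3, Phi_erase_sum y hinj hs 2, Phi_erase_sum y hinj hs 1,
      TT_one h20 hinj.injOn, TT_two h20 hinj.injOn]
    have e9 := TT_three h20 (s := univ) (v := y) hinj.injOn
    have e10 : ∑ i, y i = 2 := by
      have : ((∑ l, γ l : ℕ) : ZMod p) = ((p + 2 : ℕ) : ZMod p) := by rw [hsum]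
      push_cast at this
      simpa [hy] using this
    rw [e10] at e9 ⊢
    linear_combination ((-1) ^ n * Phi y) * e9
  · rw [Function.Injective] at hinj
    push Not at hinj
    obtain ⟨a, b, hab, hne⟩ := hinj
    rw [Phi_erase_sum_nonInj y hs hne hab, Phi_erase_sum_nonInj y hs hne hab,
      Phi_erase_sum_nonInj y hs hne hab, Phi_zero_of_eq y hne hab]
    ring

end Pool.Agent.H19.HP
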