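import Mathlib
import Pool.Agent.H19.HP.Ident2

set_option autoImplicit false

/-!
# Extraction of single terms from the identities
-/

namespace Pool.Agent.H19.HP

open Finset Pool.Agent.H8.Ham

variable {p : ℕ} [hp : Fact p.Prime]

lemma prod_HH_ne_zero {A : Finset (ZMod p)} (hA2 : 2 ≤ A.card) {n : ℕ} {β γ : Fin n → ℕ}
    (hβ1 : ∀ l, 1 ≤ β l) (hβ2 : ∀ l, β l ≤ A.card)
    (h : ∏ l, HH A (γ l + (A.card - β l) - 1) ≠ 0) (l : Fin n) : β l ≤ γ l := by
  by_contra hlt
  push Not at hlt
  refine h (prod_eq_zero (mem_univ l) (HH_zero ?_))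
  have h1 := hβ1 l
  have h2 := hβ2 l
  omega

theorem D_zero {n t : ℕ} {A : Finset (ZMod p)} (h2p : 2 < p)
    (hA : WeakZeroSumFree p t A) (hA2 : 2 ≤ A.card) (hn : n + 2 ≤ t) (hnp : n + 1 < p)
    (β : Fin (n + 2) → ℕ)
    (hβ1 : ∀ l, 1 ≤ β l) (hβ2 : ∀ l, β l ≤ A.card) (hsum : ∑ l, β l = p + 2) :
    Kf p β = 0 := by
  classical
  have h := identity_two h2p hA hn hnp (fun l => A.card - β l)
  rw [Finset.sum_eq_single β] at h
  · have e1 : ∏ l, HH A (β l + (A.card - β l) - 1) = 1 := by
      refine prod_eq_one fun l _ => HH_one ?_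
      have h1 := hβ1 l
      have h2 := hβ2 l
      omega
    rwa [e1, mul_one] at h
  · intro γ hγ hne
    rw [Finset.Nat.mem_antidiagonalTuple] at hγ
    by_contra h0
    have h1 := fun l => prod_HH_ne_zero hA2 hβ1 hβ2 (right_ne_zero_of_mul h0) l
    apply hne
    have h2 : ∑ l, β l = ∑ l, γ l := by rw [hsum, hγ]
    have h3 := (Finset.sum_eq_sum_iff_of_le (fun l _ => h1 l)).1 h2
    ext l
    exact (h3 l (mem_univ l)).symm
  · intro hnot
    exact absurd (by rw [Finset.Nat.mem_antidiagonalTuple]; exact hsum) hnot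

theorem D_odd {n t D : ℕ} {A : Finset (ZMod p)} (h2p : 2 < p)
    (hA : WeakZeroSumFree p t A) (hA2 : 2 ≤ A.card) (hn : n + 2 ≤ t) (hnp : n + 1 < p)
    (β : Fin (n + 2) → ℕ)
    (hβ1 : ∀ l, 1 ≤ β l) (hβ2 : ∀ l, β l ≤ A.card) (hD : Odd D)
    (hodd : ∀ k, k < D → Odd k → HH A (A.card - 1 + k) = 0)
    (hsum : ∑ l, β l + D = p + 2) :
    HH A (A.card - 1 + D) * ∑ m, Kf p (Function.update β m (β m + D)) = 0 := by
  classical
  have hDpos : 0 < D := hD.pos
  have h := identity_two h2p hA hn hnp (fun l => A.card - β l)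
  set T : Finset (Fin (n + 2) → ℕ) := univ.image fun m => Function.update β m (β m + D) with hT
  have hinj : Set.InjOn (fun m => Function.update β m (β m + D))
      ((univ : Finset (Fin (n + 2))) : Set (Fin (n + 2))) := by
    intro a _ b _ hab
    by_contra hne
    have := congrFun hab a
    simp only [Function.update_self, Function.update_of_ne hne] at this
    omega
  have hsub : T ⊆ AT (n + 2) (p + 2) := by
    intro γ hγ
    obtain ⟨m, _, rfl⟩ := mem_image.1 hγ
    rw [Finset.Nat.mem_antidiagonalTuple]
    have e1 : ∑ l, Function.update β m (β m + D) l = ∑ l, (β l + if l = m then D else 0) := by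
      refine sum_congr rfl fun l _ => ?_
      by_cases hl : l = m
      · subst hl; simp
      · simp [hl]
    rw [e1, sum_add_distrib]
    simpa using hsum
  rw [← Finset.sum_subset hsub] at h
  · rw [hT, sum_image hinj] at h
    rw [mul_comm, sum_mul, ← h]
    refine sum_congr rfl fun m _ => ?_
    congr 1
    have e2 : ∀ l, HH A (Function.update β m (β m + D) l + (A.card - β l) - 1) =
        if l = m then HH A (A.card - 1 + D) else 1 := by
      intro l
      have h1 := hβ1 l
      have h2 := hβ2 l
      by_cases hl : l = m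
      · subst hl
        rw [if_pos rfl, Function.update_self]
        congr 1
        omega
      · rw [if_neg hl, Function.update_of_ne hl]
        refine HH_one ?_
        omega
    rw [prod_congr rfl fun l _ => e2 l]
    simp
  · intro γ hγ hnot
    rw [Finset.Nat.mem_antidiagonalTuple] at hγ
    by_contra h0
    have hprod := right_ne_zero_of_mul h0
    have h1 := fun l => prod_HH_ne_zero hA2 hβ1 hβ2 hprod l
    -- the raises
    have hsumr : ∑ l, (γ l - β l) = D := by
      have : ∑ l, (γ l - β l) + ∑ l, β l = ∑ l, γ l := by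
        rw [← sum_add_distrib]
        exact sum_congr rfl fun l _ => Nat.sub_add_cancel (h1 l)
      omega
    have hr : ∀ l, Odd (γ l - β l) → D ≤ γ l - β l := by
      intro l hl
      by_contra hlt
      push Not at hlt
      refine hprod (prod_eq_zero (mem_univ l) ?_)
      have h2 := hodd _ hlt hl
      have h3 := hβ1 l
      have h4 := hβ2 l
      have h5 := h1 l
      have e : γ l + (A.card - β l) - 1 = A.card - 1 + (γ l - β l) := by omega
      rw [e]
      exact h2
    obtain ⟨m, hm⟩ : ∃ m, Odd (γ m - β m) := by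
      by_contra hcon
      push Not at hcon
      have : Even (∑ l, (γ l - β l)) := by
        refine Finset.even_sum _ fun l _ => ?_
        exact Nat.not_odd_iff_even.1 (hcon l)
      rw [hsumr] at this
      exact (Nat.not_even_iff_odd.2 hD) this
    have hmD := hr m hm
    have hsplit := Finset.add_sum_erase (univ : Finset (Fin (n + 2))) (fun l => γ l - β l)
      (mem_univ m)
    rw [hsumr] at hsplit
    have hzero : ∑ l ∈ univ.erase m, (γ l - β l) = 0 := by omega
    have hmeq : γ m - β m = D := by omega
    rw [Finset.sum_eq_zero_iff] at hzero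
    apply hnot
    rw [hT, mem_image]
    refine ⟨m, mem_univ m, ?_⟩
    ext l
    by_cases hl : l = m
    · subst hl
      rw [Function.update_self]
      have := h1 l
      omega
    · rw [Function.update_of_ne hl]
      have h6 := hzero l (mem_erase.2 ⟨hl, mem_univ l⟩)
      have h7 := h1 l
      omega

end Pool.Agent.H19.HP
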