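import Mathlib
import Pool.Agent.H19.HP.DLem

set_option autoImplicit false

/-!
# The bound for prime moduli
-/

namespace Pool.Agent.H19.HP

open Finset Pool.Agent.H8.Ham

variable {p : ℕ} [hp : Fact p.Prime]

lemma zero_notMem {t : ℕ} {A : Finset (ZMod p)} (hA : WeakZeroSumFree p t A) (ht : 1 ≤ t) :
    (0 : ZMod p) ∉ A := by
  intro h
  have := hA {0} (by simpa using h) (by simp) (by simpa using ht)
  simp at this

lemma neg_notMem {t : ℕ} {A : Finset (ZMod p)} (h2p : 2 < p) (hA : WeakZeroSumFree p t A)
    (ht : 2 ≤ t) {a : ZMod p} (ha : a ∈ A) : -a ∉ A := by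
  intro h
  have h0 : a ≠ 0 := fun h0 => zero_notMem hA (by omega) (h0 ▸ ha)
  have hne : a ≠ -a := by
    intro h1
    have h2 : (2 : ZMod p) * a = 0 := by linear_combination h1
    exact (mul_ne_zero (two_ne_zero' h2p) h0) h2
  have := hA {a, -a} (by
    intro z hz
    rcases mem_insert.1 hz with rfl | hz
    · exact ha
    · rw [mem_singleton.1 hz]; exact h)
    (by rw [card_pair hne]; norm_num) (by rw [card_pair hne]; exact ht)
  rw [sum_pair hne] at this
  simp at this

lemma two_mul_card_lt {t : ℕ} {A : Finset (ZMod p)} (h2p : 2 < p)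
    (hA : WeakZeroSumFree p t A) (ht : 2 ≤ t) : 2 * A.card < p := by
  classical
  have hdis : Disjoint A (A.image fun a => -a) := by
    rw [disjoint_left]
    intro a ha hb
    obtain ⟨b, hb', rfl⟩ := mem_image.1 hb
    exact neg_notMem h2p hA ht hb' ha
  have h1 : (A ∪ A.image fun a => -a).card = 2 * A.card := by
    rw [card_union_of_disjoint hdis, card_image_of_injective _ neg_injective]
    ring
  have h0 : (0 : ZMod p) ∉ (A ∪ A.image fun a => -a) := by
    intro h
    rcases mem_union.1 h with h | h
    · exact zero_notMem hA (by omega) h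
    · obtain ⟨b, hb, hb0⟩ := mem_image.1 h
      have : b = 0 := by simpa using hb0
      exact zero_notMem hA (by omega) (this ▸ hb)
  have h2 : (insert (0 : ZMod p) (A ∪ A.image fun a => -a)).card ≤ (univ : Finset (ZMod p)).card :=
    card_le_card (subset_univ _)
  rw [card_insert_of_notMem h0, h1, card_univ, ZMod.card] at h2
  omega

lemma Phi_ne_zero {n : ℕ} {y : Fin n → ZMod p} (hinj : Function.Injective y)
    (hs : ∀ a b, a ≠ b → y a + y b ≠ 0) : Phi y ≠ 0 := by
  unfold Phi lam
  simp only [sg_true, prod_const_one, one_mul]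
  refine PP_ne_zero fun a b hab => ?_
  rw [pf]
  simp only [sg_true, one_mul]
  exact div_ne_zero (sub_ne_zero.2 fun h => hab.ne' (hinj h)) (hs _ _ hab.ne')

/-- The cube identity. -/
lemma cube_sum {n t : ℕ} {A : Finset (ZMod p)} (h2p : 2 < p)
    (hA : WeakZeroSumFree p t A) (hn : n + 2 ≤ t) (β : Fin (n + 2) → ℕ)
    (hinj : Function.Injective β) (hβ1 : ∀ l, 1 ≤ β l) (hβ2 : ∀ l, β l ≤ A.card)
    (hsum : ∑ l, β l = p + 2) :
    ∑ l, (β l : ZMod p) ^ 3 = 8 := by
  have h2A := two_mul_card_lt h2p hA (by omega)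
  have hcard : n + 2 ≤ A.card := by
    have h1 : (univ.image β).card = n + 2 := by
      rw [card_image_of_injective _ hinj]; simp
    have h2 : univ.image β ⊆ Finset.Icc 1 A.card := by
      intro z hz
      obtain ⟨l, _, rfl⟩ := mem_image.1 hz
      exact mem_Icc.2 ⟨hβ1 l, hβ2 l⟩
    have h3 := card_le_card h2
    rw [h1, Nat.card_Icc] at h3
    omega
  have h0 := D_zero h2p hA (by omega) hn (by omega) β hβ1 hβ2 hsum
  have hs : ∀ a b, a ≠ b → ((β a : ZMod p)) + (β b : ZMod p) ≠ 0 := by
    intro a b _
    have h1 := hβ1 a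
    have h2 := hβ2 a
    have h3 := hβ2 b
    have := natCast_ne_zero_of_lt (p := p) (m := β a + β b) (by omega) (by omega)
    push_cast at this
    exact this
  have h1 := Kf_eq β h2p (fun l => by have := hβ1 l; omega)
    (fun l => by have := hβ2 l; omega) hs hsum
  rw [h0, mul_zero, zero_mul] at h1
  have hinj' : Function.Injective (fun i => (β i : ZMod p)) := by
    intro a b hab
    simp only at hab
    rw [ZMod.natCast_eq_natCast_iff'] at hab
    have h2 := hβ2 a
    have h3 := hβ2 b
    rw [Nat.mod_eq_of_lt (by omega), Nat.mod_eq_of_lt (by omega)] at hab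
    exact hinj hab
  have h2 := Phi_ne_zero hinj' hs
  have h3 : (-1 : ZMod p) ^ (n + 1) ≠ 0 := pow_ne_zero _ (by simp)
  have h4 := (mul_eq_zero.1 h1.symm).resolve_left (mul_ne_zero h3 h2)
  linear_combination h4

lemma two_triples {m t d : ℕ} {A : Finset (ZMod p)} (h2p : 3 < p)
    (hA : WeakZeroSumFree p t A) (hm : m + 3 ≤ t) (hd : A.card = d) (x y z : ℕ)
    (hx : 1 ≤ x) (hxy : x < y) (hyz : y < z) (hz : z + m ≤ d)
    (hsum : x + y + z + ∑ i ∈ range m, (d - i) = p + 2) :
    (x : ZMod p) ^ 3 + (y : ZMod p) ^ 3 + (z : ZMod p) ^ 3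
      + ∑ i ∈ range m, ((d - i : ℕ) : ZMod p) ^ 3 = 8 := by
  set β : Fin (m + 3) → ℕ := Fin.cons x (Fin.cons y (Fin.cons z (fun i : Fin m => d - i))) with hβ
  have h := cube_sum (n := m + 1) (by omega) hA (by omega) β ?_ ?_ ?_ ?_
  · rw [Fin.sum_univ_succ, Fin.sum_univ_succ, Fin.sum_univ_succ] at h
    simp only [hβ, Fin.cons_zero, Fin.cons_succ] at h
    rw [Fin.sum_univ_eq_sum_range (fun i => ((d - i : ℕ) : ZMod p) ^ 3) m] at h
    rw [← h]; ring
  · rw [hβ, Fin.cons_injective_iff, Fin.cons_injective_iff, Fin.cons_injective_iff]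
    refine ⟨?_, ?_, ?_, ?_⟩
    · rintro ⟨i, hi⟩
      refine Fin.cases (fun hi => ?_) (fun i hi => ?_) i hi
      · simp at hi; omega
      · refine Fin.cases (fun hi => ?_) (fun i hi => ?_) i hi
        · simp at hi; omega
        · simp only [Fin.cons_succ] at hi
          have := i.isLt
          omega
    · rintro ⟨i, hi⟩
      refine Fin.cases (fun hi => ?_) (fun i hi => ?_) i hi
      · simp at hi; omega
      · simp only [Fin.cons_succ] at hi
        have := i.isLt
        omega
    · rintro ⟨i, hi⟩
      simp only at hi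
      have := i.isLt
      omega
    · intro a b hab
      simp only at hab
      have := a.isLt
      have := b.isLt
      ext
      omega
  · intro l
    refine Fin.cases ?_ (fun l => ?_) l
    · simpa [hβ] using hx
    · refine Fin.cases ?_ (fun l => ?_) l
      · simp only [hβ, Fin.cons_succ, Fin.cons_zero]; omega
      · refine Fin.cases ?_ (fun l => ?_) l
        · simp only [hβ, Fin.cons_succ, Fin.cons_zero]; omega
        · simp only [hβ, Fin.cons_succ]
          have := l.isLt
          omega
  · intro l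
    rw [hd]
    refine Fin.cases ?_ (fun l => ?_) l
    · simp only [hβ, Fin.cons_succ, Fin.cons_zero]; omega
    · refine Fin.cases ?_ (fun l => ?_) l
      · simp only [hβ, Fin.cons_succ, Fin.cons_zero]; omega
      · refine Fin.cases ?_ (fun l => ?_) l
        · simp only [hβ, Fin.cons_succ, Fin.cons_zero]; omega
        · simp only [hβ, Fin.cons_succ]
          omega
  · rw [Fin.sum_univ_succ, Fin.sum_univ_succ, Fin.sum_univ_succ]
    simp only [hβ, Fin.cons_zero, Fin.cons_succ]
    rw [Fin.sum_univ_eq_sum_range (fun i => (d - i : ℕ)) m]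
    omega

/-- Shifting two entries towards each other changes the cube sum. -/
lemma cube_shift {a c : ℕ} (h3 : 3 < p) (h1 : a + (a + 1 + c) < p) (h2 : 0 < c) :
    (a : ZMod p) ^ 3 + ((a + 1 + c : ℕ) : ZMod p) ^ 3 ≠
      ((a + 1 : ℕ) : ZMod p) ^ 3 + ((a + c : ℕ) : ZMod p) ^ 3 := by
  intro h
  have e1 : (3 : ZMod p) * ((a + (a + 1 + c) : ℕ) : ZMod p) * (c : ZMod p) = 0 := by
    push_cast at h ⊢
    linear_combination h
  have e2 : (3 : ZMod p) ≠ 0 := by
    have := natCast_ne_zero_of_lt (p := p) (m := 3) (by norm_num) h3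
    exact_mod_cast this
  exact (mul_ne_zero (mul_ne_zero e2 (natCast_ne_zero_of_lt (by omega) h1))
    (natCast_ne_zero_of_lt h2 (by omega))) e1

/-- Contradiction from a suitable number `m + 3` of summands. -/
lemma no_set_aux {m t d L u : ℕ} {A : Finset (ZMod p)} (h2p : 3 < p)
    (hA : WeakZeroSumFree p t A) (hm : m + 3 ≤ t) (hd : A.card = d) (hL : L + 2 + m = d)
    (hL3 : 3 ≤ L) (hu1 : 2 ≤ u) (hu2 : u ≤ L + 1)
    (hsum : 3 * L + 3 + ∑ i ∈ range m, (d - i) = p + 2 + u) : False := by
  have h2A : 2 * A.card < p := two_mul_card_lt (by omega) hA (by omega)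
  rw [hd] at h2A
  set S : ℕ := ∑ i ∈ range m, (d - i) with hS
  rcases Nat.lt_or_ge u L with h | h
  · have e1 := two_triples h2p hA hm hd (L - u) (L + 1) (L + 2) (by omega) (by omega) (by omega)
      (by omega) (by omega)
    have e2 := two_triples h2p hA hm hd (L - u + 1) L (L + 2) (by omega) (by omega) (by omega)
      (by omega) (by omega)
    refine cube_shift (p := p) (a := L - u) (c := u) h2p (by omega) (by omega) ?_
    have r1 : L - u + 1 + u = L + 1 := by omega
    have r2 : L - u + u = L := by omega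
    rw [r1, r2]
    linear_combination e1 - e2
  · rcases Nat.eq_or_lt_of_le h with h | h
    · have e1 := two_triples h2p hA hm hd 1 L (L + 2) (by omega) (by omega) (by omega)
        (by omega) (by omega)
      have e2 := two_triples h2p hA hm hd 2 L (L + 1) (by omega) (by omega) (by omega)
        (by omega) (by omega)
      refine cube_shift (p := p) (a := 1) (c := L) h2p (by omega) (by omega) ?_
      have r1 : 1 + 1 + L = L + 2 := by omega
      have r2 : 1 + L = L + 1 := by omega
      rw [r1, r2]
      linear_combination e1 - e2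
    · have e1 := two_triples h2p hA hm hd 1 (L - 1) (L + 2) (by omega) (by omega) (by omega)
        (by omega) (by omega)
      have e2 := two_triples h2p hA hm hd 1 L (L + 1) (by omega) (by omega) (by omega)
        (by omega) (by omega)
      refine cube_shift (p := p) (a := L - 1) (c := 2) h2p (by omega) (by omega) ?_
      have r1 : L - 1 + 1 + 2 = L + 2 := by omega
      have r2 : L - 1 + 2 = L + 1 := by omega
      have r3 : L - 1 + 1 = L := by omega
      rw [r1, r2, r3]
      linear_combination e1 - e2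

end Pool.Agent.H19.HP
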