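import Mathlib
import Pool.Agent.H19.HP.Bound

set_option autoImplicit false

/-!
# The bound and the case `t ≥ 5`
-/

namespace Pool.Agent.H19.HP

open Finset Pool.Agent.H8.Ham

variable {p : ℕ} [hp : Fact p.Prime]

/-- The sum of the `s` largest elements of `{1, …, d}`. -/
def Sg (d s : ℕ) : ℕ := ∑ i ∈ range s, (d - i)

lemma Sg_succ (d s : ℕ) : Sg d (s + 1) = Sg d s + (d - s) := by
  rw [Sg, sum_range_succ]; rfl

lemma Sg_mono (d : ℕ) {a b : ℕ} (h : a ≤ b) : Sg d a ≤ Sg d b :=
  sum_le_sum_of_subset (range_mono h)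

lemma two_mul_Sg (d s : ℕ) (h : s ≤ d) : 2 * Sg d s + s * s = s * (2 * d + 1) := by
  induction s with
  | zero => simp [Sg]
  | succ s ih =>
    have := ih (by omega)
    rw [Sg_succ]
    obtain ⟨k, hk⟩ := Nat.exists_eq_add_of_le (show s + 1 ≤ d from h)
    have e : d - s = k + 1 := by omega
    rw [e]
    subst hk
    nlinarith

theorem no_set {t d : ℕ} {A : Finset (ZMod p)} (h2p : 3 < p)
    (hA : WeakZeroSumFree p t A) (hd : A.card = d) (ht : 2 ≤ t) (hS : p + 4 ≤ Sg d t)
    (hc : ∀ s, s ≤ t → p + 4 ≤ Sg d s → Sg d (s - 1) ≤ p + 3 → s + 2 ≤ d) : False := by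
  classical
  have h2A : 2 * A.card < p := two_mul_card_lt (by omega) hA ht
  rw [hd] at h2A
  have hex : ∃ s, p + 4 ≤ Sg d s := ⟨t, hS⟩
  set s := Nat.find hex with hs
  have h1 : p + 4 ≤ Sg d s := Nat.find_spec hex
  have h2 : s ≤ t := Nat.find_min' hex hS
  have h3 : 3 ≤ s := by
    by_contra hlt
    push Not at hlt
    have h4 : Sg d s ≤ Sg d 2 := Sg_mono d (by omega)
    have h5 : Sg d 2 = d + (d - 1) := by
      simp [Sg, sum_range_succ]
    omega
  have h6 : ¬ (p + 4 ≤ Sg d (s - 1)) := Nat.find_min hex (by omega)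
  have h7 := hc s h2 h1 (by omega)
  obtain ⟨m, hm⟩ := Nat.exists_eq_add_of_le h3
  have hm' : s = m + 3 := by omega
  have h8 : Sg d (m + 3) = 3 * (d - m - 2) + 3 + ∑ i ∈ range m, (d - i) := by
    rw [Sg_succ, Sg_succ, Sg_succ]
    unfold Sg
    omega
  have h9 : Sg d (s - 1) + (d - (s - 1)) = Sg d s := by
    have := Sg_succ d (s - 1)
    rw [show s - 1 + 1 = s by omega] at this
    omega
  rw [hm'] at h1 h6 h7 h9
  refine no_set_aux (p := p) (m := m) (t := t) (d := d) (L := d - m - 2)
    (u := Sg d (m + 3) - (p + 2)) h2p hA (by omega) hd (by omega) (by omega) (by omega) ?_ ?_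
  · have : m + 3 - 1 = m + 2 := by omega
    rw [this] at h6 h9
    omega
  · omega

/-- The bound for prime moduli. -/
theorem prime_bound {t : ℕ} {A : Finset (ZMod p)} (ht : 3 ≤ t)
    (hA : WeakZeroSumFree p t A) (hd : t + 2 ≤ A.card) :
    2 * (t * A.card) ≤ 2 * (p + 3) + t * (t - 1) := by
  by_cases h2p : 3 < p
  · by_contra hcon
    push Not at hcon
    refine no_set (d := A.card) h2p hA rfl (by omega) ?_ fun s hs _ _ => by omega
    have h1 := two_mul_Sg A.card t (by omega)
    obtain ⟨k, rfl⟩ : ∃ k, t = k + 1 := ⟨t - 1, by omega⟩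
    simp only [Nat.add_sub_cancel] at hcon
    nlinarith
  · exfalso
    have h1 : A.card ≤ p := by
      have := card_le_univ A
      rwa [ZMod.card] at this
    omega

lemma mem_or_neg_mem {t : ℕ} {A : Finset (ZMod p)} (h2p : 2 < p)
    (hA : WeakZeroSumFree p t A) (ht : 2 ≤ t) (hc : 2 * A.card + 1 = p) {x : ZMod p}
    (hx : x ≠ 0) : x ∈ A ∨ -x ∈ A := by
  classical
  by_contra hcon
  push Not at hcon
  have hdis : Disjoint A (A.image fun a => -a) := by
    rw [disjoint_left]
    intro a ha hb
    obtain ⟨b, hb', rfl⟩ := mem_image.1 hb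
    exact neg_notMem h2p hA ht hb' ha
  have h1 : (A ∪ A.image fun a => -a).card = 2 * A.card := by
    rw [card_union_of_disjoint hdis, card_image_of_injective _ neg_injective]
    ring
  have h0 : (0 : ZMod p) ∉ (A ∪ A.image fun a => -a) := by
    intro h
    rcases mem_union.1 h with h | h
    · exact zero_notMem hA (by omega) h
    · obtain ⟨b, hb, hb0⟩ := mem_image.1 h
      have : b = 0 := by simpa using hb0
      exact zero_notMem hA (by omega) (this ▸ hb)
  have hx1 : x ∉ insert (0 : ZMod p) (A ∪ A.image fun a => -a) := by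
    intro h
    rcases mem_insert.1 h with h | h
    · exact hx h
    · rcases mem_union.1 h with h | h
      · exact hcon.1 h
      · obtain ⟨b, hb, hb0⟩ := mem_image.1 h
        apply hcon.2
        rw [← hb0, neg_neg]
        exact hb
  have h2 : (insert x (insert (0 : ZMod p) (A ∪ A.image fun a => -a))).card
      ≤ (univ : Finset (ZMod p)).card := card_le_card (subset_univ _)
  rw [card_insert_of_notMem hx1, card_insert_of_notMem h0, h1, card_univ, ZMod.card] at h2
  omega

lemma eleven_five_dec : ∀ s : Fin 5 → Bool, ∃ c : Fin 5 → Bool, (∃ i, c i = true) ∧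
    ∑ i, (if c i = true then (if s i = true then ((i : ℕ) + 1 : ZMod 11)
      else -((i : ℕ) + 1 : ZMod 11)) else 0) = 0 := by
  decide +kernel

lemma eleven_nz : ∀ i : Fin 5, ((i : ℕ) + 1 : ZMod 11) ≠ 0 := by decide

lemma eleven_key : ∀ i j : Fin 5, ∀ b b' : Bool,
    (if b = true then ((i : ℕ) + 1 : ZMod 11) else -((i : ℕ) + 1 : ZMod 11)) =
    (if b' = true then ((j : ℕ) + 1 : ZMod 11) else -((j : ℕ) + 1 : ZMod 11)) → i = j := by
  decide

lemma eleven_five (A : Finset (ZMod 11)) (hA : WeakZeroSumFree 11 5 A) : A.card ≠ 5 := by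
  classical
  intro hc
  set v : Bool → Fin 5 → ZMod 11 := fun b i =>
    if b = true then ((i : ℕ) + 1 : ZMod 11) else -((i : ℕ) + 1 : ZMod 11) with hv
  have hmem : ∀ i : Fin 5, ∃ b, v b i ∈ A := by
    intro i
    have hp11 : Fact (Nat.Prime 11) := ⟨by norm_num⟩
    rcases mem_or_neg_mem (p := 11) (by norm_num) hA (by norm_num) (by rw [hc])
      (eleven_nz i) with h | h
    · exact ⟨true, by simpa [hv] using h⟩
    · exact ⟨false, by simpa [hv] using h⟩
  choose s hs using hmem
  obtain ⟨c, ⟨i0, hi0⟩, hsum⟩ := eleven_five_dec s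
  have hinj : Function.Injective (fun i => v (s i) i) := by
    intro i j hij
    exact eleven_key i j (s i) (s j) hij
  refine hA ((univ.filter fun i => c i = true).image fun i => v (s i) i) ?_ ?_ ?_ ?_
  · intro z hz
    obtain ⟨i, _, rfl⟩ := mem_image.1 hz
    exact hs i
  · rw [card_image_of_injective _ hinj]
    exact card_pos.2 ⟨i0, by simp [hi0]⟩
  · rw [card_image_of_injective _ hinj]
    calc _ ≤ (univ : Finset (Fin 5)).card := card_le_card (filter_subset _ _)
      _ = 5 := by simp
  · rw [sum_image (fun a _ b _ h => hinj h), sum_filter]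
    exact hsum

theorem no_attain_five {t : ℕ} (h2p : 3 < p) (ht : 5 ≤ t) (A : Finset (ZMod p))
    (hA : WeakZeroSumFree p t A) : A.card ≠ (p - 2) / t + t - 1 := by
  intro hc
  have h2A : 2 * A.card < p := two_mul_card_lt (by omega) hA (by omega)
  obtain ⟨q, hq⟩ : ∃ q, q = (p - 2) / t := ⟨_, rfl⟩
  obtain ⟨r, hr⟩ : ∃ r, r = (p - 2) % t := ⟨_, rfl⟩
  have hdiv : t * q + r + 2 = p := by
    have : t * ((p - 2) / t) + (p - 2) % t = p - 2 := Nat.div_add_mod _ _
    rw [← hq, ← hr] at this
    omega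
  have hrt : r < t := by rw [hr]; exact Nat.mod_lt _ (by omega)
  by_cases hex : t = 5 ∧ p = 11
  · obtain ⟨rfl, rfl⟩ := hex
    exact eleven_five A hA (by rw [hc])
  rw [← hq] at hc
  have hq0 : 1 ≤ q := by
    by_contra h
    have hq0 : q = 0 := by omega
    subst hq0
    omega
  obtain ⟨d, hd⟩ : ∃ d, d = A.card := ⟨_, rfl⟩
  rw [← hd] at hc h2A
  have hdt : t ≤ d := by omega
  have hS2 := two_mul_Sg d t hdt
  have hd' : d + 1 = q + t := by omega
  have e1 : t * (d + 1) = t * q + t * t := by rw [hd']; ring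
  have e2 : 2 * (t * (d + 1)) = t * (2 * d + 1) + t := by ring
  have e3 : 5 * t ≤ t * t := Nat.mul_le_mul_right _ ht
  refine no_set (d := d) h2p hA hd.symm (by omega) ?_ ?_
  · omega
  · intro s hs h1 h2
    by_contra hcon
    push Not at hcon
    have hq2 : q ≤ 2 := by omega
    clear hq
    interval_cases q
    · -- `q = 1`
      have hd1 : d = t := by omega
      have hp1 : p = 2 * t + 1 := by omega
      have h3 : Sg d (t - 2) ≤ Sg d (s - 1) := Sg_mono d (by omega)
      have h4 := two_mul_Sg d (t - 2) (by omega)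
      obtain ⟨k, rfl⟩ : ∃ k, t = k + 5 := ⟨t - 5, by omega⟩
      have e2 : k + 5 - 2 = k + 3 := by omega
      rw [e2] at h3 h4
      subst hd1
      have h5 : 2 * Sg (k + 5) (k + 3) ≤ 2 * (p + 3) := by omega
      have hk : k = 0 := by
        by_contra hk
        have hk1 : 1 ≤ k := by omega
        nlinarith
      subst hk
      exact hex ⟨rfl, by omega⟩
    · -- `q = 2`
      have hd1 : d = t + 1 := by omega
      have hs2 : s = t := by omega
      subst hs2
      have h4 := two_mul_Sg d (s - 1) (by omega)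
      obtain ⟨k, rfl⟩ : ∃ k, s = k + 5 := ⟨s - 5, by omega⟩
      have e2 : k + 5 - 1 = k + 4 := by omega
      rw [e2] at h4 h2
      subst hd1
      have hk : k = 0 := by
        by_contra hk
        have hk1 : 1 ≤ k := by omega
        nlinarith
      subst hk
      have h5 : p = 15 ∨ p = 16 := by omega
      rcases h5 with h5 | h5
      · have := hp.out
        rw [h5] at this
        norm_num at this
      · have := hp.out
        rw [h5] at this
        norm_num at this

end Pool.Agent.H19.HP
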