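import Mathlib
import Pool.Agent.H19.HP.Five

set_option autoImplicit false

/-!
# Three summands
-/

namespace Pool.Agent.H19.HP

open Finset Pool.Agent.H8.Ham

variable {p : ℕ} [hp : Fact p.Prime]

lemma Phi_three {F : Type*} [Field F] (a b c : F) :
    Phi ![a, b, c] = (b - a) / (b + a) * ((c - a) / (c + a)) * ((c - b) / (c + b)) := by
  unfold Phi lam PP pf
  simp [Fin.prod_univ_succ]

lemma three_ne_zero' (h : 3 < p) : (3 : ZMod p) ≠ 0 := by
  have := natCast_ne_zero_of_lt (p := p) (m := 3) (by norm_num) h
  exact_mod_cast this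

lemma Kf_three {a b c : ℕ} (h3 : 3 < p) (ha : 1 ≤ a) (hb : 1 ≤ b) (hc : 1 ≤ c)
    (hap : a < p) (hbp : b < p) (hcp : c < p) (hs : a + b + c = p + 2)
    (hab : (a : ZMod p) + (b : ZMod p) ≠ 0) (hac : (a : ZMod p) + (c : ZMod p) ≠ 0)
    (hbc : (b : ZMod p) + (c : ZMod p) ≠ 0) :
    Kf p ![a, b, c] * ((a.factorial : ZMod p) * (b.factorial : ZMod p) * (c.factorial : ZMod p)) =
      -(((b : ZMod p) - a) * ((c : ZMod p) - a) * ((c : ZMod p) - b)) := by
  have h : 3 * Kf p ![a, b, c] * ∏ l : Fin 3, (((![a, b, c] : Fin 3 → ℕ) l).factorial : ZMod p) =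
      (-1) ^ 2 * Phi (fun i : Fin 3 => ((![a, b, c] : Fin 3 → ℕ) i : ZMod p)) *
      (∑ l : Fin 3, ((![a, b, c] : Fin 3 → ℕ) l : ZMod p) ^ 3 - 8) :=
    Kf_eq (p := p) (n := 2) ![a, b, c] (by omega)
    (by intro l; fin_cases l <;> simp <;> omega)
    (by intro l; fin_cases l <;> simp <;> omega)
    (by
      intro i j hij
      fin_cases i <;> fin_cases j <;> simp at hij ⊢
      · exact hab
      · exact hac
      · rw [add_comm]; exact hab
      · exact hbc
      · rw [add_comm]; exact hac
      · rw [add_comm]; exact hbc)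
    (by simp [Fin.sum_univ_succ]; omega)
  have e1 : (fun i => ((![a, b, c] : Fin 3 → ℕ) i : ZMod p)) = ![(a : ZMod p), b, c] := by
    ext i; fin_cases i <;> rfl
  rw [e1, Phi_three] at h
  simp only [Fin.prod_univ_three, Fin.sum_univ_three, Matrix.cons_val_zero, Matrix.cons_val_one,
    Matrix.cons_val_two, Matrix.head_cons, Matrix.tail_cons, Matrix.cons_val] at h
  have hsum : (a : ZMod p) + b + c = 2 := by
    have : ((a + b + c : ℕ) : ZMod p) = ((p + 2 : ℕ) : ZMod p) := by rw [hs]
    push_cast at this
    simpa using this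
  have hc' : (c : ZMod p) = 2 - a - b := by linear_combination hsum
  have h3' := three_ne_zero' (p := p) h3
  have hba : (b : ZMod p) + a ≠ 0 := by rwa [add_comm]
  have hca : (c : ZMod p) + a ≠ 0 := by rwa [add_comm]
  have hcb : (c : ZMod p) + b ≠ 0 := by rwa [add_comm]
  have key : (b - a : ZMod p) / (b + a) * ((c - a) / (c + a)) * ((c - b) / (c + b)) *
      ((a : ZMod p) ^ 3 + (b : ZMod p) ^ 3 + (c : ZMod p) ^ 3 - 8) =
      -3 * ((b - a) * (c - a) * (c - b)) := by
    have e2 : ((a : ZMod p) ^ 3 + (b : ZMod p) ^ 3 + (c : ZMod p) ^ 3 - 8) =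
        -3 * ((b + a) * (c + a) * (c + b)) := by
      rw [hc']; ring
    rw [e2]
    field_simp
  refine mul_left_cancel₀ h3' ?_
  linear_combination h + key

/-- The polynomial with roots `A`. -/
noncomputable def fA (A : Finset (ZMod p)) : Polynomial (ZMod p) :=
  ∏ a ∈ A, (Polynomial.X - Polynomial.C a)

lemma fA_monic (A : Finset (ZMod p)) : (fA A).Monic :=
  Polynomial.monic_prod_of_monic _ _ fun _ _ => Polynomial.monic_X_sub_C _

lemma fA_natDegree (A : Finset (ZMod p)) : (fA A).natDegree = A.card := by
  rw [fA, Polynomial.natDegree_prod_of_monic _ _ fun j _ => Polynomial.monic_X_sub_C _]; simp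

lemma fA_rel (A : Finset (ZMod p)) (m : ℕ) :
    ∑ j ∈ range (A.card + 1), (fA A).coeff j * HH A (j + m) = 0 := by
  have h1 : ∀ j, (fA A).coeff j * HH A (j + m) =
      ∑ a ∈ A, Wt A a * a ^ m * ((fA A).coeff j * a ^ j) := by
    intro j
    rw [HH, mul_sum]
    refine sum_congr rfl fun a _ => ?_
    rw [pow_add]; ring
  rw [sum_congr rfl fun j _ => h1 j, sum_comm]
  refine sum_eq_zero fun a ha => ?_
  rw [← mul_sum]
  have h2 : ∑ j ∈ range (A.card + 1), (fA A).coeff j * a ^ j = (fA A).eval a := by
    rw [Polynomial.eval_eq_sum_range, fA_natDegree]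
  rw [h2, fA, Polynomial.eval_prod, prod_eq_zero ha (by simp), mul_zero]

lemma fA_coeff_odd {A : Finset (ZMod p)} {K : ℕ} (hK : K ≤ A.card)
    (h : ∀ k, k ≤ K → Odd k → HH A (A.card - 1 + k) = 0) :
    ∀ k, k ≤ K → Odd k → (fA A).coeff (A.card - k) = 0 := by
  intro k
  induction k using Nat.strong_induction_on with
  | _ k ih =>
    intro hkK hk
    have hkpos := hk.pos
    have h1 := fA_rel A (k - 1)
    rw [Finset.sum_eq_single (A.card - k)] at h1
    · rw [HH_one (by omega), mul_one] at h1
      exact h1
    · intro j hj hne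
      rw [mem_range] at hj
      rcases Nat.lt_or_gt_of_ne hne with hlt | hgt
      · rw [HH_zero (by omega), mul_zero]
      · rcases Nat.even_or_odd (A.card - j) with hev | hod
        · have h2 : Odd (k - (A.card - j)) := by
            obtain ⟨a, ha⟩ := hev
            obtain ⟨b, hb⟩ := hk
            exact ⟨b - a, by omega⟩
          have h3 := h (k - (A.card - j)) (by omega) h2
          have h4 : j + (k - 1) = A.card - 1 + (k - (A.card - j)) := by omega
          rw [h4, h3, mul_zero]
        · have h3 := ih (A.card - j) (by omega) (by omega) hod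
          have h4 : A.card - (A.card - j) = j := by omega
          rw [h4] at h3
          rw [h3, zero_mul]
    · intro hnot
      exact absurd (mem_range.2 (by omega)) hnot

lemma update_three_0 (a b c x : ℕ) : Function.update ![a, b, c] 0 x = ![x, b, c] := by
  ext i; fin_cases i <;> rfl
lemma update_three_1 (a b c x : ℕ) : Function.update ![a, b, c] 1 x = ![a, x, c] := by
  ext i; fin_cases i <;> rfl
lemma update_three_2 (a b c x : ℕ) : Function.update ![a, b, c] 2 x = ![a, b, x] := by
  ext i; fin_cases i <;> rfl

/-- The vanishing of the odd complete symmetric functions for three summands. -/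
lemma odd_three {d : ℕ} {A : Finset (ZMod p)} (h3 : 7 < p) (hA : WeakZeroSumFree p 3 A)
    (hd : A.card = d) (hdp : 3 * d = p + 4) :
    ∀ D, D + 2 ≤ d → Odd D → HH A (A.card - 1 + D) = 0 := by
  intro D
  induction D using Nat.strong_induction_on with
  | _ D ih =>
    intro hDd hD
    have hpodd : Odd p := hp.out.odd_of_ne_two (by omega)
    have hdodd : Odd d := by
      by_contra hev
      rw [Nat.not_odd_iff_even] at hev
      obtain ⟨a, ha⟩ := hev
      obtain ⟨b, hb⟩ := hpodd
      omega
    obtain ⟨d', hd'⟩ := hdodd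
    obtain ⟨D', hD'⟩ := hD
    have hDpos : 1 ≤ D := by omega
    have key := D_odd (n := 1) (t := 3) (D := D) (A := A) (by omega) hA (by omega) (by omega)
      (by omega) ![d - D - 1, d - 1, d]
      (by intro l; fin_cases l <;> simp <;> omega)
      (by intro l; fin_cases l <;> simp <;> omega) ⟨D', hD'⟩
      (fun k hk hk2 => ih k hk (by omega) hk2)
      (by simp [Fin.sum_univ_succ]; omega)
    by_contra hH
    have hsum := (mul_eq_zero.1 key).resolve_left hH
    rw [Fin.sum_univ_three, update_three_0, update_three_1, update_three_2] at hsum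
    simp only [Matrix.cons_val_zero, Matrix.cons_val_one, Matrix.cons_val_two, Matrix.head_cons,
      Matrix.tail_cons, Matrix.cons_val] at hsum
    -- pair sums
    have hne : ∀ a b : ℕ, 0 < a + b → a + b < 2 * p → a + b ≠ p → (a : ZMod p) + (b : ZMod p) ≠ 0 := by
      intro a b h1 h2 h3 h4
      have h5 : ((a + b : ℕ) : ZMod p) = 0 := by push_cast; exact h4
      rw [ZMod.natCast_eq_zero_iff] at h5
      obtain ⟨c, hc⟩ := h5
      have hc1 : c < 2 := by
        by_contra hc2
        push Not at hc2
        have : p * 2 ≤ p * c := Nat.mul_le_mul_left _ hc2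
        omega
      interval_cases c <;> omega
    have k0 := Kf_three (p := p) (a := d - D - 1 + D) (b := d - 1) (c := d) (by omega) (by omega)
      (by omega) (by omega) (by omega) (by omega) (by omega) (by omega)
      (hne _ _ (by omega) (by omega) (by omega)) (hne _ _ (by omega) (by omega) (by omega))
      (hne _ _ (by omega) (by omega) (by omega))
    have k1 := Kf_three (p := p) (a := d - D - 1) (b := d - 1 + D) (c := d) (by omega) (by omega)
      (by omega) (by omega) (by omega) (by omega) (by omega) (by omega)
      (hne _ _ (by omega) (by omega) (by omega)) (hne _ _ (by omega) (by omega) (by omega))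
      (hne _ _ (by omega) (by omega) (by omega))
    have k2 := Kf_three (p := p) (a := d - D - 1) (b := d - 1) (c := d + D) (by omega) (by omega)
      (by omega) (by omega) (by omega) (by omega) (by omega) (by omega)
      (hne _ _ (by omega) (by omega) (by omega)) (hne _ _ (by omega) (by omega) (by omega))
      (hne _ _ (by omega) (by omega) (by omega))
    -- casts
    obtain ⟨e, he⟩ := Nat.exists_eq_add_of_le (show D + 1 ≤ d by omega)
    have r1 : d - D - 1 = e := by omega
    have r2 : d - 1 = e + D := by omega
    have r3 : d - D - 1 + D = e + D := by omega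
    have r4 : d - 1 + D = e + D + D := by omega
    have r5 : d = e + D + 1 := by omega
    have r6 : d + D = e + D + D + 1 := by omega
    rw [r3, r2] at k0
    rw [r1, r4] at k1
    rw [r1, r2, r6] at k2
    rw [r3, r1, r4, r2, r6] at hsum
    rw [r5] at k0 k1 hsum
    rw [Nat.factorial_succ] at k0 k1
    rw [Nat.factorial_succ] at k2
    have f1 : ((e + D).factorial : ZMod p) ≠ 0 := factorial_ne_zero (by omega)
    have f2 : ((e + D + D).factorial : ZMod p) ≠ 0 := factorial_ne_zero (by omega)
    have f3 : (e.factorial : ZMod p) ≠ 0 := factorial_ne_zero (by omega)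
    push_cast at k0 k1 k2
    set x : ZMod p := (D : ZMod p) with hx
    set y : ZMod p := (e : ZMod p) with hy
    have hrel : 3 * (y + x + 1) = 4 := by
      have : ((3 * (e + D + 1) : ℕ) : ZMod p) = ((p + 4 : ℕ) : ZMod p) := by
        rw [← r5, hdp]
      push_cast at this
      simpa using this
    have n1 : (y + x + 1 : ZMod p) ≠ 0 := by
      have := natCast_ne_zero_of_lt (p := p) (m := e + D + 1) (by omega) (by omega)
      push_cast at this; exact this
    have n2 : (y + x + x + 1 : ZMod p) ≠ 0 := by
      have := natCast_ne_zero_of_lt (p := p) (m := e + D + D + 1) (by omega) (by omega)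
      push_cast at this; exact this
    have hk0 : Kf p ![e + D, e + D, e + D + 1] = 0 := by
      have : Kf p ![e + D, e + D, e + D + 1] * (((e + D).factorial : ZMod p) *
          ((e + D).factorial : ZMod p) * ((y + x + 1) * ((e + D).factorial : ZMod p))) = 0 := by
        linear_combination k0
      exact (mul_eq_zero.1 this).resolve_right
        (mul_ne_zero (mul_ne_zero f1 f1) (mul_ne_zero n1 f1))
    rw [hk0, zero_add] at hsum
    -- the final polynomial relation
    have hfin : x * (x + 1) * (x + 1) * (x - 2) * 2 = 0 := by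
      have e1 : (x * (x + 1)) * (2 * (1 - x) * (y + x + x + 1) + (2 * x + 1) * (y + x + 1)) = 0 := by
        linear_combination (y + x + x + 1) * k1 + (y + x + 1) * k2 -
          ((e.factorial : ZMod p) * ((e + D + D).factorial : ZMod p) *
            ((e + D).factorial : ZMod p) * (y + x + 1) * (y + x + x + 1)) * hsum
      linear_combination (-1) * e1 + (x * (x + 1)) * hrel
    have m1 : x ≠ 0 := natCast_ne_zero_of_lt (by omega) (by omega)
    have m2 : x + 1 ≠ 0 := by
      have := natCast_ne_zero_of_lt (p := p) (m := D + 1) (by omega) (by omega)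
      push_cast at this; exact this
    have m3 : x - 2 ≠ 0 := by
      intro h0
      rcases Nat.lt_or_ge D 2 with h1 | h1
      · have : D = 1 := by omega
        rw [hx, this] at h0
        have : (1 : ZMod p) = 0 := by push_cast at h0; linear_combination -h0
        exact one_ne_zero this
      · have h5 : ((D - 2 : ℕ) : ZMod p) = 0 := by
          rw [Nat.cast_sub h1]; push_cast; exact h0
        exact natCast_ne_zero_of_lt (p := p) (m := D - 2) (by omega) (by omega) h5
    have m4 := two_ne_zero' (p := p) (by omega)
    exact mul_ne_zero (mul_ne_zero (mul_ne_zero (mul_ne_zero m1 m2) m2) m3) m4 hfin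

end Pool.Agent.H19.HP
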