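import Mathlib
import Pool.Agent.H19.HP.Three

set_option autoImplicit false

/-!
# Three summands: the conclusion
-/

namespace Pool.Agent.H19.HP

open Finset Pool.Agent.H8.Ham Polynomial

variable {p : ℕ} [hp : Fact p.Prime]

/-- The polynomial with roots `-A`. -/
noncomputable def fN (A : Finset (ZMod p)) : (ZMod p)[X] := ∏ a ∈ A, (X + C a)

lemma fN_coeff (A : Finset (ZMod p)) (j : ℕ) :
    (fN A).coeff j = (-1) ^ (A.card + j) * (fA A).coeff j := by
  have h1 : (fA A).comp (-X) = C ((-1) ^ A.card) * fN A := by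
    rw [fA, fN, Polynomial.prod_comp, map_pow, ← prod_const, ← prod_mul_distrib]
    refine prod_congr rfl fun a _ => ?_
    simp
    ring
  have h2 : ((fA A).comp (-X)).coeff j = (-1) ^ j * (fA A).coeff j := by
    have : (-X : (ZMod p)[X]) = C (-1) * X := by simp
    rw [this, Polynomial.comp_C_mul_X_coeff]
    ring
  rw [h1, coeff_C_mul] at h2
  have h3 : ((-1 : ZMod p) ^ A.card) * (-1) ^ A.card = 1 := by
    rw [← mul_pow]; simp
  rw [pow_add]
  linear_combination (-1) ^ A.card * h2 - (fN A).coeff j * h3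

lemma fA_mul_fN_dvd {t : ℕ} {A : Finset (ZMod p)} (h2p : 2 < p) (hA : WeakZeroSumFree p t A)
    (ht : 2 ≤ t) : fA A * fN A ∣ X ^ (p - 1) - 1 := by
  classical
  have hdis : Disjoint A (A.image fun a => -a) := by
    rw [disjoint_left]
    intro a ha hb
    obtain ⟨b, hb', rfl⟩ := mem_image.1 hb
    exact neg_notMem h2p hA ht hb' ha
  have h1 : fA A * fN A = ∏ b ∈ A ∪ A.image (fun a => -a), (X - C b) := by
    rw [prod_union hdis, prod_image (fun a _ b _ h => neg_injective h), fA, fN]
    congr 1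
    refine prod_congr rfl fun a _ => ?_
    simp
  have hne : (X ^ (p - 1) - 1 : (ZMod p)[X]) ≠ 0 := by
    have := (monic_X_pow_sub_C (1 : ZMod p) (n := p - 1) (by omega)).ne_zero
    simpa using this
  rw [h1]
  have h2 : (∏ b ∈ A ∪ A.image (fun a => -a), (X - C b)) =
      (Multiset.map (fun a => X - C a) (A ∪ A.image (fun a => -a)).val).prod := rfl
  rw [h2, Multiset.prod_X_sub_C_dvd_iff_le_roots hne]
  rw [Multiset.le_iff_subset (A ∪ A.image (fun a => -a)).nodup]
  intro b hb
  have hb0 : b ≠ 0 := by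
    rintro rfl
    rw [Finset.mem_val, mem_union] at hb
    rcases hb with h | h
    · exact zero_notMem hA (by omega) h
    · obtain ⟨b, hb, hb0⟩ := mem_image.1 h
      have : b = 0 := by simpa using hb0
      exact zero_notMem hA (by omega) (this ▸ hb)
  rw [mem_roots hne, IsRoot]
  simp [ZMod.pow_card_sub_one_eq_one hb0]

lemma coeff_zero_ne {t : ℕ} {A : Finset (ZMod p)} (hA : WeakZeroSumFree p t A)
    (ht : 1 ≤ t) : (fA A).coeff 0 ≠ 0 := by
  rw [coeff_zero_eq_eval_zero, fA, eval_prod]
  refine prod_ne_zero_iff.2 fun a ha => ?_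
  simp only [eval_sub, eval_X, eval_C, zero_sub, neg_ne_zero]
  rintro rfl
  exact zero_notMem hA ht ha

theorem no_three {A : Finset (ZMod p)} (h3 : 11 < p) (hA : WeakZeroSumFree p 3 A)
    (hdp : 3 * A.card = p + 4) : False := by
  classical
  obtain ⟨d, hd⟩ : ∃ d, A.card = d := ⟨_, rfl⟩
  have hpodd : Odd p := hp.out.odd_of_ne_two (by omega)
  have hdodd : Odd d := by
    by_contra hev
    rw [Nat.not_odd_iff_even] at hev
    obtain ⟨a, ha⟩ := hev
    obtain ⟨b, hb⟩ := hpodd
    omega
  have hodd := odd_three (by omega) hA hd (by omega)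
  have hco : ∀ k, k ≤ d - 2 → Odd k → (fA A).coeff (A.card - k) = 0 := by
    refine fA_coeff_odd (K := d - 2) (by omega) fun k hk hk2 => ?_
    exact hodd k (by omega) hk2
  set f := fA A with hf
  set c := f.coeff 0 with hc
  have hc0 : c ≠ 0 := coeff_zero_ne hA (by omega)
  have hcp : ∀ j, Even j → 2 ≤ j → f.coeff j = 0 := by
    intro j hj h2
    rcases Nat.lt_or_ge d j with h | h
    · exact coeff_eq_zero_of_natDegree_lt (by rw [hf, fA_natDegree, hd]; exact h)
    · have h4 : Odd (d - j) := by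
        obtain ⟨a, ha⟩ := hj
        obtain ⟨b, hb⟩ := hdodd
        exact ⟨b - a, by omega⟩
      have h5 := hco (d - j) (by omega) h4
      rw [hd] at h5
      rwa [show d - (d - j) = j by omega] at h5
  have hfN : fN A = f - C (2 * c) := by
    ext j
    rw [fN_coeff, coeff_sub, coeff_C, hd, ← hf]
    rcases Nat.even_or_odd j with hj | hj
    · rcases Nat.eq_zero_or_pos j with h0 | h0
      · subst h0
        rw [if_pos rfl, add_zero, hdodd.neg_one_pow, ← hc]
        ring
      · have h2 : 2 ≤ j := by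
          obtain ⟨a, ha⟩ := hj; omega
        rw [hcp j hj h2, if_neg (by omega)]
        ring
    · have h0 : j ≠ 0 := by rintro rfl; simp at hj
      rw [if_neg h0, (hdodd.add_odd hj).neg_one_pow]
      ring
  obtain ⟨k, hk⟩ := fA_mul_fN_dvd (by omega) hA (by omega : 2 ≤ 3)
  rw [← hf, hfN] at hk
  set o : (ZMod p)[X] := f - C c with ho
  have hG : f * (f - C (2 * c)) = o ^ 2 - C (c ^ 2) := by
    rw [ho, two_mul, C_add, C_pow]
    ring
  rw [hG] at hk
  have hfd : f.natDegree = d := by rw [hf, fA_natDegree, hd]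
  have hod : o.natDegree = d := by
    rw [ho, natDegree_sub_C, hfd]
  have hGd : (o ^ 2 - C (c ^ 2)).natDegree = 2 * d := by
    rw [natDegree_sub_C, natDegree_pow, hod]
  have hne : (X ^ (p - 1) - 1 : (ZMod p)[X]) ≠ 0 := by
    have := (monic_X_pow_sub_C (1 : ZMod p) (n := p - 1) (by omega)).ne_zero
    simpa using this
  have hdeg : (X ^ (p - 1) - 1 : (ZMod p)[X]).natDegree = p - 1 := by
    have := natDegree_X_pow_sub_C (n := p - 1) (r := (1 : ZMod p))
    simpa using this
  have hk0 : k ≠ 0 := by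
    rintro rfl
    rw [mul_zero] at hk
    exact hne hk
  have hG0 : (o ^ 2 - C (c ^ 2)) ≠ 0 := by
    intro h0
    rw [h0, zero_mul] at hk
    exact hne hk
  have hkd : k.natDegree = d - 5 := by
    have := natDegree_mul hG0 hk0
    rw [← hk, hdeg, hGd] at this
    omega
  set W : (ZMod p)[X] := C (c ^ 2) * k + (X ^ (p - 1) - 1) with hW
  have hW2 : W = o ^ 2 * k := by
    rw [hW, hk]; ring
  have ho1 : o ∣ W := by
    rw [hW2]; exact ⟨o * k, by ring⟩
  have ho2 : o ∣ derivative W := by
    have hW3 : W = o * (o * k) := by rw [hW2]; ring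
    rw [hW3, derivative_mul]
    exact ⟨derivative o * k + derivative (o * k), by ring⟩
  set R : (ZMod p)[X] := C (c ^ 2) * (k + X * derivative k) - 1 with hR
  have hRW : R = W + X * derivative W := by
    have e1 : derivative W = C (c ^ 2) * derivative k + C ((p - 1 : ℕ) : ZMod p) * X ^ (p - 2) := by
      rw [hW]
      simp only [derivative_add, derivative_mul, derivative_C, zero_mul, zero_add, derivative_sub,
        derivative_X_pow, derivative_one, sub_zero]
      rw [show p - 1 - 1 = p - 2 by omega]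
    have e2 : ((p - 1 : ℕ) : ZMod p) = -1 := by
      rw [Nat.cast_sub (by omega)]; simp
    have e3 : (X : (ZMod p)[X]) ^ (p - 1) = X * X ^ (p - 2) := by
      rw [← pow_succ']; congr 1; omega
    rw [e1, hW, hR, e2, e3]
    simp only [map_neg, map_one]
    ring
  have hoR : o ∣ R := by
    rw [hRW]
    exact dvd_add ho1 (Dvd.dvd.mul_left ho2 X)
  have hRd : R.natDegree ≤ d - 5 := by
    rw [hR]
    refine (natDegree_sub_le _ _).trans (max_le ?_ (by simp))
    refine (natDegree_C_mul_le _ _).trans ?_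
    refine (natDegree_add_le _ _).trans (max_le hkd.le ?_)
    by_cases hdk : derivative k = 0
    · rw [hdk, mul_zero]; simp
    · rw [natDegree_X_mul hdk]
      have := natDegree_derivative_lt (p := k) (by omega)
      omega
  have hR0 : R = 0 := by
    refine eq_zero_of_dvd_of_natDegree_lt hoR ?_
    rw [hod]
    omega
  obtain ⟨N, hN⟩ : ∃ N, d - 5 = N + 1 := ⟨d - 6, by omega⟩
  have hcf : R.coeff (N + 1) = c ^ 2 * ((N + 2 : ℕ) : ZMod p) * k.coeff (N + 1) := by
    rw [hR, coeff_sub, coeff_C_mul, coeff_add, coeff_X_mul, coeff_derivative, coeff_one,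
      if_neg (by omega)]
    push_cast
    ring
  rw [hR0, coeff_zero] at hcf
  have hlead : k.coeff (N + 1) ≠ 0 := by
    rw [← hN, ← hkd]
    exact leadingCoeff_ne_zero.2 hk0
  have hN2 : ((N + 2 : ℕ) : ZMod p) ≠ 0 := natCast_ne_zero_of_lt (by omega) (by omega)
  exact (mul_ne_zero (mul_ne_zero (pow_ne_zero 2 hc0) hN2) hlead) hcf.symm

end Pool.Agent.H19.HP
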