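import Mathlib
import Pool.Agent.H19.HP.ThreeB

set_option autoImplicit false

/-!
# Four summands: the basic equations
-/

namespace Pool.Agent.H19.HP

open Finset Pool.Agent.H8.Ham

variable {p : ℕ} [hp : Fact p.Prime]

/-- The product `∏ (y_j - y_i)/(y_j + y_i)` for four entries. -/
def PH4 {F : Type*} [Field F] (a b c e : F) : F :=
  (b - a) / (b + a) * ((c - a) / (c + a)) * ((e - a) / (e + a)) * ((c - b) / (c + b)) *
    ((e - b) / (e + b)) * ((e - c) / (e + c))

lemma Phi_four {F : Type*} [Field F] (a b c e : F) :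
    Phi ![a, b, c, e] = PH4 a b c e := by
  unfold Phi lam PP pf PH4
  simp [Fin.prod_univ_succ]
  ring

lemma Kf_four {a b c e : ℕ} (h3 : 3 < p) (ha : 1 ≤ a) (hb : 1 ≤ b) (hc : 1 ≤ c) (he : 1 ≤ e)
    (hs : a + b + c + e = p + 2) (hab : a + b < p) (hac : a + c < p) (hae : a + e < p)
    (hbc : b + c < p) (hbe : b + e < p) (hce : c + e < p) :
    3 * Kf p ![a, b, c, e] * ((a.factorial : ZMod p) * (b.factorial : ZMod p) *
      (c.factorial : ZMod p) * (e.factorial : ZMod p)) =
      -(PH4 (a : ZMod p) b c e * ((a : ZMod p) ^ 3 + (b : ZMod p) ^ 3 + (c : ZMod p) ^ 3 +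
        (e : ZMod p) ^ 3 - 8)) := by
  have hne : ∀ a b : ℕ, 0 < a + b → a + b < p → (a : ZMod p) + (b : ZMod p) ≠ 0 := by
    intro a b h1 h2
    have := natCast_ne_zero_of_lt (p := p) h1 h2
    push_cast at this; exact this
  have h : 3 * Kf p ![a, b, c, e] *
      ∏ l : Fin 4, (((![a, b, c, e] : Fin 4 → ℕ) l).factorial : ZMod p) =
      (-1) ^ 3 * Phi (fun i : Fin 4 => ((![a, b, c, e] : Fin 4 → ℕ) i : ZMod p)) *
      (∑ l : Fin 4, ((![a, b, c, e] : Fin 4 → ℕ) l : ZMod p) ^ 3 - 8) :=
    Kf_eq (p := p) (n := 3) ![a, b, c, e] (by omega)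
    (by intro l; fin_cases l <;> simp <;> omega)
    (by intro l; fin_cases l <;> simp <;> omega)
    (by
      intro i j hij
      fin_cases i <;> fin_cases j <;> simp at hij ⊢ <;> exact hne _ _ (by omega) (by omega))
    (by simp [Fin.sum_univ_succ]; omega)
  have e1 : (fun i => ((![a, b, c, e] : Fin 4 → ℕ) i : ZMod p)) = ![(a : ZMod p), b, c, e] := by
    ext i; fin_cases i <;> rfl
  rw [e1, Phi_four] at h
  simp only [Fin.prod_univ_four, Fin.sum_univ_four, Matrix.cons_val_zero, Matrix.cons_val_one,
    Matrix.cons_val_two, Matrix.cons_val_three, Matrix.head_cons, Matrix.tail_cons,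
    Matrix.cons_val] at h
  rw [h]
  ring

lemma update_four_0 (a b c e x : ℕ) : Function.update ![a, b, c, e] 0 x = ![x, b, c, e] := by
  ext i; fin_cases i <;> rfl
lemma update_four_1 (a b c e x : ℕ) : Function.update ![a, b, c, e] 1 x = ![a, x, c, e] := by
  ext i; fin_cases i <;> rfl
lemma update_four_2 (a b c e x : ℕ) : Function.update ![a, b, c, e] 2 x = ![a, b, x, e] := by
  ext i; fin_cases i <;> rfl
lemma update_four_3 (a b c e x : ℕ) : Function.update ![a, b, c, e] 3 x = ![a, b, c, x] := by
  ext i; fin_cases i <;> rfl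

/-- The value attached to four entries. -/
noncomputable def XX (p a b c e : ℕ) [Fact p.Prime] : ZMod p :=
  PH4 (a : ZMod p) b c e * ((a : ZMod p) ^ 3 + (b : ZMod p) ^ 3 + (c : ZMod p) ^ 3 +
        (e : ZMod p) ^ 3 - 8)

theorem four_eq {A : Finset (ZMod p)} {d D : ℕ} (h3 : 7 < p) (hA : WeakZeroSumFree p 4 A)
    (hd : A.card = d) (b u v w : ℕ) (hb1 : 1 ≤ b) (hu1 : 1 ≤ u) (hv1 : 1 ≤ v) (hw1 : 1 ≤ w)
    (hb : b ≤ d) (hu : u ≤ d) (hv : v ≤ d) (hw : w ≤ d) (h2d : 2 * d + D < p)
    (hs : b + u + v + w + D = p + 2) (hcol : b + D = u ∨ b + D = v ∨ b + D = w)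
    (hD : Odd D) (hodd : ∀ k, k < D → Odd k → HH A (A.card - 1 + k) = 0)
    (hH : HH A (A.card - 1 + D) ≠ 0) :
    XX p b (u + D) v w * ((u.factorial : ZMod p) * ((v + D).factorial : ZMod p) *
        ((w + D).factorial : ZMod p)) +
      XX p b u (v + D) w * (((u + D).factorial : ZMod p) * (v.factorial : ZMod p) *
        ((w + D).factorial : ZMod p)) +
      XX p b u v (w + D) * (((u + D).factorial : ZMod p) * ((v + D).factorial : ZMod p) *
        (w.factorial : ZMod p)) = 0 := by
  have hDpos := hD.pos
  have key := D_odd (n := 2) (t := 4) (D := D) (A := A) (by omega) hA (by omega) (by omega)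
      (by omega) ![b, u, v, w]
      (by intro l; fin_cases l <;> simp <;> omega)
      (by intro l; fin_cases l <;> simp <;> omega) hD hodd
      (by simp [Fin.sum_univ_succ]; omega)
  have hsum := (mul_eq_zero.1 key).resolve_left hH
  rw [Fin.sum_univ_four, update_four_0, update_four_1, update_four_2, update_four_3] at hsum
  simp only [Matrix.cons_val_zero, Matrix.cons_val_one, Matrix.cons_val_two,
    Matrix.cons_val_three, Matrix.head_cons, Matrix.tail_cons, Matrix.cons_val] at hsum
  have k0 := Kf_four (p := p) (a := b + D) (b := u) (c := v) (e := w) (by omega) (by omega)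
    (by omega) (by omega) (by omega) (by omega) (by omega) (by omega) (by omega) (by omega)
    (by omega) (by omega)
  have k1 := Kf_four (p := p) (a := b) (b := u + D) (c := v) (e := w) (by omega) (by omega)
    (by omega) (by omega) (by omega) (by omega) (by omega) (by omega) (by omega) (by omega)
    (by omega) (by omega)
  have k2 := Kf_four (p := p) (a := b) (b := u) (c := v + D) (e := w) (by omega) (by omega)
    (by omega) (by omega) (by omega) (by omega) (by omega) (by omega) (by omega) (by omega)
    (by omega) (by omega)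
  have k3 := Kf_four (p := p) (a := b) (b := u) (c := v) (e := w + D) (by omega) (by omega)
    (by omega) (by omega) (by omega) (by omega) (by omega) (by omega) (by omega) (by omega)
    (by omega) (by omega)
  have hk0 : Kf p ![b + D, u, v, w] = 0 := by
    have hz : PH4 ((b + D : ℕ) : ZMod p) u v w = 0 := by
      unfold PH4
      rcases hcol with h | h | h
      · rw [← h]; simp
      · rw [← h]; simp
      · rw [← h]; simp
    rw [hz, zero_mul, neg_zero] at k0
    have f0 : ((b + D).factorial : ZMod p) ≠ 0 := factorial_ne_zero (by omega)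
    have f1 : (u.factorial : ZMod p) ≠ 0 := factorial_ne_zero (by omega)
    have f2 : (v.factorial : ZMod p) ≠ 0 := factorial_ne_zero (by omega)
    have f3 : (w.factorial : ZMod p) ≠ 0 := factorial_ne_zero (by omega)
    have h5 := (mul_eq_zero.1 k0).resolve_right
      (mul_ne_zero (mul_ne_zero (mul_ne_zero f0 f1) f2) f3)
    exact (mul_eq_zero.1 h5).resolve_left (three_ne_zero' (by omega))
  rw [hk0, zero_add] at hsum
  have fb : (b.factorial : ZMod p) ≠ 0 := factorial_ne_zero (by omega)
  refine mul_left_cancel₀ fb ?_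
  rw [mul_zero]
  unfold XX
  linear_combination
    ((b.factorial : ZMod p) * ((u.factorial : ZMod p) * ((v + D).factorial : ZMod p) *
        ((w + D).factorial : ZMod p))) * k1 +
    ((b.factorial : ZMod p) * (((u + D).factorial : ZMod p) * (v.factorial : ZMod p) *
        ((w + D).factorial : ZMod p))) * k2 +
    ((b.factorial : ZMod p) * (((u + D).factorial : ZMod p) * ((v + D).factorial : ZMod p) *
        (w.factorial : ZMod p))) * k3 -
    3 * (b.factorial : ZMod p) ^ 2 * (u.factorial : ZMod p) * (v.factorial : ZMod p) *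
      (w.factorial : ZMod p) * ((u + D).factorial : ZMod p) * ((v + D).factorial : ZMod p) *
      ((w + D).factorial : ZMod p) * hsum

theorem three_eq {A : Finset (ZMod p)} {d D : ℕ} (h3 : 7 < p) {t : ℕ} (ht : 3 ≤ t)
    (hA : WeakZeroSumFree p t A)
    (hd : A.card = d) (hd2 : 2 ≤ d) (u v w : ℕ) (hu1 : 1 ≤ u) (hv1 : 1 ≤ v) (hw1 : 1 ≤ w)
    (hu : u ≤ d) (hv : v ≤ d) (hw : w ≤ d)
    (hu2 : u ≠ 2) (hv2 : v ≠ 2) (hw2 : w ≠ 2) (hu3 : u + D ≠ 2) (hv3 : v + D ≠ 2)
    (hw3 : w + D ≠ 2) (hup : u + D < p) (hvp : v + D < p) (hwp : w + D < p)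
    (hs : u + v + w + D = p + 2)
    (hD : Odd D) (hodd : ∀ k, k < D → Odd k → HH A (A.card - 1 + k) = 0)
    (hH : HH A (A.card - 1 + D) ≠ 0) :
    (((v : ZMod p) - (u + D : ℕ)) * ((w : ZMod p) - (u + D : ℕ)) * ((w : ZMod p) - v)) *
      ((u.factorial : ZMod p) * ((v + D).factorial : ZMod p) * ((w + D).factorial : ZMod p)) +
    ((((v + D : ℕ) : ZMod p) - u) * ((w : ZMod p) - u) * ((w : ZMod p) - (v + D : ℕ))) *
      (((u + D).factorial : ZMod p) * (v.factorial : ZMod p) * ((w + D).factorial : ZMod p)) +
    (((v : ZMod p) - u) * (((w + D : ℕ) : ZMod p) - u) * (((w + D : ℕ) : ZMod p) - v)) *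
      (((u + D).factorial : ZMod p) * ((v + D).factorial : ZMod p) * (w.factorial : ZMod p))
      = 0 := by
  have hDpos := hD.pos
  have key := D_odd (n := 1) (t := t) (D := D) (A := A) (by omega) hA (by omega) (by omega)
      (by omega) ![u, v, w]
      (by intro l; fin_cases l <;> simp <;> omega)
      (by intro l; fin_cases l <;> simp <;> omega) hD hodd
      (by simp [Fin.sum_univ_succ]; omega)
  have hsum := (mul_eq_zero.1 key).resolve_left hH
  rw [Fin.sum_univ_three, update_three_0, update_three_1, update_three_2] at hsum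
  simp only [Matrix.cons_val_zero, Matrix.cons_val_one, Matrix.cons_val_two, Matrix.head_cons,
    Matrix.tail_cons, Matrix.cons_val] at hsum
  have hne : ∀ a b c : ℕ, a + b + c = p + 2 → 1 ≤ a → 1 ≤ b → 1 ≤ c → c ≠ 2 → c < p →
      (a : ZMod p) + (b : ZMod p) ≠ 0 := by
    intro a b c h1 ha hb hc1 h2 h3 h4
    have h5 : ((a + b : ℕ) : ZMod p) = 0 := by push_cast; exact h4
    rw [ZMod.natCast_eq_zero_iff] at h5
    obtain ⟨m, hm⟩ := h5
    have hc1 : m < 2 := by
      by_contra hc2
      push Not at hc2
      have : p * 2 ≤ p * m := Nat.mul_le_mul_left _ hc2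
      omega
    interval_cases m <;> omega
  have k0 := Kf_three (p := p) (a := u + D) (b := v) (c := w) (by omega) (by omega)
      (by omega) (by omega) (by omega) (by omega) (by omega) (by omega)
      (hne _ _ w (by omega) (by omega) (by omega) (by omega) hw2 (by omega))
      (hne _ _ v (by omega) (by omega) (by omega) (by omega) hv2 (by omega))
      (hne _ _ (u + D) (by omega) (by omega) (by omega) (by omega) hu3 (by omega))
  have k1 := Kf_three (p := p) (a := u) (b := v + D) (c := w) (by omega) (by omega)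
      (by omega) (by omega) (by omega) (by omega) (by omega) (by omega)
      (hne _ _ w (by omega) (by omega) (by omega) (by omega) hw2 (by omega))
      (hne _ _ (v + D) (by omega) (by omega) (by omega) (by omega) hv3 (by omega))
      (hne _ _ u (by omega) (by omega) (by omega) (by omega) hu2 (by omega))
  have k2 := Kf_three (p := p) (a := u) (b := v) (c := w + D) (by omega) (by omega)
      (by omega) (by omega) (by omega) (by omega) (by omega) (by omega)
      (hne _ _ (w + D) (by omega) (by omega) (by omega) (by omega) hw3 (by omega))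
      (hne _ _ v (by omega) (by omega) (by omega) (by omega) hv2 (by omega))
      (hne _ _ u (by omega) (by omega) (by omega) (by omega) hu2 (by omega))
  linear_combination
    ((u.factorial : ZMod p) * ((v + D).factorial : ZMod p) *
        ((w + D).factorial : ZMod p)) * k0 +
    (((u + D).factorial : ZMod p) * (v.factorial : ZMod p) *
        ((w + D).factorial : ZMod p)) * k1 +
    (((u + D).factorial : ZMod p) * ((v + D).factorial : ZMod p) *
        (w.factorial : ZMod p)) * k2 -
    (u.factorial : ZMod p) * (v.factorial : ZMod p) *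
      (w.factorial : ZMod p) * ((u + D).factorial : ZMod p) * ((v + D).factorial : ZMod p) *
      ((w + D).factorial : ZMod p) * hsum

end Pool.Agent.H19.HP
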