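import Mathlib
import Pool.Agent.H19.HP.Four

set_option autoImplicit false

/-!
# Four summands: polynomial identities
-/

namespace Pool.Agent.H19.HP

variable {F : Type*} [Field F]

/-- The product of the pair sums. -/
def MM (a b c e : F) : F := (b + a) * (c + a) * (e + a) * (c + b) * (e + b) * (e + c)

/-- The product of the differences. -/
def NN (a b c e : F) : F := (b - a) * (c - a) * (e - a) * (c - b) * (e - b) * (e - c)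

/-- The shifted cube sum. -/
def CC (a b c e : F) : F := a ^ 3 + b ^ 3 + c ^ 3 + e ^ 3 - 512

lemma alg_S1 (x q1 q2 q3 : F)
    (h1 : q1 * MM (-1 - 4 * x) (-1 + 4 * x) (3) (7) = NN (-1 - 4 * x) (-1 + 4 * x) (3) (7))
    (h2 : q2 * MM (-1 - 4 * x) (-1) (3 + 4 * x) (7) = NN (-1 - 4 * x) (-1) (3 + 4 * x) (7))
    (h3 : q3 * MM (-1 - 4 * x) (-1) (3) (7 + 4 * x) = NN (-1 - 4 * x) (-1) (3) (7 + 4 * x))
    (h : q1 * CC (-1 - 4 * x) (-1 + 4 * x) (3) (7) * (21 + 40 * x + 16 * x ^ 2) +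
      q2 * CC (-1 - 4 * x) (-1) (3 + 4 * x) (7) * (21 + 12 * x) +
      q3 * CC (-1 - 4 * x) (-1) (3) (7 + 4 * x) * (21) = 0) :
    (-2 ^ 30 * 3 ^ 3) * ((-3 + 2 * x) * (-2 + x) * (-1 + 2 * x) ^ 2 * x * (1 + 2 * x) ^ 3 * (1 + x) ^ 2 * (2 + x) * (3 + 2 * x) ^ 2 * (5 + 2 * x)) *
      (105 - 4 * x - 4 * x ^ 2 + 8 * x ^ 3) = 0 := by
  have e : MM (-1 - 4 * x) (-1 + 4 * x) (3) (7) * MM (-1 - 4 * x) (-1) (3 + 4 * x) (7) *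
      MM (-1 - 4 * x) (-1) (3) (7 + 4 * x) * (q1 * CC (-1 - 4 * x) (-1 + 4 * x) (3) (7) * (21 + 40 * x + 16 * x ^ 2) +
      q2 * CC (-1 - 4 * x) (-1) (3 + 4 * x) (7) * (21 + 12 * x) +
      q3 * CC (-1 - 4 * x) (-1) (3) (7 + 4 * x) * (21)) = 0 := by rw [h, mul_zero]
  have e2 : NN (-1 - 4 * x) (-1 + 4 * x) (3) (7) * CC (-1 - 4 * x) (-1 + 4 * x) (3) (7) * (21 + 40 * x + 16 * x ^ 2) * MM (-1 - 4 * x) (-1) (3 + 4 * x) (7) *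
      MM (-1 - 4 * x) (-1) (3) (7 + 4 * x) + NN (-1 - 4 * x) (-1) (3 + 4 * x) (7) * CC (-1 - 4 * x) (-1) (3 + 4 * x) (7) * (21 + 12 * x) *
      MM (-1 - 4 * x) (-1 + 4 * x) (3) (7) * MM (-1 - 4 * x) (-1) (3) (7 + 4 * x) + NN (-1 - 4 * x) (-1) (3) (7 + 4 * x) * CC (-1 - 4 * x) (-1) (3) (7 + 4 * x) * (21) *
      MM (-1 - 4 * x) (-1 + 4 * x) (3) (7) * MM (-1 - 4 * x) (-1) (3 + 4 * x) (7) = 0 := by
    rw [← h1, ← h2, ← h3]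
    linear_combination e
  unfold MM NN CC at e2
  linear_combination e2

lemma alg_S2 (x q1 q2 q3 : F)
    (h1 : q1 * MM (7 - 4 * x) (-5 + 4 * x) (-1) (7) = NN (7 - 4 * x) (-5 + 4 * x) (-1) (7))
    (h2 : q2 * MM (7 - 4 * x) (-5) (-1 + 4 * x) (7) = NN (7 - 4 * x) (-5) (-1 + 4 * x) (7))
    (h3 : q3 * MM (7 - 4 * x) (-5) (-1) (7 + 4 * x) = NN (7 - 4 * x) (-5) (-1) (7 + 4 * x))
    (h : q1 * CC (7 - 4 * x) (-5 + 4 * x) (-1) (7) * (-21 + 44 * x + 144 * x ^ 2 + 64 * x ^ 3) +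
      q2 * CC (7 - 4 * x) (-5) (-1 + 4 * x) (7) * (-21 - 40 * x - 16 * x ^ 2) +
      q3 * CC (7 - 4 * x) (-5) (-1) (7 + 4 * x) * (-21) = 0) :
    (-2 ^ 30 * 3 ^ 3 * 7 ^ 1) * ((-7 + 2 * x) * (-3 + 2 * x) ^ 3 * (-3 + x) * (-2 + x) * (-1 + 2 * x) ^ 2 * x * (1 + 2 * x) * (1 + x) * (3 + 2 * x) ^ 2) *
      (42 - 169 * x + 236 * x ^ 2 - 204 * x ^ 3 - 104 * x ^ 4 + 64 * x ^ 5) = 0 := by
  have e : MM (7 - 4 * x) (-5 + 4 * x) (-1) (7) * MM (7 - 4 * x) (-5) (-1 + 4 * x) (7) *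
      MM (7 - 4 * x) (-5) (-1) (7 + 4 * x) * (q1 * CC (7 - 4 * x) (-5 + 4 * x) (-1) (7) * (-21 + 44 * x + 144 * x ^ 2 + 64 * x ^ 3) +
      q2 * CC (7 - 4 * x) (-5) (-1 + 4 * x) (7) * (-21 - 40 * x - 16 * x ^ 2) +
      q3 * CC (7 - 4 * x) (-5) (-1) (7 + 4 * x) * (-21)) = 0 := by rw [h, mul_zero]
  have e2 : NN (7 - 4 * x) (-5 + 4 * x) (-1) (7) * CC (7 - 4 * x) (-5 + 4 * x) (-1) (7) * (-21 + 44 * x + 144 * x ^ 2 + 64 * x ^ 3) * MM (7 - 4 * x) (-5) (-1 + 4 * x) (7) *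
      MM (7 - 4 * x) (-5) (-1) (7 + 4 * x) + NN (7 - 4 * x) (-5) (-1 + 4 * x) (7) * CC (7 - 4 * x) (-5) (-1 + 4 * x) (7) * (-21 - 40 * x - 16 * x ^ 2) *
      MM (7 - 4 * x) (-5 + 4 * x) (-1) (7) * MM (7 - 4 * x) (-5) (-1) (7 + 4 * x) + NN (7 - 4 * x) (-5) (-1) (7 + 4 * x) * CC (7 - 4 * x) (-5) (-1) (7 + 4 * x) * (-21) *
      MM (7 - 4 * x) (-5 + 4 * x) (-1) (7) * MM (7 - 4 * x) (-5) (-1 + 4 * x) (7) = 0 := by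
    rw [← h1, ← h2, ← h3]
    linear_combination e
  unfold MM NN CC at e2
  linear_combination e2

lemma alg_T1 (x q1 q2 q3 : F)
    (h1 : q1 * MM (-3 - 4 * x) (-3 + 4 * x) (5) (9) = NN (-3 - 4 * x) (-3 + 4 * x) (5) (9))
    (h2 : q2 * MM (-3 - 4 * x) (-3) (5 + 4 * x) (9) = NN (-3 - 4 * x) (-3) (5 + 4 * x) (9))
    (h3 : q3 * MM (-3 - 4 * x) (-3) (5) (9 + 4 * x) = NN (-3 - 4 * x) (-3) (5) (9 + 4 * x))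
    (h : q1 * CC (-3 - 4 * x) (-3 + 4 * x) (5) (9) * (45 + 236 * x + 240 * x ^ 2 + 64 * x ^ 3) +
      q2 * CC (-3 - 4 * x) (-3) (5 + 4 * x) (9) * (45 + 20 * x) +
      q3 * CC (-3 - 4 * x) (-3) (5) (9 + 4 * x) * (45) = 0) :
    (-2 ^ 30 * 3 ^ 4) * ((-3 + 2 * x) ^ 2 * (-1 + 2 * x) * x * (1 + 2 * x) ^ 2 * (1 + x) * (2 + x) * (3 + 2 * x) ^ 3 * (3 + x) * (3 + 4 * x) * (4 + x) * (7 + 2 * x)) *
      (105 - 48 * x - 20 * x ^ 2 + 8 * x ^ 3) = 0 := by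
  have e : MM (-3 - 4 * x) (-3 + 4 * x) (5) (9) * MM (-3 - 4 * x) (-3) (5 + 4 * x) (9) *
      MM (-3 - 4 * x) (-3) (5) (9 + 4 * x) * (q1 * CC (-3 - 4 * x) (-3 + 4 * x) (5) (9) * (45 + 236 * x + 240 * x ^ 2 + 64 * x ^ 3) +
      q2 * CC (-3 - 4 * x) (-3) (5 + 4 * x) (9) * (45 + 20 * x) +
      q3 * CC (-3 - 4 * x) (-3) (5) (9 + 4 * x) * (45)) = 0 := by rw [h, mul_zero]
  have e2 : NN (-3 - 4 * x) (-3 + 4 * x) (5) (9) * CC (-3 - 4 * x) (-3 + 4 * x) (5) (9) * (45 + 236 * x + 240 * x ^ 2 + 64 * x ^ 3) * MM (-3 - 4 * x) (-3) (5 + 4 * x) (9) *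
      MM (-3 - 4 * x) (-3) (5) (9 + 4 * x) + NN (-3 - 4 * x) (-3) (5 + 4 * x) (9) * CC (-3 - 4 * x) (-3) (5 + 4 * x) (9) * (45 + 20 * x) *
      MM (-3 - 4 * x) (-3 + 4 * x) (5) (9) * MM (-3 - 4 * x) (-3) (5) (9 + 4 * x) + NN (-3 - 4 * x) (-3) (5) (9 + 4 * x) * CC (-3 - 4 * x) (-3) (5) (9 + 4 * x) * (45) *
      MM (-3 - 4 * x) (-3 + 4 * x) (5) (9) * MM (-3 - 4 * x) (-3) (5 + 4 * x) (9) = 0 := by
    rw [← h1, ← h2, ← h3]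
    linear_combination e
  unfold MM NN CC at e2
  linear_combination e2

lemma alg_T2 (x q1 q2 q3 : F)
    (h1 : q1 * MM (1 - 4 * x) (-3 + 4 * x) (1) (9) = NN (1 - 4 * x) (-3 + 4 * x) (1) (9))
    (h2 : q2 * MM (1 - 4 * x) (-3) (1 + 4 * x) (9) = NN (1 - 4 * x) (-3) (1 + 4 * x) (9))
    (h3 : q3 * MM (1 - 4 * x) (-3) (1) (9 + 4 * x) = NN (1 - 4 * x) (-3) (1) (9 + 4 * x))
    (h : q1 * CC (1 - 4 * x) (-3 + 4 * x) (1) (9) * (45 + 236 * x + 240 * x ^ 2 + 64 * x ^ 3) +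
      q2 * CC (1 - 4 * x) (-3) (1 + 4 * x) (9) * (45 + 56 * x + 16 * x ^ 2) +
      q3 * CC (1 - 4 * x) (-3) (1) (9 + 4 * x) * (45) = 0) :
    (2 ^ 30 * 3 ^ 2 * 5 ^ 1) * ((-5 + 2 * x) * (-1 + 2 * x) ^ 3 * (-1 + x) * x * (1 + 2 * x) ^ 2 * (1 + x) * (2 + x) * (3 + 2 * x) * (5 + 2 * x) ^ 2) *
      (1080 + 1341 * x + 240 * x ^ 2 - 580 * x ^ 3 - 120 * x ^ 4 + 64 * x ^ 5) = 0 := by
  have e : MM (1 - 4 * x) (-3 + 4 * x) (1) (9) * MM (1 - 4 * x) (-3) (1 + 4 * x) (9) *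
      MM (1 - 4 * x) (-3) (1) (9 + 4 * x) * (q1 * CC (1 - 4 * x) (-3 + 4 * x) (1) (9) * (45 + 236 * x + 240 * x ^ 2 + 64 * x ^ 3) +
      q2 * CC (1 - 4 * x) (-3) (1 + 4 * x) (9) * (45 + 56 * x + 16 * x ^ 2) +
      q3 * CC (1 - 4 * x) (-3) (1) (9 + 4 * x) * (45)) = 0 := by rw [h, mul_zero]
  have e2 : NN (1 - 4 * x) (-3 + 4 * x) (1) (9) * CC (1 - 4 * x) (-3 + 4 * x) (1) (9) * (45 + 236 * x + 240 * x ^ 2 + 64 * x ^ 3) * MM (1 - 4 * x) (-3) (1 + 4 * x) (9) *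
      MM (1 - 4 * x) (-3) (1) (9 + 4 * x) + NN (1 - 4 * x) (-3) (1 + 4 * x) (9) * CC (1 - 4 * x) (-3) (1 + 4 * x) (9) * (45 + 56 * x + 16 * x ^ 2) *
      MM (1 - 4 * x) (-3 + 4 * x) (1) (9) * MM (1 - 4 * x) (-3) (1) (9 + 4 * x) + NN (1 - 4 * x) (-3) (1) (9 + 4 * x) * CC (1 - 4 * x) (-3) (1) (9 + 4 * x) * (45) *
      MM (1 - 4 * x) (-3 + 4 * x) (1) (9) * MM (1 - 4 * x) (-3) (1 + 4 * x) (9) = 0 := by
    rw [← h1, ← h2, ← h3]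
    linear_combination e
  unfold MM NN CC at e2
  linear_combination e2

lemma alg_T3 (x q1 q2 q3 : F)
    (h1 : q1 * MM (5 - 4 * x) (-3 + 4 * x) (1) (5) = NN (5 - 4 * x) (-3 + 4 * x) (1) (5))
    (h2 : q2 * MM (5 - 4 * x) (-3) (1 + 4 * x) (5) = NN (5 - 4 * x) (-3) (1 + 4 * x) (5))
    (h3 : q3 * MM (5 - 4 * x) (-3) (1) (5 + 4 * x) = NN (5 - 4 * x) (-3) (1) (5 + 4 * x))
    (h : q1 * CC (5 - 4 * x) (-3 + 4 * x) (1) (5) * (5 + 24 * x + 16 * x ^ 2) +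
      q2 * CC (5 - 4 * x) (-3) (1 + 4 * x) (5) * (5 + 4 * x) +
      q3 * CC (5 - 4 * x) (-3) (1) (5 + 4 * x) * (5) = 0) :
    (-2 ^ 30 * 3 ^ 2 * 5 ^ 1) * ((-5 + 2 * x) * (-4 + x) * (-3 + 2 * x) ^ 2 * (-2 + x) * (-1 + 2 * x) ^ 3 * (-1 + x) * x * (1 + 2 * x) ^ 2 * (1 + x) * (3 + 2 * x)) *
      (-15 - 8 * x + 12 * x ^ 2 + 8 * x ^ 3) = 0 := by
  have e : MM (5 - 4 * x) (-3 + 4 * x) (1) (5) * MM (5 - 4 * x) (-3) (1 + 4 * x) (5) *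
      MM (5 - 4 * x) (-3) (1) (5 + 4 * x) * (q1 * CC (5 - 4 * x) (-3 + 4 * x) (1) (5) * (5 + 24 * x + 16 * x ^ 2) +
      q2 * CC (5 - 4 * x) (-3) (1 + 4 * x) (5) * (5 + 4 * x) +
      q3 * CC (5 - 4 * x) (-3) (1) (5 + 4 * x) * (5)) = 0 := by rw [h, mul_zero]
  have e2 : NN (5 - 4 * x) (-3 + 4 * x) (1) (5) * CC (5 - 4 * x) (-3 + 4 * x) (1) (5) * (5 + 24 * x + 16 * x ^ 2) * MM (5 - 4 * x) (-3) (1 + 4 * x) (5) *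
      MM (5 - 4 * x) (-3) (1) (5 + 4 * x) + NN (5 - 4 * x) (-3) (1 + 4 * x) (5) * CC (5 - 4 * x) (-3) (1 + 4 * x) (5) * (5 + 4 * x) *
      MM (5 - 4 * x) (-3 + 4 * x) (1) (5) * MM (5 - 4 * x) (-3) (1) (5 + 4 * x) + NN (5 - 4 * x) (-3) (1) (5 + 4 * x) * CC (5 - 4 * x) (-3) (1) (5 + 4 * x) * (5) *
      MM (5 - 4 * x) (-3 + 4 * x) (1) (5) * MM (5 - 4 * x) (-3) (1 + 4 * x) (5) = 0 := by
    rw [← h1, ← h2, ← h3]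
    linear_combination e
  unfold MM NN CC at e2
  linear_combination e2

end Pool.Agent.H19.HP
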