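import Mathlib
import Pool.Agent.H19.HP.FourAlg

set_option autoImplicit false

/-!
# Four summands: the polynomial conditions
-/

namespace Pool.Agent.H19.HP

open Finset Pool.Agent.H8.Ham

variable {p : ℕ} [hp : Fact p.Prime]

lemma int_ne_zero {z : ℤ} (h0 : z ≠ 0) (h1 : -(p : ℤ) < z) (h2 : z < p) : (z : ZMod p) ≠ 0 := by
  intro h
  rw [ZMod.intCast_zmod_eq_zero_iff_dvd] at h
  obtain ⟨c, hc⟩ := h
  have hp0 : (0 : ℤ) < p := by exact_mod_cast hp.out.pos
  rcases lt_trichotomy c 0 with h3 | h3 | h3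
  · have : (p : ℤ) * c ≤ p * (-1) := mul_le_mul_of_nonneg_left (by omega) hp0.le
    omega
  · rw [h3, mul_zero] at hc; exact h0 hc
  · have : (p : ℤ) * 1 ≤ p * c := mul_le_mul_of_nonneg_left (by omega) hp0.le
    omega

lemma four_ne (h : 4 < p) : (4 : ZMod p) ≠ 0 := by
  have := natCast_ne_zero_of_lt (p := p) (m := 4) (by norm_num) h
  exact_mod_cast this

lemma scaled {b u v w : ℕ} (h1 : 0 < b) (h2 : 0 < u) (h3 : 0 < v)
    (hbu : b + u < p) (hbv : b + v < p) (hbw : b + w < p)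
    (huv : u + v < p) (huw : u + w < p) (hvw : v + w < p) {β υ ν ω : ZMod p}
    (hb : 4 * (b : ZMod p) = β) (hu : 4 * (u : ZMod p) = υ) (hv : 4 * (v : ZMod p) = ν)
    (hw : 4 * (w : ZMod p) = ω) :
    ∃ q, 64 * XX p b u v w = q * CC β υ ν ω ∧ q * MM β υ ν ω = NN β υ ν ω := by
  have hne : ∀ a b : ℕ, 0 < a → a + b < p → (b : ZMod p) + (a : ZMod p) ≠ 0 := by
    intro a b h1 h2
    have := natCast_ne_zero_of_lt (p := p) (m := a + b) (by omega) h2
    push_cast at this; rwa [add_comm]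
  refine ⟨PH4 (b : ZMod p) u v w, ?_, ?_⟩
  · rw [XX, CC, ← hb, ← hu, ← hv, ← hw]; ring
  · have n1 := hne b u h1 hbu
    have n2 := hne b v h1 hbv
    have n3 := hne b w h1 hbw
    have n4 := hne u v h2 huv
    have n5 := hne u w h2 huw
    have n6 := hne v w h3 hvw
    have e1 : PH4 (b : ZMod p) u v w * MM (b : ZMod p) u v w = NN (b : ZMod p) u v w := by
      unfold PH4 MM NN
      field_simp
    have e2 : MM β υ ν ω = 4 ^ 6 * MM (b : ZMod p) u v w := by
      rw [← hb, ← hu, ← hv, ← hw]; unfold MM; ring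
    have e3 : NN β υ ν ω = 4 ^ 6 * NN (b : ZMod p) u v w := by
      rw [← hb, ← hu, ← hv, ← hw]; unfold NN; ring
    rw [e2, e3]
    linear_combination 4 ^ 6 * e1

/-- Removing the factorials: offsets `0, 1, 2`. -/
lemma offs_012 {g D : ℕ} (hg : g + D + 2 < p) (X1 X2 X3 : ZMod p)
    (h : X1 * ((g.factorial : ZMod p) * ((g + 1 + D).factorial : ZMod p) *
        ((g + 2 + D).factorial : ZMod p)) +
      X2 * (((g + D).factorial : ZMod p) * ((g + 1).factorial : ZMod p) *
        ((g + 2 + D).factorial : ZMod p)) +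
      X3 * (((g + D).factorial : ZMod p) * ((g + 1 + D).factorial : ZMod p) *
        ((g + 2).factorial : ZMod p)) = 0) :
    X1 * (((g : ZMod p) + D + 1) * ((g : ZMod p) + D + 2)) +
      X2 * (((g : ZMod p) + 1) * ((g : ZMod p) + D + 2)) +
      X3 * (((g : ZMod p) + 1) * ((g : ZMod p) + 2)) = 0 := by
  have f1 : (g.factorial : ZMod p) ≠ 0 := factorial_ne_zero (by omega)
  have f2 : ((g + D).factorial : ZMod p) ≠ 0 := factorial_ne_zero (by omega)
  have f3 : ((g : ZMod p) + D + 1) ≠ 0 := by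
    have := natCast_ne_zero_of_lt (p := p) (m := g + D + 1) (by omega) (by omega)
    push_cast at this; exact this
  have e1 : ((g + 1).factorial : ZMod p) = ((g : ZMod p) + 1) * (g.factorial : ZMod p) := by
    rw [Nat.factorial_succ]; push_cast; ring
  have e2 : ((g + 2).factorial : ZMod p) = ((g : ZMod p) + 2) * (((g : ZMod p) + 1) *
      (g.factorial : ZMod p)) := by
    rw [Nat.factorial_succ, Nat.factorial_succ]; push_cast; ring
  have e3 : ((g + 1 + D).factorial : ZMod p) = ((g : ZMod p) + D + 1) *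
      ((g + D).factorial : ZMod p) := by
    rw [show g + 1 + D = (g + D) + 1 by omega, Nat.factorial_succ]; push_cast; ring
  have e4 : ((g + 2 + D).factorial : ZMod p) = ((g : ZMod p) + D + 2) * (((g : ZMod p) + D + 1) *
      ((g + D).factorial : ZMod p)) := by
    rw [show g + 2 + D = (g + D) + 2 by omega, Nat.factorial_succ, Nat.factorial_succ]
    push_cast; ring
  rw [e1, e2, e3, e4] at h
  refine mul_left_cancel₀ (mul_ne_zero (mul_ne_zero f1 (pow_ne_zero 2 f2)) f3) ?_
  rw [mul_zero, ← h]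
  ring

/-- Removing the factorials: offsets `0, 1, 3`. -/
lemma offs_013 {g D : ℕ} (hg : g + D + 3 < p) (X1 X2 X3 : ZMod p)
    (h : X1 * ((g.factorial : ZMod p) * ((g + 1 + D).factorial : ZMod p) *
        ((g + 3 + D).factorial : ZMod p)) +
      X2 * (((g + D).factorial : ZMod p) * ((g + 1).factorial : ZMod p) *
        ((g + 3 + D).factorial : ZMod p)) +
      X3 * (((g + D).factorial : ZMod p) * ((g + 1 + D).factorial : ZMod p) *
        ((g + 3).factorial : ZMod p)) = 0) :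
    X1 * (((g : ZMod p) + D + 1) * ((g : ZMod p) + D + 2) * ((g : ZMod p) + D + 3)) +
      X2 * (((g : ZMod p) + 1) * ((g : ZMod p) + D + 2) * ((g : ZMod p) + D + 3)) +
      X3 * (((g : ZMod p) + 1) * ((g : ZMod p) + 2) * ((g : ZMod p) + 3)) = 0 := by
  have f1 : (g.factorial : ZMod p) ≠ 0 := factorial_ne_zero (by omega)
  have f2 : ((g + D).factorial : ZMod p) ≠ 0 := factorial_ne_zero (by omega)
  have f3 : ((g : ZMod p) + D + 1) ≠ 0 := by
    have := natCast_ne_zero_of_lt (p := p) (m := g + D + 1) (by omega) (by omega)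
    push_cast at this; exact this
  have e1 : ((g + 1).factorial : ZMod p) = ((g : ZMod p) + 1) * (g.factorial : ZMod p) := by
    rw [Nat.factorial_succ]; push_cast; ring
  have e2 : ((g + 3).factorial : ZMod p) = ((g : ZMod p) + 3) * (((g : ZMod p) + 2) *
      (((g : ZMod p) + 1) * (g.factorial : ZMod p))) := by
    rw [Nat.factorial_succ, Nat.factorial_succ, Nat.factorial_succ]; push_cast; ring
  have e3 : ((g + 1 + D).factorial : ZMod p) = ((g : ZMod p) + D + 1) *
      ((g + D).factorial : ZMod p) := by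
    rw [show g + 1 + D = (g + D) + 1 by omega, Nat.factorial_succ]; push_cast; ring
  have e4 : ((g + 3 + D).factorial : ZMod p) = ((g : ZMod p) + D + 3) * (((g : ZMod p) + D + 2) *
      (((g : ZMod p) + D + 1) * ((g + D).factorial : ZMod p))) := by
    rw [show g + 3 + D = (g + D) + 3 by omega, Nat.factorial_succ, Nat.factorial_succ,
      Nat.factorial_succ]
    push_cast; ring
  rw [e1, e2, e3, e4] at h
  refine mul_left_cancel₀ (mul_ne_zero (mul_ne_zero f1 (pow_ne_zero 2 f2)) f3) ?_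
  rw [mul_zero, ← h]
  ring

/-- Removing the factorials: offsets `0, 2, 3`. -/
lemma offs_023 {g D : ℕ} (hg : g + D + 3 < p) (X1 X2 X3 : ZMod p)
    (h : X1 * ((g.factorial : ZMod p) * ((g + 2 + D).factorial : ZMod p) *
        ((g + 3 + D).factorial : ZMod p)) +
      X2 * (((g + D).factorial : ZMod p) * ((g + 2).factorial : ZMod p) *
        ((g + 3 + D).factorial : ZMod p)) +
      X3 * (((g + D).factorial : ZMod p) * ((g + 2 + D).factorial : ZMod p) *
        ((g + 3).factorial : ZMod p)) = 0) :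
    X1 * (((g : ZMod p) + D + 1) * ((g : ZMod p) + D + 2) * ((g : ZMod p) + D + 3)) +
      X2 * (((g : ZMod p) + 1) * ((g : ZMod p) + 2) * ((g : ZMod p) + D + 3)) +
      X3 * (((g : ZMod p) + 1) * ((g : ZMod p) + 2) * ((g : ZMod p) + 3)) = 0 := by
  have f1 : (g.factorial : ZMod p) ≠ 0 := factorial_ne_zero (by omega)
  have f2 : ((g + D).factorial : ZMod p) ≠ 0 := factorial_ne_zero (by omega)
  have f3 : ((g : ZMod p) + D + 1) ≠ 0 := by
    have := natCast_ne_zero_of_lt (p := p) (m := g + D + 1) (by omega) (by omega)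
    push_cast at this; exact this
  have f4 : ((g : ZMod p) + D + 2) ≠ 0 := by
    have := natCast_ne_zero_of_lt (p := p) (m := g + D + 2) (by omega) (by omega)
    push_cast at this; exact this
  have e1 : ((g + 2).factorial : ZMod p) = ((g : ZMod p) + 2) * (((g : ZMod p) + 1) *
      (g.factorial : ZMod p)) := by
    rw [Nat.factorial_succ, Nat.factorial_succ]; push_cast; ring
  have e2 : ((g + 3).factorial : ZMod p) = ((g : ZMod p) + 3) * (((g : ZMod p) + 2) *
      (((g : ZMod p) + 1) * (g.factorial : ZMod p))) := by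
    rw [Nat.factorial_succ, Nat.factorial_succ, Nat.factorial_succ]; push_cast; ring
  have e3 : ((g + 2 + D).factorial : ZMod p) = ((g : ZMod p) + D + 2) * (((g : ZMod p) + D + 1) *
      ((g + D).factorial : ZMod p)) := by
    rw [show g + 2 + D = (g + D) + 2 by omega, Nat.factorial_succ, Nat.factorial_succ]
    push_cast; ring
  have e4 : ((g + 3 + D).factorial : ZMod p) = ((g : ZMod p) + D + 3) * (((g : ZMod p) + D + 2) *
      (((g : ZMod p) + D + 1) * ((g + D).factorial : ZMod p))) := by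
    rw [show g + 3 + D = (g + D) + 3 by omega, Nat.factorial_succ, Nat.factorial_succ,
      Nat.factorial_succ]
    push_cast; ring
  rw [e1, e2, e3, e4] at h
  refine mul_left_cancel₀ (mul_ne_zero (mul_ne_zero (mul_ne_zero f1 (pow_ne_zero 2 f2)) f3) f4) ?_
  rw [mul_zero, ← h]
  ring

section shapes

variable {A : Finset (ZMod p)} {d D : ℕ}

theorem shape_S1 (hp0 : 29 ≤ p) (hA : WeakZeroSumFree p 4 A) (hd : A.card = d)
    (hdp : 4 * d = p + 7) (hD : Odd D) (hDd : D + 3 ≤ d)
    (hodd : ∀ k, k < D → Odd k → HH A (A.card - 1 + k) = 0)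
    (hH : HH A (A.card - 1 + D) ≠ 0) :
    105 - 4 * (D : ZMod p) - 4 * (D : ZMod p) ^ 2 + 8 * (D : ZMod p) ^ 3 = 0 := by
  have hD1 := hD.pos
  obtain ⟨g, hg⟩ : ∃ g, d = g + 2 := ⟨d - 2, by omega⟩
  obtain ⟨b, hb⟩ : ∃ b, b + D = g := ⟨g - D, by omega⟩
  have key := four_eq (by omega) hA hd b g (g + 1) (g + 2) (by omega) (by omega) (by omega)
    (by omega) (by omega) (by omega) (by omega) (by omega) (by omega) (by omega)
    (Or.inl hb) hD hodd hH
  have key2 := offs_012 (by omega) _ _ _ key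
  set x : ZMod p := (D : ZMod p) with hx
  have hG : 4 * (g : ZMod p) = -1 := by
    have : ((4 * (g + 2) : ℕ) : ZMod p) = ((p + 7 : ℕ) : ZMod p) := by rw [← hg, hdp]
    push_cast at this
    rw [CharP.cast_eq_zero (ZMod p) p] at this
    linear_combination this
  have hB : 4 * (b : ZMod p) = -1 - 4 * x := by
    have : ((b + D : ℕ) : ZMod p) = ((g : ℕ) : ZMod p) := by rw [hb]
    push_cast at this
    linear_combination hG + 4 * this
  have c1 : 4 * ((g + 1 : ℕ) : ZMod p) = 3 := by push_cast; linear_combination hG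
  have c2 : 4 * ((g + 2 : ℕ) : ZMod p) = 7 := by push_cast; linear_combination hG
  have c3 : 4 * ((g + D : ℕ) : ZMod p) = -1 + 4 * x := by push_cast; linear_combination hG
  have c4 : 4 * ((g + 1 + D : ℕ) : ZMod p) = 3 + 4 * x := by push_cast; linear_combination hG
  have c5 : 4 * ((g + 2 + D : ℕ) : ZMod p) = 7 + 4 * x := by push_cast; linear_combination hG
  obtain ⟨q1, a1, b1⟩ := scaled (p := p) (b := b) (u := g + D) (v := g + 1) (w := g + 2)
    (by omega) (by omega) (by omega) (by omega) (by omega) (by omega) (by omega) (by omega) (by omega) hB c3 c1 c2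
  obtain ⟨q2, a2, b2⟩ := scaled (p := p) (b := b) (u := g) (v := g + 1 + D) (w := g + 2)
    (by omega) (by omega) (by omega) (by omega) (by omega) (by omega) (by omega) (by omega) (by omega) hB hG c4 c2
  obtain ⟨q3, a3, b3⟩ := scaled (p := p) (b := b) (u := g) (v := g + 1) (w := g + 2 + D)
    (by omega) (by omega) (by omega) (by omega) (by omega) (by omega) (by omega) (by omega) (by omega) hB hG c1 c5
  have h := alg_S1 x q1 q2 q3 b1 b2 b3 (by
    rw [← a1, ← a2, ← a3]
    have e1 : (21 + 40 * x + 16 * x ^ 2) = (4 * (g : ZMod p) + 4 * x + 4) * (4 * (g : ZMod p) + 4 * x + 8) := by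
      rw [hG]; ring
    have e2 : (21 + 12 * x) = (4 * (g : ZMod p) + 4) * (4 * (g : ZMod p) + 4 * x + 8) := by
      rw [hG]; ring
    have e3 : (21 : ZMod p) = (4 * (g : ZMod p) + 4) * (4 * (g : ZMod p) + 8) := by
      rw [hG]; norm_num
    linear_combination (64 * 16) * key2 + 64 * XX p b (g + D) (g + 1) (g + 2) * e1 +
      64 * XX p b g (g + 1 + D) (g + 2) * e2 + 64 * XX p b g (g + 1) (g + 2 + D) * e3)
  refine (mul_eq_zero.1 h).resolve_left ?_
  have i1 : ∀ z : ℤ, z ≠ 0 → -(p : ℤ) < z → z < p → (z : ZMod p) ≠ 0 := fun z => int_ne_zero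
  obtain ⟨D', hD'⟩ := hD
  have m0 := i1 (-3 + 2 * D) (by omega) (by omega) (by omega)
  have m1 := i1 (-2 + D) (by omega) (by omega) (by omega)
  have m2 := i1 (-1 + 2 * D) (by omega) (by omega) (by omega)
  have m3 := i1 (D) (by omega) (by omega) (by omega)
  have m4 := i1 (1 + 2 * D) (by omega) (by omega) (by omega)
  have m5 := i1 (1 + D) (by omega) (by omega) (by omega)
  have m6 := i1 (2 + D) (by omega) (by omega) (by omega)
  have m7 := i1 (3 + 2 * D) (by omega) (by omega) (by omega)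
  have m8 := i1 (5 + 2 * D) (by omega) (by omega) (by omega)
  push_cast at m0 m1 m2 m3 m4 m5 m6 m7 m8
  have nn2 : (2 : ZMod p) ≠ 0 := by exact_mod_cast natCast_ne_zero_of_lt (p := p) (m := 2) (by norm_num) (by omega)
  have nn3 : (3 : ZMod p) ≠ 0 := by exact_mod_cast natCast_ne_zero_of_lt (p := p) (m := 3) (by norm_num) (by omega)
  exact mul_ne_zero (mul_ne_zero (neg_ne_zero.2 (pow_ne_zero _ nn2)) (pow_ne_zero _ nn3))
    (mul_ne_zero (mul_ne_zero (mul_ne_zero (mul_ne_zero (mul_ne_zero (mul_ne_zero (mul_ne_zero (mul_ne_zero m0 m1) (pow_ne_zero _ m2)) m3) (pow_ne_zero _ m4)) (pow_ne_zero _ m5)) m6) (pow_ne_zero _ m7)) m8)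

theorem shape_S2 (hp0 : 29 ≤ p) (hA : WeakZeroSumFree p 4 A) (hd : A.card = d)
    (hdp : 4 * d = p + 7) (hD : Odd D) (hDd : D + 1 ≤ d) (hD3 : D ≠ 3)
    (hodd : ∀ k, k < D → Odd k → HH A (A.card - 1 + k) = 0)
    (hH : HH A (A.card - 1 + D) ≠ 0) :
    42 - 169 * (D : ZMod p) + 236 * (D : ZMod p) ^ 2 - 204 * (D : ZMod p) ^ 3 - 104 * (D : ZMod p) ^ 4 + 64 * (D : ZMod p) ^ 5 = 0 := by
  have hD1 := hD.pos
  obtain ⟨g, hg⟩ : ∃ g, d = g + 3 := ⟨d - 3, by omega⟩
  obtain ⟨b, hb⟩ : ∃ b, b + D = g + 3 := ⟨g + 3 - D, by omega⟩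
  have key := four_eq (by omega) hA hd b g (g + 1) (g + 3) (by omega) (by omega) (by omega)
    (by omega) (by omega) (by omega) (by omega) (by omega) (by omega) (by omega)
    (Or.inr (Or.inr hb)) hD hodd hH
  have key2 := offs_013 (by omega) _ _ _ key
  set x : ZMod p := (D : ZMod p) with hx
  have hG : 4 * (g : ZMod p) = -5 := by
    have : ((4 * (g + 3) : ℕ) : ZMod p) = ((p + 7 : ℕ) : ZMod p) := by rw [← hg, hdp]
    push_cast at this
    rw [CharP.cast_eq_zero (ZMod p) p] at this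
    linear_combination this
  have hB : 4 * (b : ZMod p) = 7 - 4 * x := by
    have : ((b + D : ℕ) : ZMod p) = ((g + 3 : ℕ) : ZMod p) := by rw [hb]
    push_cast at this
    linear_combination hG + 4 * this
  have c1 : 4 * ((g + 1 : ℕ) : ZMod p) = -1 := by push_cast; linear_combination hG
  have c2 : 4 * ((g + 3 : ℕ) : ZMod p) = 7 := by push_cast; linear_combination hG
  have c3 : 4 * ((g + D : ℕ) : ZMod p) = -5 + 4 * x := by push_cast; linear_combination hG
  have c4 : 4 * ((g + 1 + D : ℕ) : ZMod p) = -1 + 4 * x := by push_cast; linear_combination hG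
  have c5 : 4 * ((g + 3 + D : ℕ) : ZMod p) = 7 + 4 * x := by push_cast; linear_combination hG
  obtain ⟨q1, a1, b1⟩ := scaled (p := p) (b := b) (u := g + D) (v := g + 1) (w := g + 3)
    (by omega) (by omega) (by omega) (by omega) (by omega) (by omega) (by omega) (by omega) (by omega) hB c3 c1 c2
  obtain ⟨q2, a2, b2⟩ := scaled (p := p) (b := b) (u := g) (v := g + 1 + D) (w := g + 3)
    (by omega) (by omega) (by omega) (by omega) (by omega) (by omega) (by omega) (by omega) (by omega) hB hG c4 c2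
  obtain ⟨q3, a3, b3⟩ := scaled (p := p) (b := b) (u := g) (v := g + 1) (w := g + 3 + D)
    (by omega) (by omega) (by omega) (by omega) (by omega) (by omega) (by omega) (by omega) (by omega) hB hG c1 c5
  have h := alg_S2 x q1 q2 q3 b1 b2 b3 (by
    rw [← a1, ← a2, ← a3]
    have e1 : (-21 + 44 * x + 144 * x ^ 2 + 64 * x ^ 3) = (4 * (g : ZMod p) + 4 * x + 4) * (4 * (g : ZMod p) + 4 * x + 8) * (4 * (g : ZMod p) + 4 * x + 12) := by
      rw [hG]; ring
    have e2 : (-21 - 40 * x - 16 * x ^ 2) = (4 * (g : ZMod p) + 4) * (4 * (g : ZMod p) + 4 * x + 8) * (4 * (g : ZMod p) + 4 * x + 12) := by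
      rw [hG]; ring
    have e3 : ((-21) : ZMod p) = (4 * (g : ZMod p) + 4) * (4 * (g : ZMod p) + 8) * (4 * (g : ZMod p) + 12) := by
      rw [hG]; norm_num
    linear_combination (64 * 64) * key2 + 64 * XX p b (g + D) (g + 1) (g + 3) * e1 +
      64 * XX p b g (g + 1 + D) (g + 3) * e2 + 64 * XX p b g (g + 1) (g + 3 + D) * e3)
  refine (mul_eq_zero.1 h).resolve_left ?_
  have i1 : ∀ z : ℤ, z ≠ 0 → -(p : ℤ) < z → z < p → (z : ZMod p) ≠ 0 := fun z => int_ne_zero
  obtain ⟨D', hD'⟩ := hD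
  have m0 := i1 (-7 + 2 * D) (by omega) (by omega) (by omega)
  have m1 := i1 (-3 + 2 * D) (by omega) (by omega) (by omega)
  have m2 := i1 (-3 + D) (by omega) (by omega) (by omega)
  have m3 := i1 (-2 + D) (by omega) (by omega) (by omega)
  have m4 := i1 (-1 + 2 * D) (by omega) (by omega) (by omega)
  have m5 := i1 (D) (by omega) (by omega) (by omega)
  have m6 := i1 (1 + 2 * D) (by omega) (by omega) (by omega)
  have m7 := i1 (1 + D) (by omega) (by omega) (by omega)
  have m8 := i1 (3 + 2 * D) (by omega) (by omega) (by omega)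
  push_cast at m0 m1 m2 m3 m4 m5 m6 m7 m8
  have nn2 : (2 : ZMod p) ≠ 0 := by exact_mod_cast natCast_ne_zero_of_lt (p := p) (m := 2) (by norm_num) (by omega)
  have nn3 : (3 : ZMod p) ≠ 0 := by exact_mod_cast natCast_ne_zero_of_lt (p := p) (m := 3) (by norm_num) (by omega)
  have nn7 : (7 : ZMod p) ≠ 0 := by exact_mod_cast natCast_ne_zero_of_lt (p := p) (m := 7) (by norm_num) (by omega)
  exact mul_ne_zero (mul_ne_zero (mul_ne_zero (neg_ne_zero.2 (pow_ne_zero _ nn2)) (pow_ne_zero _ nn3)) (pow_ne_zero _ nn7))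
    (mul_ne_zero (mul_ne_zero (mul_ne_zero (mul_ne_zero (mul_ne_zero (mul_ne_zero (mul_ne_zero (mul_ne_zero m0 (pow_ne_zero _ m1)) m2) m3) (pow_ne_zero _ m4)) m5) m6) m7) (pow_ne_zero _ m8))

theorem shape_T1 (hp0 : 19 ≤ p) (hA : WeakZeroSumFree p 4 A) (hd : A.card = d)
    (hdp : 4 * d = p + 9) (hD : Odd D) (hDd : D + 4 ≤ d)
    (hodd : ∀ k, k < D → Odd k → HH A (A.card - 1 + k) = 0)
    (hH : HH A (A.card - 1 + D) ≠ 0) :
    105 - 48 * (D : ZMod p) - 20 * (D : ZMod p) ^ 2 + 8 * (D : ZMod p) ^ 3 = 0 := by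
  have hD1 := hD.pos
  obtain ⟨g, hg⟩ : ∃ g, d = g + 3 := ⟨d - 3, by omega⟩
  obtain ⟨b, hb⟩ : ∃ b, b + D = g := ⟨g - D, by omega⟩
  have key := four_eq (by omega) hA hd b g (g + 2) (g + 3) (by omega) (by omega) (by omega)
    (by omega) (by omega) (by omega) (by omega) (by omega) (by omega) (by omega)
    (Or.inl hb) hD hodd hH
  have key2 := offs_023 (by omega) _ _ _ key
  set x : ZMod p := (D : ZMod p) with hx
  have hG : 4 * (g : ZMod p) = -3 := by
    have : ((4 * (g + 3) : ℕ) : ZMod p) = ((p + 9 : ℕ) : ZMod p) := by rw [← hg, hdp]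
    push_cast at this
    rw [CharP.cast_eq_zero (ZMod p) p] at this
    linear_combination this
  have hB : 4 * (b : ZMod p) = -3 - 4 * x := by
    have : ((b + D : ℕ) : ZMod p) = ((g : ℕ) : ZMod p) := by rw [hb]
    push_cast at this
    linear_combination hG + 4 * this
  have c1 : 4 * ((g + 2 : ℕ) : ZMod p) = 5 := by push_cast; linear_combination hG
  have c2 : 4 * ((g + 3 : ℕ) : ZMod p) = 9 := by push_cast; linear_combination hG
  have c3 : 4 * ((g + D : ℕ) : ZMod p) = -3 + 4 * x := by push_cast; linear_combination hG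
  have c4 : 4 * ((g + 2 + D : ℕ) : ZMod p) = 5 + 4 * x := by push_cast; linear_combination hG
  have c5 : 4 * ((g + 3 + D : ℕ) : ZMod p) = 9 + 4 * x := by push_cast; linear_combination hG
  obtain ⟨q1, a1, b1⟩ := scaled (p := p) (b := b) (u := g + D) (v := g + 2) (w := g + 3)
    (by omega) (by omega) (by omega) (by omega) (by omega) (by omega) (by omega) (by omega) (by omega) hB c3 c1 c2
  obtain ⟨q2, a2, b2⟩ := scaled (p := p) (b := b) (u := g) (v := g + 2 + D) (w := g + 3)
    (by omega) (by omega) (by omega) (by omega) (by omega) (by omega) (by omega) (by omega) (by omega) hB hG c4 c2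
  obtain ⟨q3, a3, b3⟩ := scaled (p := p) (b := b) (u := g) (v := g + 2) (w := g + 3 + D)
    (by omega) (by omega) (by omega) (by omega) (by omega) (by omega) (by omega) (by omega) (by omega) hB hG c1 c5
  have h := alg_T1 x q1 q2 q3 b1 b2 b3 (by
    rw [← a1, ← a2, ← a3]
    have e1 : (45 + 236 * x + 240 * x ^ 2 + 64 * x ^ 3) = (4 * (g : ZMod p) + 4 * x + 4) * (4 * (g : ZMod p) + 4 * x + 8) * (4 * (g : ZMod p) + 4 * x + 12) := by
      rw [hG]; ring
    have e2 : (45 + 20 * x) = (4 * (g : ZMod p) + 4) * (4 * (g : ZMod p) + 8) * (4 * (g : ZMod p) + 4 * x + 12) := by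
      rw [hG]; ring
    have e3 : (45 : ZMod p) = (4 * (g : ZMod p) + 4) * (4 * (g : ZMod p) + 8) * (4 * (g : ZMod p) + 12) := by
      rw [hG]; norm_num
    linear_combination (64 * 64) * key2 + 64 * XX p b (g + D) (g + 2) (g + 3) * e1 +
      64 * XX p b g (g + 2 + D) (g + 3) * e2 + 64 * XX p b g (g + 2) (g + 3 + D) * e3)
  refine (mul_eq_zero.1 h).resolve_left ?_
  have i1 : ∀ z : ℤ, z ≠ 0 → -(p : ℤ) < z → z < p → (z : ZMod p) ≠ 0 := fun z => int_ne_zero
  obtain ⟨D', hD'⟩ := hD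
  have m0 := i1 (-3 + 2 * D) (by omega) (by omega) (by omega)
  have m1 := i1 (-1 + 2 * D) (by omega) (by omega) (by omega)
  have m2 := i1 (D) (by omega) (by omega) (by omega)
  have m3 := i1 (1 + 2 * D) (by omega) (by omega) (by omega)
  have m4 := i1 (1 + D) (by omega) (by omega) (by omega)
  have m5 := i1 (2 + D) (by omega) (by omega) (by omega)
  have m6 := i1 (3 + 2 * D) (by omega) (by omega) (by omega)
  have m7 := i1 (3 + D) (by omega) (by omega) (by omega)
  have m8 := i1 (3 + 4 * D) (by omega) (by omega) (by omega)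
  have m9 := i1 (4 + D) (by omega) (by omega) (by omega)
  have m10 := i1 (7 + 2 * D) (by omega) (by omega) (by omega)
  push_cast at m0 m1 m2 m3 m4 m5 m6 m7 m8 m9 m10
  have nn2 : (2 : ZMod p) ≠ 0 := by exact_mod_cast natCast_ne_zero_of_lt (p := p) (m := 2) (by norm_num) (by omega)
  have nn3 : (3 : ZMod p) ≠ 0 := by exact_mod_cast natCast_ne_zero_of_lt (p := p) (m := 3) (by norm_num) (by omega)
  exact mul_ne_zero (mul_ne_zero (neg_ne_zero.2 (pow_ne_zero _ nn2)) (pow_ne_zero _ nn3))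
    (mul_ne_zero (mul_ne_zero (mul_ne_zero (mul_ne_zero (mul_ne_zero (mul_ne_zero (mul_ne_zero (mul_ne_zero (mul_ne_zero (mul_ne_zero (pow_ne_zero _ m0) m1) m2) (pow_ne_zero _ m3)) m4) m5) (pow_ne_zero _ m6)) m7) m8) m9) m10)

theorem shape_T2 (hp0 : 19 ≤ p) (hA : WeakZeroSumFree p 4 A) (hd : A.card = d)
    (hdp : 4 * d = p + 9) (hD : Odd D) (hDd : D + 3 ≤ d) (hD3 : 3 ≤ D)
    (hodd : ∀ k, k < D → Odd k → HH A (A.card - 1 + k) = 0)
    (hH : HH A (A.card - 1 + D) ≠ 0) :
    1080 + 1341 * (D : ZMod p) + 240 * (D : ZMod p) ^ 2 - 580 * (D : ZMod p) ^ 3 - 120 * (D : ZMod p) ^ 4 + 64 * (D : ZMod p) ^ 5 = 0 := by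
  have hD1 := hD.pos
  obtain ⟨g, hg⟩ : ∃ g, d = g + 3 := ⟨d - 3, by omega⟩
  obtain ⟨b, hb⟩ : ∃ b, b + D = g + 1 := ⟨g + 1 - D, by omega⟩
  have key := four_eq (by omega) hA hd b g (g + 1) (g + 3) (by omega) (by omega) (by omega)
    (by omega) (by omega) (by omega) (by omega) (by omega) (by omega) (by omega)
    (Or.inr (Or.inl hb)) hD hodd hH
  have key2 := offs_013 (by omega) _ _ _ key
  set x : ZMod p := (D : ZMod p) with hx
  have hG : 4 * (g : ZMod p) = -3 := by
    have : ((4 * (g + 3) : ℕ) : ZMod p) = ((p + 9 : ℕ) : ZMod p) := by rw [← hg, hdp]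
    push_cast at this
    rw [CharP.cast_eq_zero (ZMod p) p] at this
    linear_combination this
  have hB : 4 * (b : ZMod p) = 1 - 4 * x := by
    have : ((b + D : ℕ) : ZMod p) = ((g + 1 : ℕ) : ZMod p) := by rw [hb]
    push_cast at this
    linear_combination hG + 4 * this
  have c1 : 4 * ((g + 1 : ℕ) : ZMod p) = 1 := by push_cast; linear_combination hG
  have c2 : 4 * ((g + 3 : ℕ) : ZMod p) = 9 := by push_cast; linear_combination hG
  have c3 : 4 * ((g + D : ℕ) : ZMod p) = -3 + 4 * x := by push_cast; linear_combination hG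
  have c4 : 4 * ((g + 1 + D : ℕ) : ZMod p) = 1 + 4 * x := by push_cast; linear_combination hG
  have c5 : 4 * ((g + 3 + D : ℕ) : ZMod p) = 9 + 4 * x := by push_cast; linear_combination hG
  obtain ⟨q1, a1, b1⟩ := scaled (p := p) (b := b) (u := g + D) (v := g + 1) (w := g + 3)
    (by omega) (by omega) (by omega) (by omega) (by omega) (by omega) (by omega) (by omega) (by omega) hB c3 c1 c2
  obtain ⟨q2, a2, b2⟩ := scaled (p := p) (b := b) (u := g) (v := g + 1 + D) (w := g + 3)
    (by omega) (by omega) (by omega) (by omega) (by omega) (by omega) (by omega) (by omega) (by omega) hB hG c4 c2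
  obtain ⟨q3, a3, b3⟩ := scaled (p := p) (b := b) (u := g) (v := g + 1) (w := g + 3 + D)
    (by omega) (by omega) (by omega) (by omega) (by omega) (by omega) (by omega) (by omega) (by omega) hB hG c1 c5
  have h := alg_T2 x q1 q2 q3 b1 b2 b3 (by
    rw [← a1, ← a2, ← a3]
    have e1 : (45 + 236 * x + 240 * x ^ 2 + 64 * x ^ 3) = (4 * (g : ZMod p) + 4 * x + 4) * (4 * (g : ZMod p) + 4 * x + 8) * (4 * (g : ZMod p) + 4 * x + 12) := by
      rw [hG]; ring
    have e2 : (45 + 56 * x + 16 * x ^ 2) = (4 * (g : ZMod p) + 4) * (4 * (g : ZMod p) + 4 * x + 8) * (4 * (g : ZMod p) + 4 * x + 12) := by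
      rw [hG]; ring
    have e3 : (45 : ZMod p) = (4 * (g : ZMod p) + 4) * (4 * (g : ZMod p) + 8) * (4 * (g : ZMod p) + 12) := by
      rw [hG]; norm_num
    linear_combination (64 * 64) * key2 + 64 * XX p b (g + D) (g + 1) (g + 3) * e1 +
      64 * XX p b g (g + 1 + D) (g + 3) * e2 + 64 * XX p b g (g + 1) (g + 3 + D) * e3)
  refine (mul_eq_zero.1 h).resolve_left ?_
  have i1 : ∀ z : ℤ, z ≠ 0 → -(p : ℤ) < z → z < p → (z : ZMod p) ≠ 0 := fun z => int_ne_zero
  obtain ⟨D', hD'⟩ := hD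
  have m0 := i1 (-5 + 2 * D) (by omega) (by omega) (by omega)
  have m1 := i1 (-1 + 2 * D) (by omega) (by omega) (by omega)
  have m2 := i1 (-1 + D) (by omega) (by omega) (by omega)
  have m3 := i1 (D) (by omega) (by omega) (by omega)
  have m4 := i1 (1 + 2 * D) (by omega) (by omega) (by omega)
  have m5 := i1 (1 + D) (by omega) (by omega) (by omega)
  have m6 := i1 (2 + D) (by omega) (by omega) (by omega)
  have m7 := i1 (3 + 2 * D) (by omega) (by omega) (by omega)
  have m8 := i1 (5 + 2 * D) (by omega) (by omega) (by omega)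
  push_cast at m0 m1 m2 m3 m4 m5 m6 m7 m8
  have nn2 : (2 : ZMod p) ≠ 0 := by exact_mod_cast natCast_ne_zero_of_lt (p := p) (m := 2) (by norm_num) (by omega)
  have nn3 : (3 : ZMod p) ≠ 0 := by exact_mod_cast natCast_ne_zero_of_lt (p := p) (m := 3) (by norm_num) (by omega)
  have nn5 : (5 : ZMod p) ≠ 0 := by exact_mod_cast natCast_ne_zero_of_lt (p := p) (m := 5) (by norm_num) (by omega)
  exact mul_ne_zero (mul_ne_zero (mul_ne_zero (pow_ne_zero _ nn2) (pow_ne_zero _ nn3)) (pow_ne_zero _ nn5))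
    (mul_ne_zero (mul_ne_zero (mul_ne_zero (mul_ne_zero (mul_ne_zero (mul_ne_zero (mul_ne_zero (mul_ne_zero m0 (pow_ne_zero _ m1)) m2) m3) (pow_ne_zero _ m4)) m5) m6) m7) (pow_ne_zero _ m8))

theorem shape_T3 (hp0 : 19 ≤ p) (hA : WeakZeroSumFree p 4 A) (hd : A.card = d)
    (hdp : 4 * d = p + 9) (hD : Odd D) (hDd : D + 3 ≤ d) (hD3 : 3 ≤ D)
    (hodd : ∀ k, k < D → Odd k → HH A (A.card - 1 + k) = 0)
    (hH : HH A (A.card - 1 + D) ≠ 0) :
    -15 - 8 * (D : ZMod p) + 12 * (D : ZMod p) ^ 2 + 8 * (D : ZMod p) ^ 3 = 0 := by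
  have hD1 := hD.pos
  obtain ⟨g, hg⟩ : ∃ g, d = g + 3 := ⟨d - 3, by omega⟩
  obtain ⟨b, hb⟩ : ∃ b, b + D = g + 2 := ⟨g + 2 - D, by omega⟩
  have key := four_eq (by omega) hA hd b g (g + 1) (g + 2) (by omega) (by omega) (by omega)
    (by omega) (by omega) (by omega) (by omega) (by omega) (by omega) (by omega)
    (Or.inr (Or.inr hb)) hD hodd hH
  have key2 := offs_012 (by omega) _ _ _ key
  set x : ZMod p := (D : ZMod p) with hx
  have hG : 4 * (g : ZMod p) = -3 := by
    have : ((4 * (g + 3) : ℕ) : ZMod p) = ((p + 9 : ℕ) : ZMod p) := by rw [← hg, hdp]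
    push_cast at this
    rw [CharP.cast_eq_zero (ZMod p) p] at this
    linear_combination this
  have hB : 4 * (b : ZMod p) = 5 - 4 * x := by
    have : ((b + D : ℕ) : ZMod p) = ((g + 2 : ℕ) : ZMod p) := by rw [hb]
    push_cast at this
    linear_combination hG + 4 * this
  have c1 : 4 * ((g + 1 : ℕ) : ZMod p) = 1 := by push_cast; linear_combination hG
  have c2 : 4 * ((g + 2 : ℕ) : ZMod p) = 5 := by push_cast; linear_combination hG
  have c3 : 4 * ((g + D : ℕ) : ZMod p) = -3 + 4 * x := by push_cast; linear_combination hG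
  have c4 : 4 * ((g + 1 + D : ℕ) : ZMod p) = 1 + 4 * x := by push_cast; linear_combination hG
  have c5 : 4 * ((g + 2 + D : ℕ) : ZMod p) = 5 + 4 * x := by push_cast; linear_combination hG
  obtain ⟨q1, a1, b1⟩ := scaled (p := p) (b := b) (u := g + D) (v := g + 1) (w := g + 2)
    (by omega) (by omega) (by omega) (by omega) (by omega) (by omega) (by omega) (by omega) (by omega) hB c3 c1 c2
  obtain ⟨q2, a2, b2⟩ := scaled (p := p) (b := b) (u := g) (v := g + 1 + D) (w := g + 2)
    (by omega) (by omega) (by omega) (by omega) (by omega) (by omega) (by omega) (by omega) (by omega) hB hG c4 c2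
  obtain ⟨q3, a3, b3⟩ := scaled (p := p) (b := b) (u := g) (v := g + 1) (w := g + 2 + D)
    (by omega) (by omega) (by omega) (by omega) (by omega) (by omega) (by omega) (by omega) (by omega) hB hG c1 c5
  have h := alg_T3 x q1 q2 q3 b1 b2 b3 (by
    rw [← a1, ← a2, ← a3]
    have e1 : (5 + 24 * x + 16 * x ^ 2) = (4 * (g : ZMod p) + 4 * x + 4) * (4 * (g : ZMod p) + 4 * x + 8) := by
      rw [hG]; ring
    have e2 : (5 + 4 * x) = (4 * (g : ZMod p) + 4) * (4 * (g : ZMod p) + 4 * x + 8) := by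
      rw [hG]; ring
    have e3 : (5 : ZMod p) = (4 * (g : ZMod p) + 4) * (4 * (g : ZMod p) + 8) := by
      rw [hG]; norm_num
    linear_combination (64 * 16) * key2 + 64 * XX p b (g + D) (g + 1) (g + 2) * e1 +
      64 * XX p b g (g + 1 + D) (g + 2) * e2 + 64 * XX p b g (g + 1) (g + 2 + D) * e3)
  refine (mul_eq_zero.1 h).resolve_left ?_
  have i1 : ∀ z : ℤ, z ≠ 0 → -(p : ℤ) < z → z < p → (z : ZMod p) ≠ 0 := fun z => int_ne_zero
  obtain ⟨D', hD'⟩ := hD
  have m0 := i1 (-5 + 2 * D) (by omega) (by omega) (by omega)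
  have m1 := i1 (-4 + D) (by omega) (by omega) (by omega)
  have m2 := i1 (-3 + 2 * D) (by omega) (by omega) (by omega)
  have m3 := i1 (-2 + D) (by omega) (by omega) (by omega)
  have m4 := i1 (-1 + 2 * D) (by omega) (by omega) (by omega)
  have m5 := i1 (-1 + D) (by omega) (by omega) (by omega)
  have m6 := i1 (D) (by omega) (by omega) (by omega)
  have m7 := i1 (1 + 2 * D) (by omega) (by omega) (by omega)
  have m8 := i1 (1 + D) (by omega) (by omega) (by omega)
  have m9 := i1 (3 + 2 * D) (by omega) (by omega) (by omega)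
  push_cast at m0 m1 m2 m3 m4 m5 m6 m7 m8 m9
  have nn2 : (2 : ZMod p) ≠ 0 := by exact_mod_cast natCast_ne_zero_of_lt (p := p) (m := 2) (by norm_num) (by omega)
  have nn3 : (3 : ZMod p) ≠ 0 := by exact_mod_cast natCast_ne_zero_of_lt (p := p) (m := 3) (by norm_num) (by omega)
  have nn5 : (5 : ZMod p) ≠ 0 := by exact_mod_cast natCast_ne_zero_of_lt (p := p) (m := 5) (by norm_num) (by omega)
  exact mul_ne_zero (mul_ne_zero (mul_ne_zero (neg_ne_zero.2 (pow_ne_zero _ nn2)) (pow_ne_zero _ nn3)) (pow_ne_zero _ nn5))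
    (mul_ne_zero (mul_ne_zero (mul_ne_zero (mul_ne_zero (mul_ne_zero (mul_ne_zero (mul_ne_zero (mul_ne_zero (mul_ne_zero m0 m1) (pow_ne_zero _ m2)) m3) (pow_ne_zero _ m4)) m5) m6) (pow_ne_zero _ m7)) m8) m9)

end shapes

end Pool.Agent.H19.HP
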