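import Mathlib
import Pool.Agent.H19.HP.FourShape

set_option autoImplicit false

/-!
# Four summands: the last degrees
-/

namespace Pool.Agent.H19.HP

open Finset Pool.Agent.H8.Ham

variable {p : ℕ} [hp : Fact p.Prime]

lemma fact_add (g : ℕ) (k : ℕ) : ((g + k + 1).factorial : ZMod p) =
    ((g : ZMod p) + k + 1) * ((g + k).factorial : ZMod p) := by
  rw [Nat.factorial_succ]; push_cast; ring

lemma fact_add' (g D : ℕ) (k : ℕ) : ((g + (k + 1) + D).factorial : ZMod p) =
    ((g : ZMod p) + D + k + 1) * ((g + k + D).factorial : ZMod p) := by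
  rw [show g + (k + 1) + D = (g + k + D) + 1 by omega, Nat.factorial_succ]; push_cast; ring

lemma last_offs_4 {g D : ℕ} (hg : g + D + 4 < p) (V0 V1 V2 : ZMod p)
    (h : V0 * ((g.factorial : ZMod p) * ((g + 3 + D).factorial : ZMod p) *
        ((g + 4 + D).factorial : ZMod p)) +
      V1 * (((g + D).factorial : ZMod p) * ((g + 3).factorial : ZMod p) *
        ((g + 4 + D).factorial : ZMod p)) +
      V2 * (((g + D).factorial : ZMod p) * ((g + 3 + D).factorial : ZMod p) *
        ((g + 4).factorial : ZMod p)) = 0) :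
    V0 * (((g : ZMod p) + D + 1) * ((g : ZMod p) + D + 2) * ((g : ZMod p) + D + 3) * ((g : ZMod p) + D + 4)) +
      V1 * (((g : ZMod p) + 1) * ((g : ZMod p) + 2) * ((g : ZMod p) + 3) * ((g : ZMod p) + D + 4)) +
      V2 * (((g : ZMod p) + 1) * ((g : ZMod p) + 2) * ((g : ZMod p) + 3) * ((g : ZMod p) + 4)) = 0 := by
  have f1 : (g.factorial : ZMod p) ≠ 0 := factorial_ne_zero (by omega)
  have f2 : ((g + D).factorial : ZMod p) ≠ 0 := factorial_ne_zero (by omega)
  have n1 : ((g : ZMod p) + D + 1) ≠ 0 := by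
    have := natCast_ne_zero_of_lt (p := p) (m := g + D + 1) (by omega) (by omega)
    push_cast at this; exact this
  have n2 : ((g : ZMod p) + D + 2) ≠ 0 := by
    have := natCast_ne_zero_of_lt (p := p) (m := g + D + 2) (by omega) (by omega)
    push_cast at this; exact this
  have n3 : ((g : ZMod p) + D + 3) ≠ 0 := by
    have := natCast_ne_zero_of_lt (p := p) (m := g + D + 3) (by omega) (by omega)
    push_cast at this; exact this
  have e1 : ((g + 3).factorial : ZMod p) = ((g : ZMod p) + 3) * (((g : ZMod p) + 2) * (((g : ZMod p) + 1) * ((g.factorial : ZMod p)))) := by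
    rw [Nat.factorial_succ, Nat.factorial_succ, Nat.factorial_succ]; push_cast; ring
  have e2 : ((g + 4).factorial : ZMod p) = ((g : ZMod p) + 4) * (((g : ZMod p) + 3) * (((g : ZMod p) + 2) * (((g : ZMod p) + 1) * ((g.factorial : ZMod p))))) := by
    rw [Nat.factorial_succ, Nat.factorial_succ, Nat.factorial_succ, Nat.factorial_succ]; push_cast; ring
  have e3 : ((g + 3 + D).factorial : ZMod p) = ((g : ZMod p) + D + 3) * (((g : ZMod p) + D + 2) * (((g : ZMod p) + D + 1) * (((g + D).factorial : ZMod p)))) := by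
    rw [show g + 3 + D = (g + D) + 3 by omega, Nat.factorial_succ, Nat.factorial_succ, Nat.factorial_succ]; push_cast; ring
  have e4 : ((g + 4 + D).factorial : ZMod p) = ((g : ZMod p) + D + 4) * (((g : ZMod p) + D + 3) * (((g : ZMod p) + D + 2) * (((g : ZMod p) + D + 1) * (((g + D).factorial : ZMod p))))) := by
    rw [show g + 4 + D = (g + D) + 4 by omega, Nat.factorial_succ, Nat.factorial_succ, Nat.factorial_succ, Nat.factorial_succ]; push_cast; ring
  rw [e1, e2, e3, e4] at h
  refine mul_left_cancel₀ (mul_ne_zero (mul_ne_zero (mul_ne_zero (mul_ne_zero f1 (pow_ne_zero 2 f2)) n1) n2) n3) ?_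
  rw [mul_zero, ← h]
  ring

lemma last_offs_5 {g D : ℕ} (hg : g + D + 5 < p) (V0 V1 V2 : ZMod p)
    (h : V0 * ((g.factorial : ZMod p) * ((g + 4 + D).factorial : ZMod p) *
        ((g + 5 + D).factorial : ZMod p)) +
      V1 * (((g + D).factorial : ZMod p) * ((g + 4).factorial : ZMod p) *
        ((g + 5 + D).factorial : ZMod p)) +
      V2 * (((g + D).factorial : ZMod p) * ((g + 4 + D).factorial : ZMod p) *
        ((g + 5).factorial : ZMod p)) = 0) :
    V0 * (((g : ZMod p) + D + 1) * ((g : ZMod p) + D + 2) * ((g : ZMod p) + D + 3) * ((g : ZMod p) + D + 4) * ((g : ZMod p) + D + 5)) +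
      V1 * (((g : ZMod p) + 1) * ((g : ZMod p) + 2) * ((g : ZMod p) + 3) * ((g : ZMod p) + 4) * ((g : ZMod p) + D + 5)) +
      V2 * (((g : ZMod p) + 1) * ((g : ZMod p) + 2) * ((g : ZMod p) + 3) * ((g : ZMod p) + 4) * ((g : ZMod p) + 5)) = 0 := by
  have f1 : (g.factorial : ZMod p) ≠ 0 := factorial_ne_zero (by omega)
  have f2 : ((g + D).factorial : ZMod p) ≠ 0 := factorial_ne_zero (by omega)
  have n1 : ((g : ZMod p) + D + 1) ≠ 0 := by
    have := natCast_ne_zero_of_lt (p := p) (m := g + D + 1) (by omega) (by omega)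
    push_cast at this; exact this
  have n2 : ((g : ZMod p) + D + 2) ≠ 0 := by
    have := natCast_ne_zero_of_lt (p := p) (m := g + D + 2) (by omega) (by omega)
    push_cast at this; exact this
  have n3 : ((g : ZMod p) + D + 3) ≠ 0 := by
    have := natCast_ne_zero_of_lt (p := p) (m := g + D + 3) (by omega) (by omega)
    push_cast at this; exact this
  have n4 : ((g : ZMod p) + D + 4) ≠ 0 := by
    have := natCast_ne_zero_of_lt (p := p) (m := g + D + 4) (by omega) (by omega)
    push_cast at this; exact this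
  have e1 : ((g + 4).factorial : ZMod p) = ((g : ZMod p) + 4) * (((g : ZMod p) + 3) * (((g : ZMod p) + 2) * (((g : ZMod p) + 1) * ((g.factorial : ZMod p))))) := by
    rw [Nat.factorial_succ, Nat.factorial_succ, Nat.factorial_succ, Nat.factorial_succ]; push_cast; ring
  have e2 : ((g + 5).factorial : ZMod p) = ((g : ZMod p) + 5) * (((g : ZMod p) + 4) * (((g : ZMod p) + 3) * (((g : ZMod p) + 2) * (((g : ZMod p) + 1) * ((g.factorial : ZMod p)))))) := by
    rw [Nat.factorial_succ, Nat.factorial_succ, Nat.factorial_succ, Nat.factorial_succ, Nat.factorial_succ]; push_cast; ring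
  have e3 : ((g + 4 + D).factorial : ZMod p) = ((g : ZMod p) + D + 4) * (((g : ZMod p) + D + 3) * (((g : ZMod p) + D + 2) * (((g : ZMod p) + D + 1) * (((g + D).factorial : ZMod p))))) := by
    rw [show g + 4 + D = (g + D) + 4 by omega, Nat.factorial_succ, Nat.factorial_succ, Nat.factorial_succ, Nat.factorial_succ]; push_cast; ring
  have e4 : ((g + 5 + D).factorial : ZMod p) = ((g : ZMod p) + D + 5) * (((g : ZMod p) + D + 4) * (((g : ZMod p) + D + 3) * (((g : ZMod p) + D + 2) * (((g : ZMod p) + D + 1) * (((g + D).factorial : ZMod p)))))) := by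
    rw [show g + 5 + D = (g + D) + 5 by omega, Nat.factorial_succ, Nat.factorial_succ, Nat.factorial_succ, Nat.factorial_succ, Nat.factorial_succ]; push_cast; ring
  rw [e1, e2, e3, e4] at h
  refine mul_left_cancel₀ (mul_ne_zero (mul_ne_zero (mul_ne_zero (mul_ne_zero (mul_ne_zero f1 (pow_ne_zero 2 f2)) n1) n2) n3) n4) ?_
  rw [mul_zero, ← h]
  ring

lemma last_offs_6 {g D : ℕ} (hg : g + D + 6 < p) (V0 V1 V2 : ZMod p)
    (h : V0 * ((g.factorial : ZMod p) * ((g + 5 + D).factorial : ZMod p) *
        ((g + 6 + D).factorial : ZMod p)) +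
      V1 * (((g + D).factorial : ZMod p) * ((g + 5).factorial : ZMod p) *
        ((g + 6 + D).factorial : ZMod p)) +
      V2 * (((g + D).factorial : ZMod p) * ((g + 5 + D).factorial : ZMod p) *
        ((g + 6).factorial : ZMod p)) = 0) :
    V0 * (((g : ZMod p) + D + 1) * ((g : ZMod p) + D + 2) * ((g : ZMod p) + D + 3) * ((g : ZMod p) + D + 4) * ((g : ZMod p) + D + 5) * ((g : ZMod p) + D + 6)) +
      V1 * (((g : ZMod p) + 1) * ((g : ZMod p) + 2) * ((g : ZMod p) + 3) * ((g : ZMod p) + 4) * ((g : ZMod p) + 5) * ((g : ZMod p) + D + 6)) +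
      V2 * (((g : ZMod p) + 1) * ((g : ZMod p) + 2) * ((g : ZMod p) + 3) * ((g : ZMod p) + 4) * ((g : ZMod p) + 5) * ((g : ZMod p) + 6)) = 0 := by
  have f1 : (g.factorial : ZMod p) ≠ 0 := factorial_ne_zero (by omega)
  have f2 : ((g + D).factorial : ZMod p) ≠ 0 := factorial_ne_zero (by omega)
  have n1 : ((g : ZMod p) + D + 1) ≠ 0 := by
    have := natCast_ne_zero_of_lt (p := p) (m := g + D + 1) (by omega) (by omega)
    push_cast at this; exact this
  have n2 : ((g : ZMod p) + D + 2) ≠ 0 := by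
    have := natCast_ne_zero_of_lt (p := p) (m := g + D + 2) (by omega) (by omega)
    push_cast at this; exact this
  have n3 : ((g : ZMod p) + D + 3) ≠ 0 := by
    have := natCast_ne_zero_of_lt (p := p) (m := g + D + 3) (by omega) (by omega)
    push_cast at this; exact this
  have n4 : ((g : ZMod p) + D + 4) ≠ 0 := by
    have := natCast_ne_zero_of_lt (p := p) (m := g + D + 4) (by omega) (by omega)
    push_cast at this; exact this
  have n5 : ((g : ZMod p) + D + 5) ≠ 0 := by
    have := natCast_ne_zero_of_lt (p := p) (m := g + D + 5) (by omega) (by omega)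
    push_cast at this; exact this
  have e1 : ((g + 5).factorial : ZMod p) = ((g : ZMod p) + 5) * (((g : ZMod p) + 4) * (((g : ZMod p) + 3) * (((g : ZMod p) + 2) * (((g : ZMod p) + 1) * ((g.factorial : ZMod p)))))) := by
    rw [Nat.factorial_succ, Nat.factorial_succ, Nat.factorial_succ, Nat.factorial_succ, Nat.factorial_succ]; push_cast; ring
  have e2 : ((g + 6).factorial : ZMod p) = ((g : ZMod p) + 6) * (((g : ZMod p) + 5) * (((g : ZMod p) + 4) * (((g : ZMod p) + 3) * (((g : ZMod p) + 2) * (((g : ZMod p) + 1) * ((g.factorial : ZMod p))))))) := by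
    rw [Nat.factorial_succ, Nat.factorial_succ, Nat.factorial_succ, Nat.factorial_succ, Nat.factorial_succ, Nat.factorial_succ]; push_cast; ring
  have e3 : ((g + 5 + D).factorial : ZMod p) = ((g : ZMod p) + D + 5) * (((g : ZMod p) + D + 4) * (((g : ZMod p) + D + 3) * (((g : ZMod p) + D + 2) * (((g : ZMod p) + D + 1) * (((g + D).factorial : ZMod p)))))) := by
    rw [show g + 5 + D = (g + D) + 5 by omega, Nat.factorial_succ, Nat.factorial_succ, Nat.factorial_succ, Nat.factorial_succ, Nat.factorial_succ]; push_cast; ring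
  have e4 : ((g + 6 + D).factorial : ZMod p) = ((g : ZMod p) + D + 6) * (((g : ZMod p) + D + 5) * (((g : ZMod p) + D + 4) * (((g : ZMod p) + D + 3) * (((g : ZMod p) + D + 2) * (((g : ZMod p) + D + 1) * (((g + D).factorial : ZMod p))))))) := by
    rw [show g + 6 + D = (g + D) + 6 by omega, Nat.factorial_succ, Nat.factorial_succ, Nat.factorial_succ, Nat.factorial_succ, Nat.factorial_succ, Nat.factorial_succ]; push_cast; ring
  rw [e1, e2, e3, e4] at h
  refine mul_left_cancel₀ (mul_ne_zero (mul_ne_zero (mul_ne_zero (mul_ne_zero (mul_ne_zero (mul_ne_zero f1 (pow_ne_zero 2 f2)) n1) n2) n3) n4) n5) ?_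
  rw [mul_zero, ← h]
  ring

section

variable {A : Finset (ZMod p)} {d D : ℕ}

theorem last_7_4 (hp0 : 29 ≤ p) (hA : WeakZeroSumFree p 4 A) (hd : A.card = d)
    (hdp : 4 * d = p + 7) (hD : Odd D) (hDd : D + 0 = d)
    (hodd : ∀ k, k < D → Odd k → HH A (A.card - 1 + k) = 0)
    (hH : HH A (A.card - 1 + D) ≠ 0) : p ∣ 107415 := by
  have hD1 := hD.pos
  obtain ⟨D', hD'⟩ := id hD
  obtain ⟨g, hg⟩ : ∃ g, d = g + 4 := ⟨d - 4, by omega⟩
  have key := three_eq (by omega) (t := 4) (by omega) hA hd (by omega) g (g + 3) (g + 4)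
    (by omega) (by omega) (by omega) (by omega) (by omega) (by omega)
    (by omega) (by omega) (by omega) (by omega) (by omega) (by omega)
    (by omega) (by omega) (by omega) (by omega) hD hodd hH
  have key2 := last_offs_4 (by omega) _ _ _ key
  set x : ZMod p := (D : ZMod p) with hx
  have hG : (-9 : ZMod p) = 4 * (g : ZMod p) := by
    have : ((4 * (g + 4) : ℕ) : ZMod p) = ((p + 7 : ℕ) : ZMod p) := by rw [← hg, hdp]
    push_cast at this
    rw [CharP.cast_eq_zero (ZMod p) p] at this
    linear_combination -this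
  have hX : (7 : ZMod p) = 4 * x := by
    have : ((D + 0 : ℕ) : ZMod p) = ((g + 4 : ℕ) : ZMod p) := by rw [hDd, hg]
    push_cast at this
    linear_combination hG - 4 * this
  have e : ∀ s t : ZMod p, s = 4 * (g : ZMod p) → t = 4 * x →
      (12 - t) * (16 - t) * ((s + t + 4) * (s + t + 8) * (s + t + 12) * (s + t + 16)) +
      4 * (12 + t) * (4 - t) * ((s + 4) * (s + 8) * (s + 12) * (s + t + 16)) +
      3 * (16 + t) * (4 + t) * ((s + 4) * (s + 8) * (s + 12) * (s + 16)) = 0 := by
    rintro s t rfl rfl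
    push_cast at key2
    linear_combination 4 ^ 6 * key2
  have e' := e _ _ hG hX
  have e2 : ((107415 : ℕ) : ZMod p) = 0 := by
    push_cast
    linear_combination (1) * e'
  rwa [ZMod.natCast_eq_zero_iff] at e2

theorem last_9_6 (hp0 : 19 ≤ p) (hA : WeakZeroSumFree p 4 A) (hd : A.card = d)
    (hdp : 4 * d = p + 9) (hD : Odd D) (hDd : D + 0 = d)
    (hodd : ∀ k, k < D → Odd k → HH A (A.card - 1 + k) = 0)
    (hH : HH A (A.card - 1 + D) ≠ 0) : p ∣ 14189175 := by
  have hD1 := hD.pos
  obtain ⟨D', hD'⟩ := id hD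
  obtain ⟨g, hg⟩ : ∃ g, d = g + 6 := ⟨d - 6, by omega⟩
  have key := three_eq (by omega) (t := 4) (by omega) hA hd (by omega) g (g + 5) (g + 6)
    (by omega) (by omega) (by omega) (by omega) (by omega) (by omega)
    (by omega) (by omega) (by omega) (by omega) (by omega) (by omega)
    (by omega) (by omega) (by omega) (by omega) hD hodd hH
  have key2 := last_offs_6 (by omega) _ _ _ key
  set x : ZMod p := (D : ZMod p) with hx
  have hG : (-15 : ZMod p) = 4 * (g : ZMod p) := by
    have : ((4 * (g + 6) : ℕ) : ZMod p) = ((p + 9 : ℕ) : ZMod p) := by rw [← hg, hdp]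
    push_cast at this
    rw [CharP.cast_eq_zero (ZMod p) p] at this
    linear_combination -this
  have hX : (9 : ZMod p) = 4 * x := by
    have : ((D + 0 : ℕ) : ZMod p) = ((g + 6 : ℕ) : ZMod p) := by rw [hDd, hg]
    push_cast at this
    linear_combination hG - 4 * this
  have e : ∀ s t : ZMod p, s = 4 * (g : ZMod p) → t = 4 * x →
      (20 - t) * (24 - t) * ((s + t + 4) * (s + t + 8) * (s + t + 12) * (s + t + 16) * (s + t + 20) * (s + t + 24)) +
      6 * (20 + t) * (4 - t) * ((s + 4) * (s + 8) * (s + 12) * (s + 16) * (s + 20) * (s + t + 24)) +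
      5 * (24 + t) * (4 + t) * ((s + 4) * (s + 8) * (s + 12) * (s + 16) * (s + 20) * (s + 24)) = 0 := by
    rintro s t rfl rfl
    push_cast at key2
    linear_combination 4 ^ 8 * key2
  have e' := e _ _ hG hX
  have e2 : ((14189175 : ℕ) : ZMod p) = 0 := by
    push_cast
    linear_combination (-1) * e'
  rwa [ZMod.natCast_eq_zero_iff] at e2

theorem last_9_5 (hp0 : 19 ≤ p) (hA : WeakZeroSumFree p 4 A) (hd : A.card = d)
    (hdp : 4 * d = p + 9) (hD : Odd D) (hDd : D + 1 = d)
    (hodd : ∀ k, k < D → Odd k → HH A (A.card - 1 + k) = 0)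
    (hH : HH A (A.card - 1 + D) ≠ 0) : p ∣ 141750 := by
  have hD1 := hD.pos
  obtain ⟨D', hD'⟩ := id hD
  obtain ⟨g, hg⟩ : ∃ g, d = g + 5 := ⟨d - 5, by omega⟩
  have key := three_eq (by omega) (t := 4) (by omega) hA hd (by omega) g (g + 4) (g + 5)
    (by omega) (by omega) (by omega) (by omega) (by omega) (by omega)
    (by omega) (by omega) (by omega) (by omega) (by omega) (by omega)
    (by omega) (by omega) (by omega) (by omega) hD hodd hH
  have key2 := last_offs_5 (by omega) _ _ _ key
  set x : ZMod p := (D : ZMod p) with hx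
  have hG : (-11 : ZMod p) = 4 * (g : ZMod p) := by
    have : ((4 * (g + 5) : ℕ) : ZMod p) = ((p + 9 : ℕ) : ZMod p) := by rw [← hg, hdp]
    push_cast at this
    rw [CharP.cast_eq_zero (ZMod p) p] at this
    linear_combination -this
  have hX : (5 : ZMod p) = 4 * x := by
    have : ((D + 1 : ℕ) : ZMod p) = ((g + 5 : ℕ) : ZMod p) := by rw [hDd, hg]
    push_cast at this
    linear_combination hG - 4 * this
  have e : ∀ s t : ZMod p, s = 4 * (g : ZMod p) → t = 4 * x →
      (16 - t) * (20 - t) * ((s + t + 4) * (s + t + 8) * (s + t + 12) * (s + t + 16) * (s + t + 20)) +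
      5 * (16 + t) * (4 - t) * ((s + 4) * (s + 8) * (s + 12) * (s + 16) * (s + t + 20)) +
      4 * (20 + t) * (4 + t) * ((s + 4) * (s + 8) * (s + 12) * (s + 16) * (s + 20)) = 0 := by
    rintro s t rfl rfl
    push_cast at key2
    linear_combination 4 ^ 7 * key2
  have e' := e _ _ hG hX
  have e2 : ((141750 : ℕ) : ZMod p) = 0 := by
    push_cast
    linear_combination (1) * e'
  rwa [ZMod.natCast_eq_zero_iff] at e2

theorem last_9_4 (hp0 : 19 ≤ p) (hA : WeakZeroSumFree p 4 A) (hd : A.card = d)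
    (hdp : 4 * d = p + 9) (hD : Odd D) (hDd : D + 2 = d)
    (hodd : ∀ k, k < D → Odd k → HH A (A.card - 1 + k) = 0)
    (hH : HH A (A.card - 1 + D) ≠ 0) : p ∣ 97425 := by
  have hD1 := hD.pos
  obtain ⟨D', hD'⟩ := id hD
  obtain ⟨g, hg⟩ : ∃ g, d = g + 4 := ⟨d - 4, by omega⟩
  have key := three_eq (by omega) (t := 4) (by omega) hA hd (by omega) g (g + 3) (g + 4)
    (by omega) (by omega) (by omega) (by omega) (by omega) (by omega)
    (by omega) (by omega) (by omega) (by omega) (by omega) (by omega)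
    (by omega) (by omega) (by omega) (by omega) hD hodd hH
  have key2 := last_offs_4 (by omega) _ _ _ key
  set x : ZMod p := (D : ZMod p) with hx
  have hG : (-7 : ZMod p) = 4 * (g : ZMod p) := by
    have : ((4 * (g + 4) : ℕ) : ZMod p) = ((p + 9 : ℕ) : ZMod p) := by rw [← hg, hdp]
    push_cast at this
    rw [CharP.cast_eq_zero (ZMod p) p] at this
    linear_combination -this
  have hX : (1 : ZMod p) = 4 * x := by
    have : ((D + 2 : ℕ) : ZMod p) = ((g + 4 : ℕ) : ZMod p) := by rw [hDd, hg]
    push_cast at this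
    linear_combination hG - 4 * this
  have e : ∀ s t : ZMod p, s = 4 * (g : ZMod p) → t = 4 * x →
      (12 - t) * (16 - t) * ((s + t + 4) * (s + t + 8) * (s + t + 12) * (s + t + 16)) +
      4 * (12 + t) * (4 - t) * ((s + 4) * (s + 8) * (s + 12) * (s + t + 16)) +
      3 * (16 + t) * (4 + t) * ((s + 4) * (s + 8) * (s + 12) * (s + 16)) = 0 := by
    rintro s t rfl rfl
    push_cast at key2
    linear_combination 4 ^ 6 * key2
  have e' := e _ _ hG hX
  have e2 : ((97425 : ℕ) : ZMod p) = 0 := by
    push_cast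
    linear_combination (-1) * e'
  rwa [ZMod.natCast_eq_zero_iff] at e2

end

end Pool.Agent.H19.HP
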