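import Mathlib
import Pool.Agent.H19.HP.FourLast

set_option autoImplicit false

/-!
# Four summands: the conclusion
-/

namespace Pool.Agent.H19.HP

open Finset Pool.Agent.H8.Ham Polynomial

variable {p : ℕ} [hp : Fact p.Prime]

/-- If all odd weighted sums vanish, there is no nonempty set. -/
lemma no_all_odd {t : ℕ} {A : Finset (ZMod p)} (h2p : 2 < p) (hA : WeakZeroSumFree p t A)
    (ht : 2 ≤ t) (hne : A.Nonempty)
    (h : ∀ k, k ≤ A.card → Odd k → HH A (A.card - 1 + k) = 0) : False := by
  have hco := fA_coeff_odd (K := A.card) le_rfl h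
  have hfN : fN A = fA A := by
    ext j
    rw [fN_coeff]
    rcases Nat.lt_or_ge A.card j with h1 | h1
    · rw [coeff_eq_zero_of_natDegree_lt (by rw [fA_natDegree]; exact h1), mul_zero]
    · rcases Nat.even_or_odd (A.card - j) with h2 | h2
      · have h3 : Even (A.card + j) := by
          obtain ⟨a, ha⟩ := h2
          exact ⟨a + j, by omega⟩
        rw [h3.neg_one_pow, one_mul]
      · have h3 := hco (A.card - j) (by omega) h2
        rw [show A.card - (A.card - j) = j by omega] at h3
        rw [h3, mul_zero]
  obtain ⟨a, ha⟩ := hne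
  have h1 : (fN A).eval (-a) = 0 := by
    rw [fN, eval_prod]
    exact prod_eq_zero ha (by simp)
  rw [hfN, fA, eval_prod, prod_eq_zero_iff] at h1
  obtain ⟨b, hb, hb2⟩ := h1
  rw [eval_sub, eval_X, eval_C, sub_eq_zero] at hb2
  exact neg_notMem h2p hA ht ha (hb2 ▸ hb)

lemma dvd_le {m : ℕ} (h : p ∣ m) (hm : 0 < m) : p ≤ m := Nat.le_of_dvd hm h

theorem no_four_one {A : Finset (ZMod p)} (h29 : 29 ≤ p) (hA : WeakZeroSumFree p 4 A)
    (hdp : 4 * A.card = p + 7) : False := by
  obtain ⟨d, hd⟩ : ∃ d, A.card = d := ⟨_, rfl⟩
  have hdp' : 4 * d = p + 7 := by omega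
  refine no_all_odd (by omega) hA (by omega) (card_pos.1 (by omega)) ?_
  rw [hd]
  have main : ∀ D, D ≤ d → Odd D → HH A (A.card - 1 + D) = 0 := by
    intro D
    induction D using Nat.strong_induction_on with
    | _ D ih =>
      intro hDd hD
      by_contra hH
      have hodd : ∀ k, k < D → Odd k → HH A (A.card - 1 + k) = 0 :=
        fun k hk hk2 => ih k hk (by omega) hk2
      have hprime := hp.out
      obtain ⟨D', hD'⟩ := id hD
      by_cases c1 : D = d
      · have h1 := last_7_4 h29 hA hd hdp' hD (by omega) hodd hH
        have e : (107415 : ℕ) = (9 * 5 * 7 * 11) * 31 := by norm_num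
        rw [e, hprime.dvd_mul] at h1
        rcases h1 with h1 | h1
        · rw [hprime.dvd_mul, hprime.dvd_mul, hprime.dvd_mul] at h1
          rcases h1 with ((h1 | h1) | h1) | h1 <;>
            exact absurd (dvd_le h1 (by norm_num)) (by omega)
        · have := (Nat.dvd_prime (by norm_num : Nat.Prime 31)).1 h1
          omega
      by_cases c2 : D + 3 ≤ d
      · have h1 := shape_S1 h29 hA hd hdp' hD c2 hodd hH
        by_cases c3 : D = 3
        · rw [c3] at h1
          have h2 : ((273 : ℕ) : ZMod p) = 0 := by
            push_cast at h1 ⊢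
            linear_combination h1
          rw [ZMod.natCast_eq_zero_iff] at h2
          have e : (273 : ℕ) = 3 * 7 * 13 := by norm_num
          rw [e, hprime.dvd_mul, hprime.dvd_mul] at h2
          rcases h2 with (h1 | h1) | h1 <;>
            exact absurd (dvd_le h1 (by norm_num)) (by omega)
        · have h2 := shape_S2 h29 hA hd hdp' hD (by omega) c3 hodd hH
          have h3 : ((162727110 : ℕ) : ZMod p) = 0 := by
            push_cast
            linear_combination (1552112 + 43019 * (D : ZMod p) + 102426 * (D : ZMod p) ^ 2 -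
              167792 * (D : ZMod p) ^ 3 + 29440 * (D : ZMod p) ^ 4) * h1 +
              (-5825 + 16834 * (D : ZMod p) - 3680 * (D : ZMod p) ^ 2) * h2
          rw [ZMod.natCast_eq_zero_iff] at h3
          have e : (162727110 : ℕ) = (2 * 27 * 5 * 7 * 13) * 37 * 179 := by norm_num
          rw [e, hprime.dvd_mul, hprime.dvd_mul] at h3
          rcases h3 with (h3 | h3) | h3
          · rw [hprime.dvd_mul, hprime.dvd_mul, hprime.dvd_mul, hprime.dvd_mul] at h3
            rcases h3 with (((h1 | h1) | h1) | h1) | h1 <;>
              exact absurd (dvd_le h1 (by norm_num)) (by omega)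
          · have h4 := (Nat.dvd_prime (by norm_num : Nat.Prime 37)).1 h3
            have hp37 : p = 37 := by omega
            have hD5 : D = 1 ∨ D = 5 ∨ D = 7 := by omega
            have h5 : ((105 - 4 * D - 4 * D ^ 2 + 8 * D ^ 3 : ℤ) : ZMod p) = 0 := by
              push_cast; exact h1
            rw [ZMod.intCast_zmod_eq_zero_iff_dvd] at h5
            rw [hp37] at h5
            rcases hD5 with h6 | h6 | h6 <;> rw [h6] at h5 <;> norm_num at h5
          · have := (Nat.dvd_prime (by norm_num : Nat.Prime 179)).1 h3
            omega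
      · have h2 := shape_S2 h29 hA hd hdp' hD (by omega) (by omega) hodd hH
        have hx : ((4 * D : ℕ) : ZMod p) = ((4 * d : ℕ) : ZMod p) - ((4 * (d - D) : ℕ) : ZMod p) := by
          rw [← Nat.cast_sub (by omega)]
          congr 1
          omega
        rw [hdp'] at hx
        have c3 : D = d - 2 ∨ D = d - 1 := by omega
        rcases c3 with c3 | c3
        · rw [show 4 * (d - D) = 8 by omega] at hx
          push_cast at hx
          rw [CharP.cast_eq_zero (ZMod p) p] at hx
          have hx' : 4 * (D : ZMod p) = -1 := by linear_combination hx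
          have h3 : ((3255 : ℕ) : ZMod p) = 0 := by
            have e : 2 * (4 * (D : ZMod p)) ^ 5 - 13 * (4 * (D : ZMod p)) ^ 4 -
              102 * (4 * (D : ZMod p)) ^ 3 + 472 * (4 * (D : ZMod p)) ^ 2 -
              1352 * (4 * (D : ZMod p)) + 1344 = 0 := by linear_combination 32 * h2
            rw [hx'] at e
            push_cast
            linear_combination e
          rw [ZMod.natCast_eq_zero_iff] at h3
          have e : (3255 : ℕ) = (3 * 5 * 7) * 31 := by norm_num
          rw [e, hprime.dvd_mul] at h3
          rcases h3 with h1 | h1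
          · rw [hprime.dvd_mul, hprime.dvd_mul] at h1
            rcases h1 with (h1 | h1) | h1 <;>
              exact absurd (dvd_le h1 (by norm_num)) (by omega)
          · have := (Nat.dvd_prime (by norm_num : Nat.Prime 31)).1 h1
            omega
        · rw [show 4 * (d - D) = 4 by omega] at hx
          push_cast at hx
          rw [CharP.cast_eq_zero (ZMod p) p] at hx
          have hx' : 4 * (D : ZMod p) = 3 := by linear_combination hx
          have h3 : ((1785 : ℕ) : ZMod p) = 0 := by
            have e : 2 * (4 * (D : ZMod p)) ^ 5 - 13 * (4 * (D : ZMod p)) ^ 4 -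
              102 * (4 * (D : ZMod p)) ^ 3 + 472 * (4 * (D : ZMod p)) ^ 2 -
              1352 * (4 * (D : ZMod p)) + 1344 = 0 := by linear_combination 32 * h2
            rw [hx'] at e
            push_cast
            linear_combination -e
          rw [ZMod.natCast_eq_zero_iff] at h3
          have e : (1785 : ℕ) = 3 * 5 * 7 * 17 := by norm_num
          rw [e, hprime.dvd_mul, hprime.dvd_mul, hprime.dvd_mul] at h3
          rcases h3 with ((h1 | h1) | h1) | h1 <;>
            exact absurd (dvd_le h1 (by norm_num)) (by omega)
  intro k hk hk2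
  have := main k hk hk2
  rwa [hd] at this

theorem no_four_three {A : Finset (ZMod p)} (h19 : 19 ≤ p) (hA : WeakZeroSumFree p 4 A)
    (hdp : 4 * A.card = p + 9) : False := by
  obtain ⟨d, hd⟩ : ∃ d, A.card = d := ⟨_, rfl⟩
  have hdp' : 4 * d = p + 9 := by omega
  refine no_all_odd (by omega) hA (by omega) (card_pos.1 (by omega)) ?_
  rw [hd]
  have main : ∀ D, D ≤ d → Odd D → HH A (A.card - 1 + D) = 0 := by
    intro D
    induction D using Nat.strong_induction_on with
    | _ D ih =>
      intro hDd hD
      by_contra hH
      have hodd : ∀ k, k < D → Odd k → HH A (A.card - 1 + k) = 0 :=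
        fun k hk hk2 => ih k hk (by omega) hk2
      have hprime := hp.out
      obtain ⟨D', hD'⟩ := id hD
      by_cases c1 : D = d
      · have h1 := last_9_6 h19 hA hd hdp' hD (by omega) hodd hH
        have e : (14189175 : ℕ) = 9 * 9 * 5 * 5 * 7 * 7 * 11 * 13 := by norm_num
        rw [e, hprime.dvd_mul, hprime.dvd_mul, hprime.dvd_mul, hprime.dvd_mul, hprime.dvd_mul,
          hprime.dvd_mul, hprime.dvd_mul] at h1
        rcases h1 with ((((((h1 | h1) | h1) | h1) | h1) | h1) | h1) | h1 <;>
            exact absurd (dvd_le h1 (by norm_num)) (by omega)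
      by_cases c2 : D + 1 = d
      · have h1 := last_9_5 h19 hA hd hdp' hD (by omega) hodd hH
        have e : (141750 : ℕ) = 2 * 9 * 9 * 5 * 5 * 5 * 7 := by norm_num
        rw [e, hprime.dvd_mul, hprime.dvd_mul, hprime.dvd_mul, hprime.dvd_mul, hprime.dvd_mul,
          hprime.dvd_mul] at h1
        rcases h1 with (((((h1 | h1) | h1) | h1) | h1) | h1) | h1 <;>
            exact absurd (dvd_le h1 (by norm_num)) (by omega)
      by_cases c3 : D + 2 = d
      · have h1 := last_9_4 h19 hA hd hdp' hD (by omega) hodd hH
        have e : (97425 : ℕ) = (9 * 5 * 5) * 433 := by norm_num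
        rw [e, hprime.dvd_mul] at h1
        rcases h1 with h1 | h1
        · rw [hprime.dvd_mul, hprime.dvd_mul] at h1
          rcases h1 with (h1 | h1) | h1 <;>
            exact absurd (dvd_le h1 (by norm_num)) (by omega)
        · have := (Nat.dvd_prime (by norm_num : Nat.Prime 433)).1 h1
          omega
      by_cases c4 : D + 3 = d
      · have h2 := shape_T3 h19 hA hd hdp' hD (by omega) (by omega) hodd hH
        have hx : ((4 * D : ℕ) : ZMod p) + 12 = ((4 * d : ℕ) : ZMod p) := by
          rw [show 4 * d = 4 * D + 12 by omega]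
          push_cast
          ring
        rw [hdp'] at hx
        push_cast at hx
        rw [CharP.cast_eq_zero (ZMod p) p] at hx
        have hx' : 4 * (D : ZMod p) = -3 := by linear_combination hx
        have h3 : ((45 : ℕ) : ZMod p) = 0 := by
          have e : (4 * (D : ZMod p)) ^ 3 + 6 * (4 * (D : ZMod p)) ^ 2 -
            16 * (4 * (D : ZMod p)) - 120 = 0 := by linear_combination 8 * h2
          rw [hx'] at e
          push_cast
          linear_combination -e
        rw [ZMod.natCast_eq_zero_iff] at h3
        have e : (45 : ℕ) = 9 * 5 := by norm_num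
        rw [e, hprime.dvd_mul] at h3
        rcases h3 with h1 | h1 <;>
            exact absurd (dvd_le h1 (by norm_num)) (by omega)
      · have h1 := shape_T1 h19 hA hd hdp' hD (by omega) hodd hH
        by_cases c5 : D = 1
        · rw [c5] at h1
          have h2 : ((45 : ℕ) : ZMod p) = 0 := by
            push_cast at h1 ⊢
            linear_combination h1
          rw [ZMod.natCast_eq_zero_iff] at h2
          have e : (45 : ℕ) = 9 * 5 := by norm_num
          rw [e, hprime.dvd_mul] at h2
          rcases h2 with h1 | h1 <;>
            exact absurd (dvd_le h1 (by norm_num)) (by omega)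
        · have h2 := shape_T2 h19 hA hd hdp' hD (by omega) (by omega) hodd hH
          have h3 : ((173250 : ℕ) : ZMod p) = 0 := by
            push_cast
            linear_combination (-1590 - 5223 * (D : ZMod p) - 3422 * (D : ZMod p) ^ 2 -
              88 * (D : ZMod p) ^ 3 + 448 * (D : ZMod p) ^ 4) * h1 +
              (315 + 46 * (D : ZMod p) - 56 * (D : ZMod p) ^ 2) * h2
          rw [ZMod.natCast_eq_zero_iff] at h3
          have e : (173250 : ℕ) = 2 * 9 * 5 * 5 * 5 * 7 * 11 := by norm_num
          rw [e, hprime.dvd_mul, hprime.dvd_mul, hprime.dvd_mul, hprime.dvd_mul, hprime.dvd_mul,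
            hprime.dvd_mul] at h3
          rcases h3 with (((((h1 | h1) | h1) | h1) | h1) | h1) | h1 <;>
            exact absurd (dvd_le h1 (by norm_num)) (by omega)
  intro k hk hk2
  have := main k hk hk2
  rwa [hd] at this

end Pool.Agent.H19.HP
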