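import Mathlib
import Pool.Agent.H19.HP.FourB

set_option autoImplicit false

/-!
# The classification for prime order
-/

namespace Pool.Agent.H19.HP

open Finset Pool.Agent.H8.Ham

lemma attains_iff {t n : ℕ} (hn : 2 ≤ n) (ht : 1 ≤ t) :
    Attains t n ↔ ∃ A : Finset (ZMod n), WeakZeroSumFree n t A ∧ A.card = (n - 2) / t + t - 1 := by
  have h1 : ((n : ℤ) - 2) / (t : ℤ) = (((n - 2) / t : ℕ) : ℤ) := by
    rw [Int.natCast_div, Nat.cast_sub hn]; rfl
  unfold Attains
  rw [h1]
  generalize (n - 2) / t = q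
  constructor
  · rintro ⟨A, hA, hc⟩
    refine ⟨A, hA, ?_⟩
    omega
  · rintro ⟨A, hA, hc⟩
    refine ⟨A, hA, ?_⟩
    omega

/-- Sums of distinct elements of an initial interval. -/
lemma sum_interval {m : ℕ} {B : Finset ℕ} (hB : B ⊆ Icc 1 m) :
    2 * (∑ b ∈ B, b) + B.card * B.card ≤ 2 * m * B.card + B.card := by
  induction B using Finset.induction_on_max generalizing m with
  | empty => simp
  | insert a B hmax ih =>
    have hnot : a ∉ B := fun h => lt_irrefl _ (hmax a h)
    rw [sum_insert hnot, card_insert_of_notMem hnot]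
    have ha := mem_Icc.1 (hB (mem_insert_self a B))
    have hB' : B ⊆ Icc 1 (a - 1) := by
      intro b hb
      have h1 := hmax b hb
      have h2 := mem_Icc.1 (hB (mem_insert_of_mem hb))
      exact mem_Icc.2 ⟨h2.1, by omega⟩
    have h1 := ih hB'
    obtain ⟨a', rfl⟩ : ∃ a', a = a' + 1 := ⟨a - 1, by omega⟩
    simp only [Nat.add_sub_cancel] at h1
    have h2 : 2 * a' * B.card ≤ 2 * (m - 1) * B.card :=
      Nat.mul_le_mul_right _ (by omega)
    obtain ⟨m', rfl⟩ : ∃ m', m = m' + 1 := ⟨m - 1, by omega⟩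
    simp only [Nat.add_sub_cancel] at h2
    nlinarith

lemma not_dvd_of_lt {n s : ℕ} (h0 : 0 < s) (h : s < n) : ¬ n ∣ s :=
  fun hd => absurd (Nat.le_of_dvd h0 hd) (not_le.2 h)

lemma attains_interval {t n m : ℕ} (hn : 0 < n) (hmn : m < n)
    (hcard : ((m : ℕ) : ℤ) = ((n : ℤ) - 2) / (t : ℤ) + t - 1)
    (h : ∀ c, 1 ≤ c → c ≤ t → 2 * m * c + c < 2 * n + c * c) : Attains t n := by
  refine attains_of_nat hn (Icc 1 m) (fun u hu => ?_) ?_ ?_
  · have := mem_Icc.1 hu; omega
  · rw [Nat.card_Icc]; simpa using hcard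
  · intro B hB hne hBt
    have h1 := sum_interval hB
    have hc : 1 ≤ B.card := card_pos.2 hne
    have h2 := h B.card hc hBt
    refine not_dvd_of_lt ?_ (by omega)
    obtain ⟨b, hb⟩ := hne
    have h3 := mem_Icc.1 (hB hb)
    have h4 : b ≤ ∑ b ∈ B, b := single_le_sum (f := fun b => b) (fun _ _ => Nat.zero_le _) hb
    omega

lemma attains_one {p : ℕ} (hp : 2 ≤ p) : Attains 1 p := by
  refine attains_interval (m := p - 2) (by omega) (by omega) ?_ ?_
  · push_cast [Nat.cast_sub hp]; simp
  · intro c h1 h2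
    have : c = 1 := by omega
    subst this
    omega

lemma attains_two {p : ℕ} (hp : 2 ≤ p) : Attains 2 p := by
  refine attains_interval (m := p / 2) (by omega) (by omega) ?_ ?_
  · push_cast; omega
  · intro c h1 h2
    interval_cases c <;> omega

lemma attains_three {p : ℕ} (hp : 2 ≤ p) (h : p % 3 = 1) : Attains 3 p := by
  refine attains_interval (m := (p + 2) / 3) (by omega) (by omega) ?_ ?_
  · push_cast; omega
  · intro c h1 h2
    interval_cases c <;> omega

/-- Transfer from selections of indices. -/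
lemma free_of_sel {m n t : ℕ} (v : Fin m → ZMod n) (hv : Function.Injective v)
    (h : ∀ ε : Fin m → Bool, (∃ i, ε i = true) → (∑ i, if ε i = true then 1 else 0) ≤ t →
      ∑ i, (if ε i = true then v i else 0) ≠ 0) :
    WeakZeroSumFree n t (univ.image v) := by
  classical
  intro B hB h1 h2
  have e1 : B = (univ.filter fun i => v i ∈ B).image v := by
    ext z
    simp only [mem_image, mem_filter, mem_univ, true_and]
    constructor
    · intro hz
      obtain ⟨i, _, rfl⟩ := mem_image.1 (hB hz)
      exact ⟨i, hz, rfl⟩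
    · rintro ⟨i, hi, rfl⟩
      exact hi
  have h3 := h (fun i => decide (v i ∈ B)) ?_ ?_
  · rw [e1, sum_image (fun a _ b _ hab => hv hab), sum_filter]
    simpa using h3
  · obtain ⟨z, hz⟩ := card_pos.1 (lt_of_lt_of_le one_pos h1)
    obtain ⟨i, _, rfl⟩ := mem_image.1 (hB hz)
    exact ⟨i, by simpa using hz⟩
  · rw [← sum_filter]
    simp only [decide_eq_true_eq, sum_const, smul_eq_mul, mul_one]
    have e2 : B.card = (univ.filter fun i => v i ∈ B).card := by
      conv_lhs => rw [e1]
      rw [card_image_of_injective _ hv]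
    omega

lemma dec_eleven : ∀ ε : Fin 5 → Bool, (∃ i, ε i = true) → (∑ i, if ε i = true then 1 else 0) ≤ 4 →
    ∑ i, (if ε i = true then (![1, 3, 4, 5, 9] : Fin 5 → ZMod 11) i else 0) ≠ 0 := by
  decide +kernel

lemma dec_thirteen : ∀ ε : Fin 5 → Bool, (∃ i, ε i = true) →
    (∑ i, if ε i = true then 1 else 0) ≤ 4 →
    ∑ i, (if ε i = true then (![1, 2, 6, 8, 9] : Fin 5 → ZMod 13) i else 0) ≠ 0 := by
  decide +kernel

lemma dec_seventeen : ∀ ε : Fin 6 → Bool, (∃ i, ε i = true) →
    (∑ i, if ε i = true then 1 else 0) ≤ 4 →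
    ∑ i, (if ε i = true then (![1, 2, 5, 6, 7, 13] : Fin 6 → ZMod 17) i else 0) ≠ 0 := by
  decide +kernel

lemma inj_eleven : Function.Injective (![1, 3, 4, 5, 9] : Fin 5 → ZMod 11) := by decide
lemma inj_thirteen : Function.Injective (![1, 2, 6, 8, 9] : Fin 5 → ZMod 13) := by decide
lemma inj_seventeen : Function.Injective (![1, 2, 5, 6, 7, 13] : Fin 6 → ZMod 17) := by decide

lemma attains_eleven : ∃ A : Finset (ZMod 11), WeakZeroSumFree 11 4 A ∧ A.card = 5 :=
  ⟨_, free_of_sel _ inj_eleven dec_eleven, by rw [card_image_of_injective _ inj_eleven]; rfl⟩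

lemma attains_thirteen : ∃ A : Finset (ZMod 13), WeakZeroSumFree 13 4 A ∧ A.card = 5 :=
  ⟨_, free_of_sel _ inj_thirteen dec_thirteen, by rw [card_image_of_injective _ inj_thirteen]; rfl⟩

lemma attains_seventeen : ∃ A : Finset (ZMod 17), WeakZeroSumFree 17 4 A ∧ A.card = 6 :=
  ⟨_, free_of_sel _ inj_seventeen dec_seventeen,
    by rw [card_image_of_injective _ inj_seventeen]; rfl⟩

lemma free_mono {n s t : ℕ} (h : s ≤ t) {A : Finset (ZMod n)} (hA : WeakZeroSumFree n t A) :
    WeakZeroSumFree n s A := fun B hB h1 h2 => hA B hB h1 (h2.trans h)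

/-- **Classification for prime order.** -/
theorem prime_classification (p t : ℕ) (hp : p.Prime) (ht : 1 ≤ t) :
    Attains t p ↔ t = 1 ∨ t = 2 ∨ (t = 3 ∧ (p % 3 = 1 ∨ p = 11)) ∨
      (t = 4 ∧ (p = 11 ∨ p = 13 ∨ p = 17)) := by
  have hp2 := hp.two_le
  have hfact : Fact p.Prime := ⟨hp⟩
  constructor
  · intro h
    rw [attains_iff hp2 ht] at h
    obtain ⟨A, hA, hc⟩ := h
    by_contra hcon
    push Not at hcon
    obtain ⟨h1, h2, h3, h4⟩ := hcon
    have ht3 : 3 ≤ t := by omega
    have hcard : A.card ≤ p := by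
      have := card_le_univ A
      rwa [ZMod.card] at this
    by_cases hp3 : p ≤ 3
    · have h0 := zero_notMem hA ht
      have h5 : (insert (0 : ZMod p) A).card ≤ p := by
        have := card_le_univ (insert (0 : ZMod p) A)
        rwa [ZMod.card] at this
      rw [card_insert_of_notMem h0] at h5
      have h6 : 2 ≤ A.card := by
        rw [hc]
        generalize (p - 2) / t = q
        omega
      have h7 : p = 3 := by omega
      have := two_mul_card_lt (by omega) hA (by omega)
      omega
    · have h2A := two_mul_card_lt (by omega) hA (by omega)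
      rcases Nat.lt_or_ge 4 t with h5 | h5
      · exact no_attain_five (by omega) h5 A hA hc
      · have ht34 : t = 3 ∨ t = 4 := by omega
        rcases ht34 with rfl | rfl
        · have h6 := h3 rfl
          have hmod : p % 3 ≠ 0 := by
            intro h0
            have h7 := (Nat.prime_dvd_prime_iff_eq Nat.prime_three hp).1 (Nat.dvd_of_mod_eq_zero h0)
            omega
          have h8 : p % 3 = 2 := by omega
          have h9 : p ≠ 5 := by rintro rfl; omega
          have h10 : p ≠ 8 := by rintro rfl; norm_num at hp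
          exact no_three (by omega) hA (by omega)
        · have h6 := h4 rfl
          have hodd : p % 2 = 1 := by
            rcases hp.eq_two_or_odd with h | h <;> omega
          have h7 : p % 4 = 1 ∨ p % 4 = 3 := by omega
          have n9 : p ≠ 9 := by rintro rfl; norm_num at hp
          have n15 : p ≠ 15 := by rintro rfl; norm_num at hp
          have n21 : p ≠ 21 := by rintro rfl; norm_num at hp
          have n25 : p ≠ 25 := by rintro rfl; norm_num at hp
          rcases h7 with h7 | h7
          · exact no_four_one (by omega) hA (by omega)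
          · exact no_four_three (by omega) hA (by omega)
  · rintro (rfl | rfl | ⟨rfl, h | rfl⟩ | ⟨rfl, rfl | rfl | rfl⟩)
    · exact attains_one hp2
    · exact attains_two hp2
    · exact attains_three hp2 h
    · obtain ⟨A, hA, hc⟩ := attains_eleven
      exact ⟨A, free_mono (by norm_num) hA, by rw [hc]; norm_num⟩
    · obtain ⟨A, hA, hc⟩ := attains_eleven
      exact ⟨A, hA, by rw [hc]; norm_num⟩
    · obtain ⟨A, hA, hc⟩ := attains_thirteen
      exact ⟨A, hA, by rw [hc]; norm_num⟩
    · obtain ⟨A, hA, hc⟩ := attains_seventeen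
      exact ⟨A, hA, by rw [hc]; norm_num⟩

end Pool.Agent.H19.HP
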